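import Pool.Agent.U516.R3.Spec
import Pool.Agent.H995R2.RC.AMP1

/-!
Package AM of the project R3: one amplifying element in an irreducible subspace (helper460).
-/

set_option autoImplicit false

namespace R3516
open RC14 Finset
open Pool.Agent.R236.Den
open scoped InnerProductSpace

namespace AM

section
variable {G : Type} [Group G] [Fintype G]
variable {V : Type} [NormedAddCommGroup V] [InnerProductSpace ℂ V] [FiniteDimensional ℂ V]

omit [Fintype G] [FiniteDimensional ℂ V] in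
theorem PX_energy (ρ : G →* (V ≃ₗᵢ[ℂ] V)) {k : ℕ} (hk : 1 ≤ k) (x : Fin k → G) (v : V) :
    (⟪PX ρ x v, v⟫_ℂ).re = ‖v‖ ^ 2 - En ρ x v / (2 * k) := by
  have h0 : PX ρ x v = (1 / (2 * (k : ℂ))) • ∑ i, (ρ (x i) v + ρ (x i)⁻¹ v) := by
    simp only [PX, LinearMap.smul_apply, LinearMap.sum_apply, LinearMap.add_apply, op_apply]
  have hkr : (k : ℝ) ≠ 0 := by
    have : (0 : ℝ) < k := by exact_mod_cast hk
    exact this.ne'
  rw [h0, inner_smul_left, sum_inner]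
  have h1 : (starRingEnd ℂ) (1 / (2 * (k : ℂ))) = ((1 / (2 * k) : ℝ) : ℂ) := by
    rw [map_div₀, map_one, map_mul, Complex.conj_natCast, Complex.conj_ofNat]
    push_cast
    rfl
  rw [h1, Complex.re_ofReal_mul, Complex.re_sum]
  have h2 : ∀ i, (⟪ρ (x i) v + ρ (x i)⁻¹ v, v⟫_ℂ).re = 2 * ‖v‖ ^ 2 - ‖ρ (x i) v - v‖ ^ 2 := by
    intro i
    rw [inner_add_left, Complex.add_re, AMP1.re_inner, AMP1.re_inner_inv]
    ring
  rw [Finset.sum_congr rfl fun i _ => h2 i, Finset.sum_sub_distrib]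
  unfold En
  rw [Finset.sum_const, Finset.card_univ, Fintype.card_fin, nsmul_eq_mul]
  field_simp

theorem main (ρ : G →* (V ≃ₗᵢ[ℂ] V)) (hirr : Irr ρ ⊤) {k : ℕ} (hk : 1 ≤ k) (x : Fin k → G)
    (θ η t : ℝ) (L : ℕ) (hθ : 0 < θ) (hθ1 : θ < 1) (hη0 : 0 ≤ η)
    (hη : rtr (PX ρ x ^ (2 * L)) ≤ η * Module.finrank ℂ V) (ht : rtr (PX ρ x ^ (2 * L)) ≤ t) :
    (Nat.card {z : G // ¬ ∀ v : V, (1 - θ) / 36 * ‖v‖ ^ 2 ≤ En ρ x v + ‖ρ z v - v‖ ^ 2} : ℝ) ≤
      4 * (1 / θ) ^ (4 * L) * η * t * Fintype.card G := by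
  classical
  have hnt : Nontrivial V := by
    rcases subsingleton_or_nontrivial V with h | h
    · exfalso
      apply hirr.1
      exact Subsingleton.elim _ _
    · exact h
  have hd : (0:ℝ) < Module.finrank ℂ V := by
    exact_mod_cast Module.finrank_pos
  set d : ℝ := (Module.finrank ℂ V : ℝ) with hdd
  have hk1 : (1 : ℝ) ≤ k := by exact_mod_cast hk
  obtain ⟨E, hE, htr, hgap⟩ := SPEC (PX ρ x) (PX_symm ρ x) (by
    intro v
    rw [PX_energy ρ hk]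
    have := AMP1.En_nonneg ρ x v
    have h2 : 0 ≤ En ρ x v / (2 * k) := by positivity
    linarith) θ hθ hθ1
  have hgap' : ∀ v, (1 - θ) * ‖v - E v‖ ^ 2 ≤ En ρ x v / 2 := by
    intro v
    have h1 := hgap v
    rw [PX_energy ρ hk] at h1
    have h2 := AMP1.En_nonneg ρ x v
    have h3 : En ρ x v / (2 * k) ≤ En ρ x v / 2 :=
      div_le_div_of_nonneg_left h2 (by norm_num) (by linarith)
    linarith
  have hE0 : 0 ≤ rtr E := by
    rw [← (hs_proj E hE).1]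
    exact hs_nonneg E
  have hθL : 0 < θ ^ (2 * L) := by positivity
  have hinv : (1 / θ) ^ (2 * L) * θ ^ (2 * L) = 1 := by
    rw [← mul_pow]
    have : 1 / θ * θ = 1 := by field_simp
    rw [this, one_pow]
  have hrt : rtr E ≤ (1 / θ) ^ (2 * L) * rtr (PX ρ x ^ (2 * L)) := by
    calc rtr E = (1 / θ) ^ (2 * L) * (θ ^ (2 * L) * rtr E) := by
          rw [← mul_assoc, hinv, one_mul]
      _ ≤ _ := mul_le_mul_of_nonneg_left (htr L) (by positivity)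
  have hr1 : rtr E / d ≤ (1 / θ) ^ (2 * L) * η := by
    rw [div_le_iff₀ hd]
    calc rtr E ≤ (1 / θ) ^ (2 * L) * rtr (PX ρ x ^ (2 * L)) := hrt
      _ ≤ (1 / θ) ^ (2 * L) * (η * d) := mul_le_mul_of_nonneg_left hη (by positivity)
      _ = _ := by ring
  have hr2 : rtr E ≤ (1 / θ) ^ (2 * L) * t :=
    hrt.trans (mul_le_mul_of_nonneg_left ht (by positivity))
  have hbad : ∀ z : G, (¬ ∀ v : V, (1 - θ) / 36 * ‖v‖ ^ 2 ≤ En ρ x v + ‖ρ z v - v‖ ^ 2) →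
      1 ≤ 4 * hs (E * cj ρ E z) := by
    intro z hz
    push Not at hz
    obtain ⟨v, hv⟩ := hz
    have hX := AMP1.En_nonneg ρ x v
    have hZ : 0 ≤ ‖ρ z v - v‖ ^ 2 := by positivity
    have h1θ : 0 < 1 - θ := by linarith
    have hvpos : 0 < ‖v‖ := by
      rcases (norm_nonneg v).eq_or_lt with h | h
      · rw [← h] at hv
        simp at hv
        linarith
      · exact h
    have h1 : ‖v - E v‖ ≤ ‖v‖ / 8 := by
      apply abs_le_of_sq_le_sq' _ (by positivity) |>.2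
      have h2 := hgap' v
      have h3 : (1 - θ) * ‖v - E v‖ ^ 2 ≤ (1 - θ) * (‖v‖ ^ 2 / 72) := by
        calc (1 - θ) * ‖v - E v‖ ^ 2 ≤ En ρ x v / 2 := h2
          _ ≤ ((1 - θ) / 36 * ‖v‖ ^ 2) / 2 := by linarith
          _ = _ := by ring
      have h4 := le_of_mul_le_mul_left h3 h1θ
      have h5 : 0 ≤ ‖v‖ ^ 2 := by positivity
      calc ‖v - E v‖ ^ 2 ≤ ‖v‖ ^ 2 / 72 := h4
        _ ≤ ‖v‖ ^ 2 / 64 := by linarith
        _ = (‖v‖ / 8) ^ 2 := by ring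
    have h2 : ‖ρ z v - v‖ ≤ ‖v‖ / 6 := by
      apply abs_le_of_sq_le_sq' _ (by positivity) |>.2
      have h5 : 0 ≤ ‖v‖ ^ 2 := by positivity
      calc ‖ρ z v - v‖ ^ 2 ≤ (1 - θ) / 36 * ‖v‖ ^ 2 := by linarith
        _ ≤ 1 / 36 * ‖v‖ ^ 2 := mul_le_mul_of_nonneg_right (by linarith) h5
        _ = (‖v‖ / 6) ^ 2 := by ring
    have h3 : ‖cj ρ E z v - v‖ ≤ ‖v‖ * (7 / 24) := by
      calc ‖cj ρ E z v - v‖ ≤ ‖v - E v‖ + ‖ρ z v - v‖ := AMP1.cj_dist ρ E hE _ _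
        _ ≤ ‖v‖ / 8 + ‖v‖ / 6 := add_le_add h1 h2
        _ = _ := by ring
    have h4 : ‖(E * cj ρ E z) v - v‖ ≤ ‖v‖ / 2 := by
      have e : (E * cj ρ E z) v - v = E (cj ρ E z v - v) - (v - E v) := by
        rw [Module.End.mul_apply, map_sub]
        abel
      rw [e]
      calc ‖E (cj ρ E z v - v) - (v - E v)‖ ≤ ‖E (cj ρ E z v - v)‖ + ‖v - E v‖ := norm_sub_le _ _
        _ ≤ ‖cj ρ E z v - v‖ + ‖v‖ / 8 := add_le_add (AMP1.proj_norm E hE _) h1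
        _ ≤ ‖v‖ * (7 / 24) + ‖v‖ / 8 := by linarith
        _ ≤ ‖v‖ / 2 := by linarith
    have h6 : ‖v‖ / 2 ≤ ‖(E * cj ρ E z) v‖ := by
      have := norm_sub_norm_le v ((E * cj ρ E z) v)
      rw [norm_sub_rev] at this
      linarith
    have h7 : (‖v‖ / 2) ^ 2 ≤ hs (E * cj ρ E z) * ‖v‖ ^ 2 := by
      calc (‖v‖ / 2) ^ 2 ≤ ‖(E * cj ρ E z) v‖ ^ 2 := by gcongr
        _ ≤ _ := norm_sq_le_hs _ v
    have h9 : 0 < ‖v‖ ^ 2 := by positivity
    nlinarith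
  have hcount : (Nat.card {z : G // ¬ ∀ v : V,
      (1 - θ) / 36 * ‖v‖ ^ 2 ≤ En ρ x v + ‖ρ z v - v‖ ^ 2} : ℝ) ≤
      ∑ z, 4 * hs (E * cj ρ E z) := by
    rw [Nat.card_eq_fintype_card, Fintype.card_subtype]
    rw [Finset.card_eq_sum_ones]
    push_cast
    calc _ ≤ ∑ z ∈ univ.filter (fun z : G => ¬ ∀ v : V,
        (1 - θ) / 36 * ‖v‖ ^ 2 ≤ En ρ x v + ‖ρ z v - v‖ ^ 2), 4 * hs (E * cj ρ E z) := by
          apply Finset.sum_le_sum
          intro z hz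
          exact hbad z (Finset.mem_filter.mp hz).2
      _ ≤ ∑ z, 4 * hs (E * cj ρ E z) := by
          apply Finset.sum_le_sum_of_subset_of_nonneg (Finset.filter_subset _ _)
          intro z _ _
          have : 0 ≤ hs (E * cj ρ E z) := hs_nonneg _
          linarith
  refine hcount.trans ?_
  rw [← Finset.mul_sum, PEEL.sum_hs_mul ρ hirr E hE E, (hs_proj E hE).1]
  have hcard : (0 : ℝ) ≤ Fintype.card G := by positivity
  have hdiv : 0 ≤ rtr E / d := by positivity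
  have hpe : (1 / θ) ^ (4 * L) = (1 / θ) ^ (2 * L) * (1 / θ) ^ (2 * L) := by
    rw [← pow_add]; congr 1; ring
  calc 4 * ((Fintype.card G : ℝ) * (rtr E / d) * rtr E)
      = 4 * Fintype.card G * ((rtr E / d) * rtr E) := by ring
    _ ≤ 4 * Fintype.card G * (((1 / θ) ^ (2 * L) * η) * ((1 / θ) ^ (2 * L) * t)) := by
        refine mul_le_mul_of_nonneg_left ?_ (by positivity)
        exact mul_le_mul hr1 hr2 hE0 (mul_nonneg (by positivity) hη0)
    _ = _ := by rw [hpe]; ring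

end

end AM

theorem t_AM : S_AM := by
  intro G _ _ V _ _ _ ρ W hW k x θ η t L hk hθ hθ1 hη0 hη ht
  have h := AM.main (res ρ W hW.2.1) (AMP1.irr_res ρ W hW) hk x θ η t L hθ hθ1 hη0 hη ht
  have hE : ∀ w : W, En (res ρ W hW.2.1) x w = En ρ x (w : V) := by
    intro w
    unfold En
    apply Finset.sum_congr rfl
    intro i _
    rw [Submodule.coe_norm, Submodule.coe_sub, res_apply]
  have hN : ∀ (z : G) (w : W), ‖res ρ W hW.2.1 z w - w‖ = ‖ρ z (w : V) - w‖ := by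
    intro z w
    rw [Submodule.coe_norm, Submodule.coe_sub, res_apply]
  have hiff : ∀ z : G, (¬ ∀ v ∈ W,
        (1 - θ) / 36 * ‖v‖ ^ 2 ≤ En ρ x v + ‖ρ z v - v‖ ^ 2) ↔
      (¬ ∀ v : W, (1 - θ) / 36 * ‖v‖ ^ 2 ≤
        En (res ρ W hW.2.1) x v + ‖res ρ W hW.2.1 z v - v‖ ^ 2) := by
    intro z
    apply not_congr
    constructor
    · intro h1 v
      rw [hE, hN, Submodule.coe_norm]
      exact h1 v v.2
    · intro h1 v hv
      have := h1 ⟨v, hv⟩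
      rw [hE, hN, Submodule.coe_norm] at this
      exact this
  have hc : Nat.card {z : G // ¬ ∀ v ∈ W,
        (1 - θ) / 36 * ‖v‖ ^ 2 ≤ En ρ x v + ‖ρ z v - v‖ ^ 2} =
      Nat.card {z : G // ¬ ∀ v : W, (1 - θ) / 36 * ‖v‖ ^ 2 ≤
        En (res ρ W hW.2.1) x v + ‖res ρ W hW.2.1 z v - v‖ ^ 2} :=
    Nat.card_congr (Equiv.subtypeEquivRight hiff)
  rw [hc]
  exact h

end R3516
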