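import Pool.Agent.U516.R3.SpecQ
import Pool.Agent.U516.R3.PkgAM

/-!
Package AMQ of the project R3: `q` amplifying elements in an irreducible subspace (helper15).
-/

set_option autoImplicit false

namespace R3516
open RC14 Finset
open Pool.Agent.R236.Den
open scoped InnerProductSpace

namespace AMQ

section
variable {G : Type} [Group G] [Fintype G]
variable {V : Type} [NormedAddCommGroup V] [InnerProductSpace ℂ V] [FiniteDimensional ℂ V]

/-- the product of the conjugated projections -/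
noncomputable def pr (ρ : G →* (V ≃ₗᵢ[ℂ] V)) (E : Module.End ℂ V) {q : ℕ} (z : Fin q → G) : Module.End ℂ V :=
  (List.ofFn fun i => cj ρ E (z i)).prod

omit [Fintype G] [FiniteDimensional ℂ V] in
theorem pr_succ (ρ : G →* (V ≃ₗᵢ[ℂ] V)) (E : Module.End ℂ V) {q : ℕ} (g : G) (z : Fin q → G) :
    pr ρ E (Fin.cons g z : Fin (q + 1) → G) = cj ρ E g * pr ρ E z := by
  unfold pr
  rw [List.ofFn_succ, List.prod_cons]
  simp only [Fin.cons_zero, Fin.cons_succ]

theorem peel (ρ : G →* (V ≃ₗᵢ[ℂ] V)) (hirr : Irr ρ ⊤) (E : Module.End ℂ V) (hE : SymIdem E)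
    (q : ℕ) : ∀ A : Module.End ℂ V, ∑ z : Fin q → G, hs (A * pr ρ E z) =
      ((Fintype.card G : ℝ) * (rtr E / Module.finrank ℂ V)) ^ q * hs A := by
  induction q with
  | zero =>
    intro A
    simp [pr]
  | succ q ih =>
    intro A
    rw [← (Fin.consEquiv fun _ => G).sum_comp, Fintype.sum_prod_type]
    have h1 : ∀ g : G, ∑ z : Fin q → G, hs (A * pr ρ E (Fin.consEquiv (fun _ => G) (g, z))) =
        ((Fintype.card G : ℝ) * (rtr E / Module.finrank ℂ V)) ^ q * hs (A * cj ρ E g) := by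
      intro g
      rw [← ih (A * cj ρ E g)]
      refine Finset.sum_congr rfl fun z _ => ?_
      change hs (A * pr ρ E (Fin.cons g z : Fin (q + 1) → G)) = _
      rw [pr_succ, mul_assoc]
    rw [Finset.sum_congr rfl fun g _ => h1 g, ← Finset.mul_sum, PEEL.sum_hs_mul ρ hirr E hE,
      pow_succ]
    ring

theorem main (ρ : G →* (V ≃ₗᵢ[ℂ] V)) (hirr : Irr ρ ⊤) {k q : ℕ} (hk : 1 ≤ k) (hq : 1 ≤ q)
    (x : Fin k → G) (θ η t : ℝ) (L : ℕ) (hθ : 0 < θ) (hθ1 : θ < 1) (hη0 : 0 ≤ η)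
    (hη : rtr (PX ρ x ^ (2 * L)) ≤ η * Module.finrank ℂ V) (ht : rtr (PX ρ x ^ (2 * L)) ≤ t) :
    (Nat.card {z : Fin q → G // ¬ ∀ v : V, (1 - θ) / (64 * (q : ℝ) ^ 2) * ‖v‖ ^ 2 ≤
      En ρ x v + En ρ z v} : ℝ) ≤
      4 * (1 / θ) ^ (2 * L * (q + 1)) * η ^ q * t * (Fintype.card G : ℝ) ^ q := by
  classical
  have hnt : Nontrivial V := by
    rcases subsingleton_or_nontrivial V with h | h
    · exfalso
      apply hirr.1
      exact Subsingleton.elim _ _
    · exact h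
  have hd : (0:ℝ) < Module.finrank ℂ V := by
    exact_mod_cast Module.finrank_pos
  set d : ℝ := (Module.finrank ℂ V : ℝ) with hdd
  have hk1 : (1 : ℝ) ≤ k := by exact_mod_cast hk
  have hq1 : (1 : ℝ) ≤ q := by exact_mod_cast hq
  have hq0 : (0 : ℝ) < q := by linarith
  obtain ⟨E, hE, htr, hgap⟩ := SPEC (PX ρ x) (PX_symm ρ x) (by
    intro v
    rw [AM.PX_energy ρ hk]
    have := AMP1.En_nonneg ρ x v
    have h2 : 0 ≤ En ρ x v / (2 * k) := by positivity
    linarith) θ hθ hθ1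
  have hgap' : ∀ v, (1 - θ) * ‖v - E v‖ ^ 2 ≤ En ρ x v / 2 := by
    intro v
    have h1 := hgap v
    rw [AM.PX_energy ρ hk] at h1
    have h2 := AMP1.En_nonneg ρ x v
    have h3 : En ρ x v / (2 * k) ≤ En ρ x v / 2 :=
      div_le_div_of_nonneg_left h2 (by norm_num) (by linarith)
    linarith
  have hE0 : 0 ≤ rtr E := by
    rw [← (hs_proj E hE).1]
    exact hs_nonneg E
  have hθL : 0 < θ ^ (2 * L) := by positivity
  have hinv : (1 / θ) ^ (2 * L) * θ ^ (2 * L) = 1 := by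
    rw [← mul_pow]
    have : 1 / θ * θ = 1 := by field_simp
    rw [this, one_pow]
  have hrt : rtr E ≤ (1 / θ) ^ (2 * L) * rtr (PX ρ x ^ (2 * L)) := by
    calc rtr E = (1 / θ) ^ (2 * L) * (θ ^ (2 * L) * rtr E) := by
          rw [← mul_assoc, hinv, one_mul]
      _ ≤ _ := mul_le_mul_of_nonneg_left (htr L) (by positivity)
  have hr1 : rtr E / d ≤ (1 / θ) ^ (2 * L) * η := by
    rw [div_le_iff₀ hd]
    calc rtr E ≤ (1 / θ) ^ (2 * L) * rtr (PX ρ x ^ (2 * L)) := hrt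
      _ ≤ (1 / θ) ^ (2 * L) * (η * d) := mul_le_mul_of_nonneg_left hη (by positivity)
      _ = _ := by ring
  have hr2 : rtr E ≤ (1 / θ) ^ (2 * L) * t :=
    hrt.trans (mul_le_mul_of_nonneg_left ht (by positivity))
  have hbad : ∀ z : Fin q → G, (¬ ∀ v : V, (1 - θ) / (64 * (q : ℝ) ^ 2) * ‖v‖ ^ 2 ≤
      En ρ x v + En ρ z v) → 1 ≤ 4 * hs (E * pr ρ E z) := by
    intro z hz
    push Not at hz
    obtain ⟨v, hv⟩ := hz
    have hX := AMP1.En_nonneg ρ x v
    have hZ := AMP1.En_nonneg ρ z v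
    have h1θ : 0 < 1 - θ := by linarith
    have hvpos : 0 < ‖v‖ := by
      rcases (norm_nonneg v).eq_or_lt with h | h
      · rw [← h] at hv
        simp at hv
        linarith
      · exact h
    have h5 : 0 ≤ ‖v‖ ^ 2 := by positivity
    have h1 : ‖v - E v‖ ≤ ‖v‖ / (11 * q) := by
      apply abs_le_of_sq_le_sq' _ (by positivity) |>.2
      have h2 := hgap' v
      have h3 : (1 - θ) * ‖v - E v‖ ^ 2 ≤ (1 - θ) * (‖v‖ ^ 2 / (128 * q ^ 2)) := by
        calc (1 - θ) * ‖v - E v‖ ^ 2 ≤ En ρ x v / 2 := h2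
          _ ≤ ((1 - θ) / (64 * (q : ℝ) ^ 2) * ‖v‖ ^ 2) / 2 := by linarith
          _ = _ := by ring
      have h4 := le_of_mul_le_mul_left h3 h1θ
      calc ‖v - E v‖ ^ 2 ≤ ‖v‖ ^ 2 / (128 * q ^ 2) := h4
        _ ≤ ‖v‖ ^ 2 / (121 * q ^ 2) := by
          apply div_le_div_of_nonneg_left (by positivity) (by positivity)
          nlinarith [sq_nonneg (q:ℝ)]
        _ = (‖v‖ / (11 * q)) ^ 2 := by ring
    have h2 : ∀ i, ‖ρ (z i) v - v‖ ≤ ‖v‖ / (8 * q) := by
      intro i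
      apply abs_le_of_sq_le_sq' _ (by positivity) |>.2
      have h3 : ‖ρ (z i) v - v‖ ^ 2 ≤ En ρ z v :=
        Finset.single_le_sum (f := fun i => ‖ρ (z i) v - v‖ ^ 2) (fun i _ => by positivity)
          (Finset.mem_univ i)
      calc ‖ρ (z i) v - v‖ ^ 2 ≤ (1 - θ) / (64 * (q : ℝ) ^ 2) * ‖v‖ ^ 2 := by linarith
        _ ≤ 1 / (64 * (q : ℝ) ^ 2) * ‖v‖ ^ 2 := by
          refine mul_le_mul_of_nonneg_right ?_ h5
          exact div_le_div_of_nonneg_right (by linarith) (by positivity)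
        _ = (‖v‖ / (8 * q)) ^ 2 := by ring
    have h3 : ∀ i, ‖cj ρ E (z i) v - v‖ ≤ ‖v‖ / (4 * q) := by
      intro i
      calc ‖cj ρ E (z i) v - v‖ ≤ ‖v - E v‖ + ‖ρ (z i) v - v‖ := AMP1.cj_dist ρ E hE _ _
        _ ≤ ‖v‖ / (11 * q) + ‖v‖ / (8 * q) := add_le_add h1 (h2 i)
        _ = (‖v‖ / (4 * q)) * (19 / 22) := by field_simp; norm_num
        _ ≤ ‖v‖ / (4 * q) := by
          have : 0 ≤ ‖v‖ / (4 * q) := by positivity
          linarith
    have h4 := AMP1.prod_dist ρ E hE z v _ h3 (List.finRange q)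
    rw [List.length_finRange] at h4
    have hP : ((List.finRange q).map fun i => cj ρ E (z i)).prod = pr ρ E z := by
      unfold pr
      rw [List.ofFn_eq_map]
    rw [hP] at h4
    have h6 : (q:ℝ) * (‖v‖ / (4 * q)) = ‖v‖ / 4 := by field_simp
    rw [h6] at h4
    have h1' : ‖v - E v‖ ≤ ‖v‖ / 4 := by
      refine h1.trans ?_
      apply div_le_div_of_nonneg_left (norm_nonneg v) (by norm_num)
      linarith
    have h7 : ‖(E * pr ρ E z) v - v‖ ≤ ‖v‖ / 2 := by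
      have e : (E * pr ρ E z) v - v = E (pr ρ E z v - v) - (v - E v) := by
        rw [Module.End.mul_apply, map_sub]
        abel
      rw [e]
      calc ‖E (pr ρ E z v - v) - (v - E v)‖ ≤ ‖E (pr ρ E z v - v)‖ + ‖v - E v‖ := norm_sub_le _ _
        _ ≤ ‖pr ρ E z v - v‖ + ‖v‖ / 4 := add_le_add (AMP1.proj_norm E hE _) h1'
        _ ≤ ‖v‖ / 4 + ‖v‖ / 4 := by linarith
        _ = ‖v‖ / 2 := by ring
    have h8 : ‖v‖ / 2 ≤ ‖(E * pr ρ E z) v‖ := by
      have := norm_sub_norm_le v ((E * pr ρ E z) v)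
      rw [norm_sub_rev] at this
      linarith
    have h9 : (‖v‖ / 2) ^ 2 ≤ hs (E * pr ρ E z) * ‖v‖ ^ 2 := by
      calc (‖v‖ / 2) ^ 2 ≤ ‖(E * pr ρ E z) v‖ ^ 2 := by gcongr
        _ ≤ _ := norm_sq_le_hs _ v
    have h10 : 0 < ‖v‖ ^ 2 := by positivity
    nlinarith
  have hcount : (Nat.card {z : Fin q → G // ¬ ∀ v : V,
      (1 - θ) / (64 * (q : ℝ) ^ 2) * ‖v‖ ^ 2 ≤ En ρ x v + En ρ z v} : ℝ) ≤
      ∑ z : Fin q → G, 4 * hs (E * pr ρ E z) := by
    rw [Nat.card_eq_fintype_card, Fintype.card_subtype]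
    rw [Finset.card_eq_sum_ones]
    push_cast
    calc _ ≤ ∑ z ∈ univ.filter (fun z : Fin q → G => ¬ ∀ v : V,
        (1 - θ) / (64 * (q : ℝ) ^ 2) * ‖v‖ ^ 2 ≤ En ρ x v + En ρ z v),
          4 * hs (E * pr ρ E z) := by
          apply Finset.sum_le_sum
          intro z hz
          exact hbad z (Finset.mem_filter.mp hz).2
      _ ≤ ∑ z : Fin q → G, 4 * hs (E * pr ρ E z) := by
          apply Finset.sum_le_sum_of_subset_of_nonneg (Finset.filter_subset _ _)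
          intro z _ _
          have : 0 ≤ hs (E * pr ρ E z) := hs_nonneg _
          linarith
  refine hcount.trans ?_
  rw [← Finset.mul_sum, peel ρ hirr E hE q E, (hs_proj E hE).1]
  have hdiv : 0 ≤ rtr E / d := by positivity
  have hpe : (1 / θ) ^ (2 * L * (q + 1)) = ((1 / θ) ^ (2 * L)) ^ q * (1 / θ) ^ (2 * L) := by
    rw [← pow_mul, ← pow_add]; congr 1
  calc 4 * (((Fintype.card G : ℝ) * (rtr E / d)) ^ q * rtr E)
      = 4 * (Fintype.card G : ℝ) ^ q * ((rtr E / d) ^ q * rtr E) := by rw [mul_pow]; ring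
    _ ≤ 4 * (Fintype.card G : ℝ) ^ q *
        (((1 / θ) ^ (2 * L) * η) ^ q * ((1 / θ) ^ (2 * L) * t)) := by
        refine mul_le_mul_of_nonneg_left ?_ (by positivity)
        exact mul_le_mul (pow_le_pow_left₀ hdiv hr1 q) hr2 hE0 (by positivity)
    _ = _ := by rw [hpe, mul_pow]; ring

end

end AMQ

theorem t_AMQ : S_AMQ := by
  intro G _ _ V _ _ _ ρ W hW k q x θ η t L hk hq hθ hθ1 hη0 hη ht
  have h := AMQ.main (res ρ W hW.2.1) (AMP1.irr_res ρ W hW) hk hq x θ η t L hθ hθ1 hη0 hη ht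
  have hE : ∀ {m : ℕ} (y : Fin m → G) (w : W),
      En (res ρ W hW.2.1) y w = En ρ y (w : V) := by
    intro m y w
    unfold En
    apply Finset.sum_congr rfl
    intro i _
    rw [Submodule.coe_norm, Submodule.coe_sub, res_apply]
  have hiff : ∀ z : Fin q → G, (¬ ∀ v ∈ W,
        (1 - θ) / (64 * (q : ℝ) ^ 2) * ‖v‖ ^ 2 ≤ En ρ x v + En ρ z v) ↔
      (¬ ∀ v : W, (1 - θ) / (64 * (q : ℝ) ^ 2) * ‖v‖ ^ 2 ≤
        En (res ρ W hW.2.1) x v + En (res ρ W hW.2.1) z v) := by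
    intro z
    apply not_congr
    constructor
    · intro h1 v
      rw [hE, hE, Submodule.coe_norm]
      exact h1 v v.2
    · intro h1 v hv
      have := h1 ⟨v, hv⟩
      rw [hE, hE, Submodule.coe_norm] at this
      exact this
  have hc : Nat.card {z : Fin q → G // ¬ ∀ v ∈ W,
        (1 - θ) / (64 * (q : ℝ) ^ 2) * ‖v‖ ^ 2 ≤ En ρ x v + En ρ z v} =
      Nat.card {z : Fin q → G // ¬ ∀ v : W, (1 - θ) / (64 * (q : ℝ) ^ 2) * ‖v‖ ^ 2 ≤
        En (res ρ W hW.2.1) x v + En (res ρ W hW.2.1) z v} :=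
    Nat.card_congr (Equiv.subtypeEquivRight hiff)
  rw [hc]
  exact h

end R3516
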