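import Pool.Agent.U516.R3.Spec

/-!
Project R3, package CM (helper637): the commutator of an element with a conjugate prescribed on
`2 m` points has support between `m` and `15 m`.
-/

namespace R3516
open RC14 RD516 Finset Equiv

noncomputable section

namespace CM

variable {n k : ℕ} {x : Fin k → alternatingGroup (Fin n)}

/-- the lazy walk of the indicator of a tuple -/
lemma near {r T : ℕ} {ε δ : ℝ} (hk : 1 ≤ k) (hε : ε ≤ 2) (hg : TGap x ε r) (hδ : 0 ≤ δ)
    (hT : (1 - ε / 2) ^ T ≤ δ ^ 2) (a b : Tup r n) :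
    |(RL x)^[T] (fun g => if mv g a = b then (1 : ℝ) else 0) 1 -
      1 / (Fintype.card (Tup r n) : ℝ)| ≤ δ := by
  classical
  have : Nonempty (Tup r n) := ⟨a⟩
  have h1 := tuple_point hk hε hg (fun c => if c = b then 1 else 0) a T
  have h2 : ∑ c : Tup r n, (if c = b then (1 : ℝ) else 0) = 1 := by simp
  have h3 : ∑ c : Tup r n, (if c = b then (1 : ℝ) else 0) ^ 2 = 1 := by simp
  rw [h2, h3, mul_one] at h1
  exact abs_le_of_sq_le_sq (h1.trans hT) hδ

/-- an independent set of `m` points of the support -/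
lemma exists_indep (t : Perm (Fin n)) (m : ℕ) (h : 3 * m ≤ #t.support) :
    ∃ Y ⊆ t.support, #Y = m ∧ ∀ y ∈ Y, t y ∉ Y := by
  classical
  induction m with
  | zero => exact ⟨∅, empty_subset _, rfl, by simp⟩
  | succ m ih =>
    obtain ⟨Y, hY1, hY2, hY3⟩ := ih (by omega)
    have hc : #((Y ∪ Y.image ⇑t) ∪ Y.image ⇑t⁻¹) ≤ 3 * m := by
      have h8 := card_union_le (Y ∪ Y.image ⇑t) (Y.image ⇑t⁻¹)
      have h9 := card_union_le Y (Y.image ⇑t)
      have h10 : #(Y.image ⇑t) ≤ #Y := card_image_le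
      have h11 : #(Y.image ⇑t⁻¹) ≤ #Y := card_image_le
      omega
    obtain ⟨y, hy1, hy2⟩ := exists_mem_notMem_of_card_lt_card
      (lt_of_le_of_lt hc (by omega : 3 * m < #t.support))
    simp only [mem_union, not_or] at hy2
    obtain ⟨⟨hy2, hy3⟩, hy4⟩ := hy2
    refine ⟨insert y Y, insert_subset hy1 hY1, by rw [card_insert_of_notMem hy2, hY2], ?_⟩
    intro z hz hz2
    rw [mem_insert] at hz hz2
    rcases hz with rfl | hz
    · rcases hz2 with hz2 | hz2
      · exact (Perm.mem_support.1 hy1) hz2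
      · exact hy4 (mem_image.2 ⟨t z, hz2, by simp⟩)
    · rcases hz2 with hz2 | hz2
      · exact hy3 (mem_image.2 ⟨z, hz, hz2⟩)
      · exact hY3 z hz hz2

lemma mv_snoc {r : ℕ} (g : Perm (Fin n)) (a b : Tup r n) {y c : Fin n}
    (hy : y ∉ Set.range a) (hc : c ∉ Set.range b) :
    mv g (Fin.Embedding.snoc a hy) = Fin.Embedding.snoc b hc ↔ mv g a = b ∧ g y = c := by
  constructor
  · intro h
    constructor
    · ext i
      have h1 := DFunLike.congr_fun h (Fin.castSucc i)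
      rw [mv_apply, Fin.Embedding.snoc_castSucc, Fin.Embedding.snoc_castSucc] at h1
      rw [mv_apply, h1]
    · have h1 := DFunLike.congr_fun h (Fin.last r)
      rw [mv_apply, Fin.Embedding.snoc_last, Fin.Embedding.snoc_last] at h1
      exact h1
  · rintro ⟨h1, h2⟩
    refine DFunLike.ext _ _ fun i => ?_
    refine Fin.lastCases ?_ (fun j => ?_) i
    · rw [mv_apply, Fin.Embedding.snoc_last, Fin.Embedding.snoc_last, h2]
    · rw [mv_apply, Fin.Embedding.snoc_castSucc, Fin.Embedding.snoc_castSucc, ← h1, mv_apply]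

lemma card_succ (r : ℕ) (hr : r ≤ n) :
    (Fintype.card (Tup (r + 1) n) : ℝ) = Fintype.card (Tup r n) * ((n : ℝ) - r) := by
  rw [Fintype.card_embedding_eq, Fintype.card_embedding_eq, Fintype.card_fin, Fintype.card_fin,
    Fintype.card_fin, Nat.descFactorial_succ]
  push_cast [Nat.cast_sub hr]
  ring

/-- a short word which maps `a` to `b` and few further points of `S` to `S` -/
lemma word {ε : ℝ} {m T : ℕ} (hk : 1 ≤ k) (hε : ε ≤ 2) (hm : 1 ≤ m) (hg1 : TGap x ε (2 * m))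
    (hg2 : TGap x ε (2 * m + 1))
    (hT : (1 - ε / 2) ^ T * ((n : ℝ) ^ (2 * m + 2)) ^ 2 ≤ 1 / 64) (S : Finset (Fin n))
    (h24 : 24 * m ≤ n) (hs2 : #S ^ 2 ≤ m * n) (a b : Tup (2 * m) n) :
    ∃ h ∈ PB x T, mv h a = b ∧
      #(S.filter fun y => y ∉ Set.range a ∧ h y ∈ S) < 2 * m := by
  classical
  have hn1 : 24 ≤ n := by omega
  have hn : (24 : ℝ) ≤ n := by exact_mod_cast hn1
  have hn0 : (0 : ℝ) < n := by linarith
  have hm1 : (1 : ℝ) ≤ m := by exact_mod_cast hm
  have h24' : 24 * (m : ℝ) ≤ n := by exact_mod_cast h24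
  set δ : ℝ := 1 / (8 * (n : ℝ) ^ (2 * m + 2)) with hδ
  have hδ0 : 0 < δ := by positivity
  have hTδ : (1 - ε / 2) ^ T ≤ δ ^ 2 := by
    have h1 : (0 : ℝ) < ((n : ℝ) ^ (2 * m + 2)) ^ 2 := by positivity
    have h2 : δ ^ 2 * ((n : ℝ) ^ (2 * m + 2)) ^ 2 = 1 / 64 := by
      rw [hδ]
      field_simp
      norm_num
    rw [← h2] at hT
    exact le_of_mul_le_mul_right hT h1
  set N : ℝ := (Fintype.card (Tup (2 * m) n) : ℝ) with hN
  have : Nonempty (Tup (2 * m) n) := ⟨a⟩
  have hN0 : 0 < N := by rw [hN]; exact_mod_cast Fintype.card_pos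
  set D : ℝ := (n : ℝ) - 2 * m with hD
  have hD0 : 0 < D := by rw [hD]; linarith
  have hcs : (Fintype.card (Tup (2 * m + 1) n) : ℝ) = N * D := by
    rw [card_succ (2 * m) (by omega), hN, hD]
    push_cast
    ring
  set P := S.filter fun y => y ∉ Set.range a with hP
  set Q := S.filter fun y => y ∉ Set.range b with hQ
  set ψ : Fin n → Fin n → Perm (Fin n) → ℝ := fun y c g =>
    if mv g a = b ∧ g y = c then 1 else 0 with hψ
  set φ : Perm (Fin n) → ℝ := fun g => if mv g a = b then 1 else 0 with hφ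
  have hW0 : 1 / N - δ ≤ (RL x)^[T] φ 1 := by
    have h1 := (abs_le.1 (near hk hε hg1 hδ0.le hTδ a b)).1
    linarith
  have hW1 : ∀ y ∈ P, ∀ c ∈ Q, (RL x)^[T] (ψ y c) 1 ≤ 1 / (N * D) + δ := by
    intro y hy c hc
    rw [hP, mem_filter] at hy
    rw [hQ, mem_filter] at hc
    have h1 := (abs_le.1 (near hk hε hg2 hδ0.le hTδ (Fin.Embedding.snoc a hy.2)
      (Fin.Embedding.snoc b hc.2))).2
    have h2 : (fun g : Perm (Fin n) => if mv g (Fin.Embedding.snoc a hy.2) =
        Fin.Embedding.snoc b hc.2 then (1 : ℝ) else 0) = ψ y c := by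
      funext g
      rw [hψ]
      simp only [mv_snoc]
    rw [h2, hcs] at h1
    linarith
  set G : Perm (Fin n) → ℝ := fun g => (2 * m : ℝ) * φ g +
    (-1) * ∑ y ∈ P, ∑ c ∈ Q, ψ y c g with hG
  have hWG : (RL x)^[T] G 1 = (2 * m : ℝ) * (RL x)^[T] φ 1 +
      (-1) * ∑ y ∈ P, ∑ c ∈ Q, (RL x)^[T] (ψ y c) 1 := by
    have e1 := RLi_add (x := x) (fun g => (2 * m : ℝ) * φ g)
      (fun g => (-1) * ∑ y ∈ P, ∑ c ∈ Q, ψ y c g) T
    have e2 := RLi_smul (x := x) (2 * m : ℝ) φ T
    have e3 := RLi_smul (x := x) (-1) (fun g => ∑ y ∈ P, ∑ c ∈ Q, ψ y c g) T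
    have e4 := RLi_sum (x := x) P (fun y g => ∑ c ∈ Q, ψ y c g) T
    have e5 : ∀ y, (RL x)^[T] (fun g => ∑ c ∈ Q, ψ y c g) =
        fun g => ∑ c ∈ Q, (RL x)^[T] (ψ y c) g := fun y => RLi_sum (x := x) Q (fun c => ψ y c) T
    rw [hG, e1, e2, e3, e4]
    simp only [e5]
  have hpq : (#P : ℝ) * #Q ≤ m * n := by
    have h1 : #P ≤ #S := card_filter_le _ _
    have h2 : #Q ≤ #S := card_filter_le _ _
    have h3 : #P * #Q ≤ m * n := (Nat.mul_le_mul h1 h2).trans (by rw [← sq]; exact hs2)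
    exact_mod_cast h3
  have hsum : ∑ y ∈ P, ∑ c ∈ Q, (RL x)^[T] (ψ y c) 1 ≤ m * n * (1 / (N * D) + δ) := by
    have h1 : ∀ y ∈ P, ∑ c ∈ Q, (RL x)^[T] (ψ y c) 1 ≤ #Q * (1 / (N * D) + δ) := by
      intro y hy
      have := sum_le_card_nsmul Q _ _ (hW1 y hy)
      rwa [nsmul_eq_mul] at this
    have h2 := sum_le_card_nsmul P _ _ h1
    rw [nsmul_eq_mul, ← mul_assoc] at h2
    exact h2.trans (mul_le_mul_of_nonneg_right hpq (by positivity))
  have hNδ : N * δ ≤ 1 / (8 * (n : ℝ) ^ 2) := by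
    have h1 : N ≤ (n : ℝ) ^ (2 * m) := by rw [hN]; exact_mod_cast card_tup_le (2 * m) n
    have h2 : (n : ℝ) ^ (2 * m) * δ = 1 / (8 * (n : ℝ) ^ 2) := by
      rw [hδ, pow_add]
      field_simp
    rw [← h2]
    exact mul_le_mul_of_nonneg_right h1 hδ0.le
  have hpos : 0 < (RL x)^[T] G 1 := by
    have h1 : (2 * m : ℝ) * (1 / N - δ) - m * n * (1 / (N * D) + δ) ≤ (RL x)^[T] G 1 := by
      rw [hWG]
      have := mul_le_mul_of_nonneg_left hW0 (by positivity : (0 : ℝ) ≤ 2 * m)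
      linarith
    refine lt_of_lt_of_le ?_ h1
    have h2 : (2 * m : ℝ) * (1 / N - δ) - m * n * (1 / (N * D) + δ) =
        m / N * (2 - 2 * (N * δ) - n / D - n * (N * δ)) := by
      field_simp
      ring
    rw [h2]
    refine mul_pos (by positivity) ?_
    have h3 : (n : ℝ) / D ≤ 12 / 11 := by
      rw [div_le_div_iff₀ hD0 (by norm_num), hD]
      linarith
    have h4 : (n : ℝ) * (N * δ) ≤ 1 / 192 := by
      have h5 : (n : ℝ) * (N * δ) ≤ n * (1 / (8 * (n : ℝ) ^ 2)) :=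
        mul_le_mul_of_nonneg_left hNδ hn0.le
      refine h5.trans ?_
      have h6 : (n : ℝ) * (1 / (8 * (n : ℝ) ^ 2)) = 1 / (8 * n) := by
        field_simp
      rw [h6]
      exact one_div_le_one_div_of_le (by norm_num) (by linarith)
    have h7 : N * δ ≤ 1 / 192 := by
      refine hNδ.trans (one_div_le_one_div_of_le (by norm_num) ?_)
      nlinarith
    linarith
  obtain ⟨h, hh1, hh2⟩ := RLi_pos T hpos
  rw [mul_one] at hh2
  have hψ0 : 0 ≤ ∑ y ∈ P, ∑ c ∈ Q, ψ y c h := by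
    refine sum_nonneg fun y _ => sum_nonneg fun c _ => ?_
    simp only [hψ]
    split_ifs <;> norm_num
  have hab : mv h a = b := by
    by_contra hcon
    have h1 : φ h = 0 := by simp only [hφ, if_neg hcon]
    have h2 : G h ≤ 0 := by
      simp only [hG, h1]
      linarith
    linarith
  refine ⟨h, hh1, hab, ?_⟩
  have h1 : φ h = 1 := by simp only [hφ, if_pos hab]
  have h2 : ∑ y ∈ P, ∑ c ∈ Q, ψ y c h =
      (#(S.filter fun y => y ∉ Set.range a ∧ h y ∈ S) : ℝ) := by
    have h3 : ∀ y ∈ P, ∑ c ∈ Q, ψ y c h = if h y ∈ S then 1 else 0 := by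
      intro y hy
      rw [hP, mem_filter] at hy
      have h4 : h y ∉ Set.range b := by
        rintro ⟨i, hi⟩
        rw [← hab, mv_apply] at hi
        exact hy.2 ⟨i, h.injective hi⟩
      have h5 : ∀ c ∈ Q, ψ y c h = if h y = c then 1 else 0 := by
        intro c _
        simp only [hψ, hab, true_and]
      rw [sum_congr rfl h5, sum_ite_eq]
      refine if_congr ?_ rfl rfl
      rw [hQ, mem_filter]
      exact and_iff_left h4
    rw [sum_congr rfl h3, hP, ← sum_filter, sum_const, nsmul_eq_mul, mul_one, filter_filter]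
  have h3 : (#(S.filter fun y => y ∉ Set.range a ∧ h y ∈ S) : ℝ) < 2 * m := by
    have h4 : G h = 2 * m - (#(S.filter fun y => y ∉ Set.range a ∧ h y ∈ S) : ℝ) := by
      simp only [hG]
      rw [h1, h2]
      ring
    rw [h4] at hh2
    linarith
  exact_mod_cast h3

end CM

open CM

/-- package CM -/
theorem t_CM : S_CM := by
  classical
  intro n k x ε m T ℓ t hk hε hm hg1 hg2 hT ht h3 hs2 h8
  set S := t.support with hS
  obtain ⟨Y, hY1, hY2, hY3⟩ := exists_indep t m h3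
  have hYt : Disjoint Y (Y.image ⇑t) := by
    rw [disjoint_left]
    intro y hy hy2
    obtain ⟨z, hz, rfl⟩ := mem_image.1 hy2
    exact hY3 z hz hy
  have hYc : #(Y.image ⇑t) = m := by rw [card_image_of_injective _ t.injective, hY2]
  have hYS : Y.image ⇑t ⊆ S := by
    intro y hy
    obtain ⟨z, hz, rfl⟩ := mem_image.1 hy
    exact Perm.apply_mem_support.2 (hY1 hz)
  have hAc : #(Y ∪ Y.image ⇑t) = 2 * m := by
    rw [card_union_of_disjoint hYt, hY2, hYc]
    ring
  set a : Tup (2 * m) n := ((Y ∪ Y.image ⇑t).orderEmbOfFin hAc).toEmbedding with ha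
  have hra : Set.range a = ↑(Y ∪ Y.image ⇑t) := range_orderEmbOfFin _ hAc
  have hcS : #(univ \ S) = n - #S := by
    rw [card_sdiff_of_subset (subset_univ _), card_univ, Fintype.card_fin]
  have hc1 : Fintype.card {y // y ∈ Y} ≤ #(univ \ S) := by
    rw [Fintype.card_coe, hY2, hcS]
    omega
  have hc2 : Fintype.card {y // y ∈ Y.image ⇑t} ≤ #S := by
    rw [Fintype.card_coe, hYc]
    omega
  obtain ⟨f1, hf1⟩ := Function.Embedding.exists_of_card_le_finset hc1
  obtain ⟨f2, hf2⟩ := Function.Embedding.exists_of_card_le_finset hc2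
  have hf1' : ∀ z, f1 z ∉ S := by
    intro z hz
    have h1 : f1 z ∈ (↑(univ \ S) : Set (Fin n)) := hf1 ⟨z, rfl⟩
    rw [mem_coe, mem_sdiff] at h1
    exact h1.2 hz
  have hf2' : ∀ z, f2 z ∈ S := fun z => hf2 ⟨z, rfl⟩
  have hat : ∀ i, a i ∉ Y → a i ∈ Y.image ⇑t := by
    intro i hi
    have h1 : a i ∈ Set.range a := ⟨i, rfl⟩
    rw [hra, mem_coe, mem_union] at h1
    exact h1.resolve_left hi
  set b : Tup (2 * m) n := ⟨fun i => if h : a i ∈ Y then f1 ⟨a i, h⟩ else f2 ⟨a i, hat i h⟩, by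
    intro i j hij
    by_cases hi : a i ∈ Y <;> by_cases hj : a j ∈ Y
    · simp only [dif_pos hi, dif_pos hj] at hij
      have h5 : a i = a j := Subtype.mk.inj (f1.injective hij)
      exact a.injective h5
    · simp only [dif_pos hi, dif_neg hj] at hij
      exact absurd (hij ▸ hf2' _) (hf1' _)
    · simp only [dif_neg hi, dif_pos hj] at hij
      exact absurd (hij ▸ hf2' _) (hf1' _)
    · simp only [dif_neg hi, dif_neg hj] at hij
      have h5 : a i = a j := Subtype.mk.inj (f2.injective hij)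
      exact a.injective h5⟩ with hb
  obtain ⟨h, hh1, hab, hcnt⟩ := word hk hε hm hg1 hg2 hT S (by omega) hs2 a b
  have hY : ∀ y ∈ Y, h y ∉ S := by
    intro y hy
    have h1 : y ∈ Set.range a := by rw [hra, mem_coe, mem_union]; exact Or.inl hy
    obtain ⟨i, hi⟩ := h1
    have h2 : h (a i) = b i := by rw [← hab, mv_apply]
    have h3 : b i = f1 ⟨a i, hi ▸ hy⟩ := by
      rw [hb]
      change (if h : a i ∈ Y then f1 ⟨a i, h⟩ else f2 ⟨a i, hat i h⟩) = _
      rw [dif_pos (hi ▸ hy)]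
    rw [← hi, h2, h3]
    exact hf1' _
  have htY : ∀ y ∈ Y, h (t y) ∈ S := by
    intro y hy
    have h0 : t y ∈ Y.image ⇑t := mem_image.2 ⟨y, hy, rfl⟩
    have h1 : t y ∈ Set.range a := by rw [hra, mem_coe, mem_union]; exact Or.inr h0
    obtain ⟨i, hi⟩ := h1
    have hi2 : a i ∉ Y := by rw [hi]; exact hY3 y hy
    have h2 : h (a i) = b i := by rw [← hab, mv_apply]
    have h3 : b i = f2 ⟨a i, hat i hi2⟩ := by
      rw [hb]
      change (if h : a i ∈ Y then f1 ⟨a i, h⟩ else f2 ⟨a i, hat i h⟩) = _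
      rw [dif_neg hi2]
    rw [← hi, h2, h3]
    exact hf2' _
  obtain ⟨b1, b2, -⟩ := comm_bounds t h
  have hlow : m ≤ #(t.support.filter fun y => h y ∉ t.support ∧ h (t y) ∈ t.support) := by
    rw [← hY2]
    refine card_le_card fun y hy => ?_
    rw [mem_filter]
    exact ⟨hY1 hy, hY y hy, htY y hy⟩
  have hup : #(t.support.filter fun y => h y ∈ t.support) ≤ 3 * m := by
    have h1 : (t.support.filter fun y => h y ∈ t.support) ⊆
        (S.filter fun y => y ∉ Set.range a ∧ h y ∈ S) ∪ Y.image ⇑t := by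
      intro y hy
      rw [mem_filter] at hy
      rw [mem_union, mem_filter]
      by_cases h2 : y ∈ Set.range a
      · right
        rw [hra, mem_coe, mem_union] at h2
        rcases h2 with h2 | h2
        · exact absurd hy.2 (hY y h2)
        · exact h2
      · exact Or.inl ⟨hy.1, h2, hy.2⟩
    have h2 := card_le_card h1
    have h3 := card_union_le (S.filter fun y => y ∉ Set.range a ∧ h y ∈ S) (Y.image ⇑t)
    omega
  refine ⟨t * (h⁻¹ * t * h) * t⁻¹ * (h⁻¹ * t * h)⁻¹, ?_, hlow.trans b1, by omega⟩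
  have hconj : h⁻¹ * t * h ∈ PB x (ℓ + 2 * T) := by
    have := PB.conj ht (PB.inv hh1)
    rwa [inv_inv] at this
  exact PB.mono (by omega) (PB.mul (PB.mul (PB.mul ht hconj) (PB.inv ht)) (PB.inv hconj))

end

end R3516
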