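import Pool.Agent.U516.R3.Spec

set_option autoImplicit false

/-! Package FF: few fixed points, general exponents. -/

namespace R3516
open RC14 RD516 Finset Filter Topology
open Pool.Agent.R236.Den

open Pool.Agent.R236.Den.EXPO3 in
theorem t_FF : S_FF := by
  intro k α φ hk hα hαφ hφ e he
  set δ : ℝ := φ - 3 * α with hδdef
  have hδ : 0 < δ := by rw [hδdef]; linarith
  have t1 : ∀ s : ℝ, 0 < s → ∀ B : ℝ, ∀ᶠ n : ℕ in Filter.atTop, B ≤ (n : ℝ) ^ s := by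
    intro s hs B
    exact ((tendsto_rpow_atTop hs).comp tendsto_natCast_atTop_atTop).eventually_ge_atTop B
  filter_upwards [t1 α hα (2 / δ * ((1 : ℕ) + k) + 1),
    t1 (δ / 2) (by linarith) ((2 * (2 * k + 1)) * Real.exp 1 ^ 2),
    t1 (φ - 2 * α) (by linarith) 2, Filter.eventually_ge_atTop 2, t1 1 one_pos (1 / e)]
    with n h1 h2 h3 h4 h6
  have hn2 : (2 : ℝ) ≤ n := by exact_mod_cast h4
  have hn0 : (0 : ℝ) < n := by linarith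
  rw [Real.rpow_one] at h6
  set ℓ := ⌊(n : ℝ) ^ α⌋₊ with hℓ
  set F := ⌈(n : ℝ) ^ φ⌉₊ with hF
  have hpos : 0 ≤ (n : ℝ) ^ α := by positivity
  have hℓ1 : (ℓ : ℝ) ≤ (n : ℝ) ^ α := Nat.floor_le hpos
  have hℓ2 : 2 / δ * ((1 : ℕ) + k) ≤ ℓ := by
    have := Nat.lt_floor_add_one ((n : ℝ) ^ α)
    have h5 : (n : ℝ) ^ α < ℓ + 1 := this
    linarith
  have hℓpos : 1 ≤ ℓ := by
    apply Nat.le_floor
    have h5 : 0 ≤ 2 / δ * (((1 : ℕ) : ℝ) + k) := by positivity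
    push_cast at h5 h1 ⊢
    linarith
  have hF1 : (n : ℝ) ^ φ ≤ F := Nat.le_ceil _
  have hle1 : (n : ℝ) ^ φ ≤ n := by
    calc (n : ℝ) ^ φ ≤ (n : ℝ) ^ (1 : ℝ) :=
          Real.rpow_le_rpow_of_exponent_le (by linarith) hφ
      _ = n := Real.rpow_one _
  have hFn : F ≤ n := by
    rw [hF, Nat.ceil_le]
    exact hle1
  have hsq : (ℓ : ℝ) ^ 2 ≤ (n : ℝ) ^ (2 * α) := by
    calc (ℓ : ℝ) ^ 2 ≤ ((n : ℝ) ^ α) ^ 2 := by gcongr
      _ = (n : ℝ) ^ (2 * α) := by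
          rw [← Real.rpow_natCast, ← Real.rpow_mul hn0.le]
          congr 1
          push_cast
          ring
  have hcube : (ℓ : ℝ) ^ 3 ≤ (n : ℝ) ^ (3 * α) := by
    calc (ℓ : ℝ) ^ 3 ≤ ((n : ℝ) ^ α) ^ 3 := by gcongr
      _ = (n : ℝ) ^ (3 * α) := by
          rw [← Real.rpow_natCast, ← Real.rpow_mul hn0.le]
          congr 1
          push_cast
          ring
  have hhalf : (n : ℝ) ^ (2 * α) ≤ (n : ℝ) ^ φ / 2 := by
    rw [le_div_iff₀ (by norm_num)]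
    calc (n : ℝ) ^ (2 * α) * 2 ≤ (n : ℝ) ^ (2 * α) * (n : ℝ) ^ (φ - 2 * α) := by gcongr
      _ = (n : ℝ) ^ φ := by
          rw [← Real.rpow_add hn0]
          congr 1
          ring
  set D : ℝ := F - (ℓ : ℝ) ^ 2 with hDdef
  set M : ℝ := n - (ℓ : ℝ) ^ 2 with hMdef
  have hD2 : (n : ℝ) ^ φ / 2 ≤ D := by
    rw [hDdef]; linarith
  have hD0 : 0 < D := lt_of_lt_of_le (by positivity) hD2
  have hM2 : (n : ℝ) / 2 ≤ M := by
    rw [hMdef]; linarith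
  have hℓF : ℓ * ℓ < F := by
    have : ((ℓ * ℓ : ℕ) : ℝ) < F := by
      push_cast
      have : 0 < F - (ℓ : ℝ) ^ 2 := hD0
      nlinarith
    exact_mod_cast this
  have hN := numeric (gk := k) n ℓ 1 δ D M h4 hδ
    (by
      calc (ℓ : ℝ) ^ 3 ≤ (n : ℝ) ^ (3 * α) := hcube
        _ = (n : ℝ) ^ (-δ) * (n : ℝ) ^ φ := by
            rw [← Real.rpow_add hn0]
            congr 1
            rw [hδdef]
            ring
        _ ≤ (n : ℝ) ^ (-δ) * (2 * D) := by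
            gcongr
            linarith
        _ = 2 * (n : ℝ) ^ (-δ) * D := by ring)
    hD0 hM2 hMdef
    (by
      calc (ℓ : ℝ) ^ 3 ≤ (n : ℝ) ^ (3 * α) := hcube
        _ ≤ (n : ℝ) ^ (1 : ℝ) := Real.rpow_le_rpow_of_exponent_le (by linarith) (by linarith)
        _ = n := Real.rpow_one _)
    h2 hℓ2
  have hE := EXPO2 (gk := k) n ℓ ℓ F hℓF hFn h4 hℓpos
  have hE' : (Nat.card {x : Fin k → Alt n // ¬ FewFixK n ℓ F
      (fun i => (x i : Equiv.Perm (Fin n)))} : ℝ) * D ^ ℓ * M ^ (ℓ * ℓ) ≤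
      (2 * k + 1) ^ ℓ * 2 ^ k * (Fintype.card (Alt n) : ℝ) ^ k * ((ℓ : ℝ) ^ 3) ^ ℓ * (n : ℝ) ^ (ℓ * ℓ) := by
    have e1 : (((F - ℓ * ℓ : ℕ)) : ℝ) = D := by
      rw [Nat.cast_sub hℓF.le, hDdef]
      push_cast
      ring
    have e2 : (((n - ℓ * ℓ : ℕ)) : ℝ) = M := by
      rw [Nat.cast_sub (hℓF.le.trans hFn), hMdef]
      push_cast
      ring
    have e3 : ((Nat.card {x : Fin k → Alt n // ¬ FewFixK n ℓ F
      (fun i => (x i : Equiv.Perm (Fin n)))} * (F - ℓ * ℓ) ^ ℓ * (n - ℓ * ℓ) ^ (ℓ * ℓ) : ℕ) : ℝ) ≤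
      (((2 * k + 1) ^ ℓ * 2 ^ k * Fintype.card (Alt n) ^ k * (ℓ * ℓ ^ 2) ^ ℓ * n ^ (ℓ * ℓ) : ℕ) : ℝ) := by
      exact_mod_cast hE
    rw [Nat.cast_mul, Nat.cast_mul, Nat.cast_pow, Nat.cast_pow, e1, e2] at e3
    refine e3.trans (le_of_eq ?_)
    push_cast
    ring
  set N : ℝ := (Nat.card {x : Fin k → Alt n // ¬ FewFixK n ℓ F
      (fun i => (x i : Equiv.Perm (Fin n)))} : ℝ) with hNdef
  have hN0 : 0 ≤ N := by rw [hNdef]; positivity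
  have hM0 : 0 < M := by linarith
  have hDM : 0 < D ^ ℓ * M ^ (ℓ * ℓ) := by positivity
  have hfin : N * (n : ℝ) ^ 1 * (D ^ ℓ * M ^ (ℓ * ℓ)) ≤
      (Fintype.card (Alt n) : ℝ) ^ k * (D ^ ℓ * M ^ (ℓ * ℓ)) := by
    calc N * (n : ℝ) ^ 1 * (D ^ ℓ * M ^ (ℓ * ℓ)) = (N * D ^ ℓ * M ^ (ℓ * ℓ)) * (n : ℝ) ^ 1 := by ring
      _ ≤ ((2 * k + 1) ^ ℓ * 2 ^ k * (Fintype.card (Alt n) : ℝ) ^ k * ((ℓ : ℝ) ^ 3) ^ ℓ *
            (n : ℝ) ^ (ℓ * ℓ)) * (n : ℝ) ^ 1 := by gcongr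
      _ = (Fintype.card (Alt n) : ℝ) ^ k * ((2 * k + 1) ^ ℓ * 2 ^ k * ((ℓ : ℝ) ^ 3) ^ ℓ *
            (n : ℝ) ^ (ℓ * ℓ) * (n : ℝ) ^ 1) := by ring
      _ ≤ (Fintype.card (Alt n) : ℝ) ^ k * (D ^ ℓ * M ^ (ℓ * ℓ)) := by gcongr
  have hfin2 : N * (n : ℝ) ^ 1 ≤ (Fintype.card (Alt n) : ℝ) ^ k := le_of_mul_le_mul_right hfin hDM
  rw [pow_one] at hfin2
  have hen : 1 ≤ e * n := by
    rw [div_le_iff₀ he] at h6
    linarith
  calc N ≤ N * (e * n) := le_mul_of_one_le_right hN0 hen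
    _ = e * (N * n) := by ring
    _ ≤ e * (Fintype.card (Alt n) : ℝ) ^ k := mul_le_mul_of_nonneg_left hfin2 he.le

end R3516
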