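import Pool.Agent.U516.R3.SpecQ

/-!
Project R3, package NUQ (helper979): the sum over the levels is small, `q` amplifying elements.
-/

namespace R3516
open RC14 RD516 Finset Filter Topology
open Pool.Agent.R236.Den

theorem NUQ_ceil_le (n : ℕ) (φ : ℝ) (hn : 1 ≤ n) (hφ : 0 ≤ φ) :
    (⌈(n : ℝ) ^ φ⌉₊ : ℝ) ≤ 2 * (n : ℝ) ^ φ := by
  have h1 : (1 : ℝ) ≤ (n : ℝ) ^ φ := Real.one_le_rpow (by exact_mod_cast hn) hφ
  have h2 := (Nat.ceil_lt_add_one (by linarith : (0 : ℝ) ≤ (n : ℝ) ^ φ)).le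
  linarith

theorem NUQ_bb_le (n j : ℕ) (κ β φ : ℝ) (hn : 1 ≤ n) (hj : (j : ℝ) ≤ (n : ℝ) ^ κ) (hj2 : 2 * j ≤ n)
    (hφ : 0 ≤ φ) (h1 : κ - 1 / 2 ≤ β) (h2 : φ - 1 ≤ β) :
    bb j j n ⌈(n : ℝ) ^ φ⌉₊ ≤ 10 * (n : ℝ) ^ β := by
  have hn' : (1 : ℝ) ≤ n := by exact_mod_cast hn
  have hn0 : (0 : ℝ) < n := by linarith
  have hnj : ((n - j : ℕ) : ℝ) = n - j := by
    rw [Nat.cast_sub (by omega)]
  have hhalf : (n : ℝ) / 2 ≤ ((n - j : ℕ) : ℝ) := by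
    rw [hnj]
    have : (2 : ℝ) * j ≤ n := by exact_mod_cast hj2
    linarith
  have hpos : (0 : ℝ) < (n : ℝ) / 2 := by positivity
  have hpos2 : (0 : ℝ) < ((n - j : ℕ) : ℝ) := hpos.trans_le hhalf
  have hmono : ∀ a : ℝ, a ≤ β → (n : ℝ) ^ a ≤ (n : ℝ) ^ β := fun a ha =>
    Real.rpow_le_rpow_of_exponent_le hn' ha
  unfold bb
  have e1 : 2 * (j : ℝ) / ((n - j : ℕ) : ℝ) ≤ 4 * (n : ℝ) ^ β := by
    rw [div_le_iff₀ hpos2]
    have e : (n : ℝ) ^ κ = (n : ℝ) ^ (κ - 1) * n := by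
      rw [Real.rpow_sub_one hn0.ne']; field_simp
    have h3 := hmono (κ - 1) (by linarith)
    have h4 : (0 : ℝ) ≤ (n : ℝ) ^ β := by positivity
    calc 2 * (j : ℝ) ≤ 2 * ((n : ℝ) ^ (κ - 1) * n) := by rw [← e]; linarith
      _ ≤ 2 * ((n : ℝ) ^ β * n) := by gcongr
      _ = 4 * (n : ℝ) ^ β * (n / 2) := by ring
      _ ≤ 4 * (n : ℝ) ^ β * ((n - j : ℕ) : ℝ) := by gcongr
  have e2 : (⌈(n : ℝ) ^ φ⌉₊ : ℝ) / ((n - j : ℕ) : ℝ) ≤ 4 * (n : ℝ) ^ β := by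
    rw [div_le_iff₀ hpos2]
    have e : (n : ℝ) ^ φ = (n : ℝ) ^ (φ - 1) * n := by
      rw [Real.rpow_sub_one hn0.ne']; field_simp
    have h3 := hmono (φ - 1) (by linarith)
    calc (⌈(n : ℝ) ^ φ⌉₊ : ℝ) ≤ 2 * ((n : ℝ) ^ (φ - 1) * n) := by
          rw [← e]; exact NUQ_ceil_le n φ hn hφ
      _ ≤ 2 * ((n : ℝ) ^ β * n) := by gcongr
      _ = 4 * (n : ℝ) ^ β * (n / 2) := by ring
      _ ≤ 4 * (n : ℝ) ^ β * ((n - j : ℕ) : ℝ) := by gcongr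
  have e3 : (j : ℝ) / Real.sqrt ((n - j : ℕ) : ℝ) ≤ 2 * (n : ℝ) ^ β := by
    have hs : Real.sqrt n / 2 ≤ Real.sqrt ((n - j : ℕ) : ℝ) := by
      apply Real.le_sqrt_of_sq_le
      rw [div_pow, Real.sq_sqrt hn0.le]
      linarith
    have hs0 : 0 < Real.sqrt n / 2 := by positivity
    rw [div_le_iff₀ (hs0.trans_le hs)]
    have e : (n : ℝ) ^ κ = (n : ℝ) ^ (κ - 1 / 2) * Real.sqrt n := by
      rw [Real.sqrt_eq_rpow, ← Real.rpow_add hn0]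
      congr 1; ring
    have h3 := hmono (κ - 1 / 2) h1
    calc (j : ℝ) ≤ (n : ℝ) ^ (κ - 1 / 2) * Real.sqrt n := by rw [← e]; exact hj
      _ ≤ (n : ℝ) ^ β * Real.sqrt n := by gcongr
      _ = 2 * (n : ℝ) ^ β * (Real.sqrt n / 2) := by ring
      _ ≤ 2 * (n : ℝ) ^ β * Real.sqrt ((n - j : ℕ) : ℝ) := by gcongr
  linarith

/-- `(3/4)^⌈4 log n⌉ ≤ 1/n` -/
theorem NUQ_cj_le (n : ℕ) (hn : 1 ≤ n) (j : ℕ) :
    (Real.sqrt 3 / 2) ^ (2 * (j * ⌈4 * Real.log n⌉₊)) ≤ (1 / (n : ℝ)) ^ j := by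
  have hn0 : (0 : ℝ) < n := by exact_mod_cast hn
  have e : (Real.sqrt 3 / 2) ^ (2 * (j * ⌈4 * Real.log n⌉₊)) =
      (((3 : ℝ) / 4) ^ ⌈4 * Real.log n⌉₊) ^ j := by
    rw [pow_mul, div_pow, Real.sq_sqrt (by norm_num), ← pow_mul, mul_comm j]
    norm_num
  rw [e]
  gcongr
  have h1 : ((3 : ℝ) / 4) ^ ⌈4 * Real.log n⌉₊ = Real.exp (Real.log (3 / 4) * ⌈4 * Real.log n⌉₊) := by
    rw [Real.exp_mul, Real.exp_log (by norm_num), Real.rpow_natCast]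
  rw [h1, one_div, ← Real.exp_log (inv_pos.mpr hn0), Real.exp_le_exp, Real.log_inv]
  have h2 : Real.log (3 / 4) ≤ -(1 / 4) := by
    have := Real.log_le_sub_one_of_pos (by norm_num : (0 : ℝ) < 3 / 4)
    linarith
  have h3 : 4 * Real.log n ≤ ⌈4 * Real.log n⌉₊ := Nat.le_ceil _
  have h4 : 0 ≤ Real.log n := Real.log_nonneg (by exact_mod_cast hn)
  nlinarith


theorem NUQ_theta_le (n j q : ℕ) (d : ℝ) (hd : 0 < d) (hn : 1 ≤ Real.log n) :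
    (1 / Real.exp (-(d / (40 * (q + 1))))) ^ (2 * (j * ⌈4 * Real.log n⌉₊) * (q + 1)) ≤
      ((n : ℝ) ^ d) ^ j := by
  have hn0 : (0 : ℝ) < n := by
    rcases Nat.eq_zero_or_pos n with h | h
    · rw [h] at hn; simp at hn; linarith
    · exact_mod_cast h
  have hq : (0 : ℝ) < (q : ℝ) + 1 := by positivity
  have e1 : 1 / Real.exp (-(d / (40 * (q + 1)))) = Real.exp (d / (40 * (q + 1))) := by
    rw [one_div, ← Real.exp_neg, neg_neg]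
  have e2 : ((n : ℝ) ^ d) ^ j = Real.exp (j * (d * Real.log n)) := by
    rw [Real.rpow_def_of_pos hn0, ← Real.exp_nat_mul]
    congr 1; ring
  rw [e1, e2, ← Real.exp_nat_mul, Real.exp_le_exp]
  have hm : (⌈4 * Real.log n⌉₊ : ℝ) ≤ 5 * Real.log n := by
    have := (Nat.ceil_lt_add_one (by linarith : (0 : ℝ) ≤ 4 * Real.log n)).le
    linarith
  have hm0 : (0 : ℝ) ≤ (⌈4 * Real.log n⌉₊ : ℝ) := by positivity
  push_cast
  have e3 : 2 * ((j : ℝ) * (⌈4 * Real.log n⌉₊ : ℝ)) * ((q : ℝ) + 1) * (d / (40 * ((q : ℝ) + 1))) =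
      j * (d * ((⌈4 * Real.log n⌉₊ : ℝ) / 20)) := by
    field_simp
    ring
  rw [e3]
  have hj : (0 : ℝ) ≤ (j : ℝ) := by positivity
  gcongr
  linarith

/-- the bound for one level -/
theorem NUQ_term_le (n j q : ℕ) (κ β φ d : ℝ) (hn : 1 ≤ Real.log n) (hj1 : 1 ≤ j)
    (hj : (j : ℝ) ≤ (n : ℝ) ^ κ) (hj2 : 2 * j ≤ n)
    (hφ : 0 ≤ φ) (h1 : κ - 1 / 2 ≤ β) (h2 : φ - 1 ≤ β) (h3 : 0 < κ) (hd : 0 < d) :
    Real.exp (3 * Real.sqrt j) *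
        (4 * (1 / Real.exp (-(d / (40 * (q + 1))))) ^ (2 * (j * ⌈4 * Real.log n⌉₊) * (q + 1)) *
          ((Real.sqrt 3 / 2) ^ (2 * (j * ⌈4 * Real.log n⌉₊)) +
            bb j j n ⌈(n : ℝ) ^ φ⌉₊ ^ j) ^ q *
          ((Real.sqrt 3 / 2) ^ (2 * (j * ⌈4 * Real.log n⌉₊)) * (n : ℝ) ^ j +
            (⌈(n : ℝ) ^ φ⌉₊ : ℝ) ^ j)) ≤
      (16 * Real.exp 3 * 20 ^ q * (n : ℝ) ^ (d + q * β + φ)) ^ j := by
  have hn1 : 1 ≤ n := by omega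
  have hn' : (1 : ℝ) ≤ n := by exact_mod_cast hn1
  have hn0 : (0 : ℝ) < n := by linarith
  have a1 : Real.exp (3 * Real.sqrt j) ≤ (Real.exp 3) ^ j := by
    rw [← Real.exp_nat_mul, Real.exp_le_exp]
    have hj' : (1 : ℝ) ≤ j := by exact_mod_cast hj1
    have : Real.sqrt j ≤ j := by
      rw [Real.sqrt_le_left (by linarith)]
      nlinarith
    linarith
  have a2 : (4 : ℝ) ≤ 4 ^ j := by
    calc (4 : ℝ) = 4 ^ 1 := by norm_num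
      _ ≤ 4 ^ j := pow_le_pow_right₀ (by norm_num) hj1
  have a3 := NUQ_theta_le n j q d hd hn
  have a4 := NUQ_cj_le n hn1 j
  have hbb0 : 0 ≤ bb j j n ⌈(n : ℝ) ^ φ⌉₊ := by unfold bb; positivity
  have a5 : bb j j n ⌈(n : ℝ) ^ φ⌉₊ ^ j ≤ (10 * (n : ℝ) ^ β) ^ j := by
    have := NUQ_bb_le n j κ β φ hn1 hj hj2 hφ h1 h2
    gcongr
  have a6 : (1 / (n : ℝ)) ^ j ≤ (10 * (n : ℝ) ^ β) ^ j := by
    have e : 1 / (n : ℝ) = (n : ℝ) ^ (-1 : ℝ) := by rw [Real.rpow_neg_one, one_div]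
    have : 1 / (n : ℝ) ≤ 10 * (n : ℝ) ^ β := by
      rw [e]
      have h4 : (n : ℝ) ^ (-1 : ℝ) ≤ (n : ℝ) ^ β :=
        Real.rpow_le_rpow_of_exponent_le hn' (by linarith)
      have h5 : (0 : ℝ) ≤ (n : ℝ) ^ β := by positivity
      linarith
    gcongr
  have a7 : ((Real.sqrt 3 / 2) ^ (2 * (j * ⌈4 * Real.log n⌉₊)) +
      bb j j n ⌈(n : ℝ) ^ φ⌉₊ ^ j) ^ q ≤ ((20 ^ q) * (n : ℝ) ^ (q * β)) ^ j := by
    have b1 : (Real.sqrt 3 / 2) ^ (2 * (j * ⌈4 * Real.log n⌉₊)) +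
      bb j j n ⌈(n : ℝ) ^ φ⌉₊ ^ j ≤ (20 * (n : ℝ) ^ β) ^ j := by
      calc _ ≤ (10 * (n : ℝ) ^ β) ^ j + (10 * (n : ℝ) ^ β) ^ j := add_le_add (a4.trans a6) a5
        _ = 2 * (10 * (n : ℝ) ^ β) ^ j := by ring
        _ ≤ 2 ^ j * (10 * (n : ℝ) ^ β) ^ j := by
            have : (2 : ℝ) ≤ 2 ^ j := by
              calc (2 : ℝ) = 2 ^ 1 := by norm_num
                _ ≤ 2 ^ j := pow_le_pow_right₀ (by norm_num) hj1
            gcongr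
        _ = (20 * (n : ℝ) ^ β) ^ j := by rw [← mul_pow]; ring_nf
    have e : ((20 ^ q) * (n : ℝ) ^ (q * β)) ^ j = ((20 * (n : ℝ) ^ β) ^ j) ^ q := by
      rw [mul_comm (q : ℝ) β, Real.rpow_mul_natCast hn0.le, ← mul_pow, ← pow_mul, ← pow_mul,
        mul_comm q j]
    rw [e]
    gcongr
  have a8 : (Real.sqrt 3 / 2) ^ (2 * (j * ⌈4 * Real.log n⌉₊)) * (n : ℝ) ^ j +
      (⌈(n : ℝ) ^ φ⌉₊ : ℝ) ^ j ≤ (4 * (n : ℝ) ^ φ) ^ j := by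
    have b1 : (Real.sqrt 3 / 2) ^ (2 * (j * ⌈4 * Real.log n⌉₊)) * (n : ℝ) ^ j ≤ 1 := by
      calc _ ≤ (1 / (n : ℝ)) ^ j * (n : ℝ) ^ j := by gcongr
        _ = 1 := by rw [← mul_pow, one_div, inv_mul_cancel₀ hn0.ne', one_pow]
    have b2 : (⌈(n : ℝ) ^ φ⌉₊ : ℝ) ^ j ≤ (2 * (n : ℝ) ^ φ) ^ j := by
      have := NUQ_ceil_le n φ hn1 hφ
      gcongr
    have b3 : (1 : ℝ) ≤ (2 * (n : ℝ) ^ φ) ^ j := by
      apply one_le_pow₀
      have : (1 : ℝ) ≤ (n : ℝ) ^ φ := Real.one_le_rpow hn' hφ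
      linarith
    calc _ ≤ (2 * (n : ℝ) ^ φ) ^ j + (2 * (n : ℝ) ^ φ) ^ j := add_le_add (b1.trans b3) b2
      _ = 2 * (2 * (n : ℝ) ^ φ) ^ j := by ring
      _ ≤ 2 ^ j * (2 * (n : ℝ) ^ φ) ^ j := by
          have : (2 : ℝ) ≤ 2 ^ j := by
            calc (2 : ℝ) = 2 ^ 1 := by norm_num
              _ ≤ 2 ^ j := pow_le_pow_right₀ (by norm_num) hj1
          gcongr
      _ = (4 * (n : ℝ) ^ φ) ^ j := by rw [← mul_pow]; ring_nf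
  calc _ ≤ (Real.exp 3) ^ j * (4 ^ j * ((n : ℝ) ^ d) ^ j * ((20 ^ q) * (n : ℝ) ^ (q * β)) ^ j *
        (4 * (n : ℝ) ^ φ) ^ j) := by gcongr
    _ = (16 * Real.exp 3 * 20 ^ q * (n : ℝ) ^ (d + q * β + φ)) ^ j := by
        rw [Real.rpow_add hn0, Real.rpow_add hn0, ← mul_pow, ← mul_pow, ← mul_pow, ← mul_pow]
        congr 1
        ring

theorem NUQ_main (q : ℕ) (κ : ℝ) (hq : 1 ≤ q) (hκ : 0 < κ) (h1 : κ < q / (2 * (q + 3)))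
    (h2 : κ < q / (3 * (q + 1))) : ∃ θ α φ : ℝ, 0 < θ ∧ θ < 1 ∧ 0 < α ∧
    3 * α < φ ∧ φ ≤ 1 ∧ ∀ e : ℝ, 0 < e → ∀ᶠ n : ℕ in atTop,
      2 * ⌊(n : ℝ) ^ κ⌋₊ + 2 ≤ n ∧
      2 * (⌊(n : ℝ) ^ κ⌋₊ * ⌈4 * Real.log n⌉₊) ≤ ⌊(n : ℝ) ^ α⌋₊ ∧
      ∑ j ∈ Finset.Icc 1 ⌊(n : ℝ) ^ κ⌋₊, Real.exp (3 * Real.sqrt j) *
        (4 * (1 / θ) ^ (2 * (j * ⌈4 * Real.log n⌉₊) * (q + 1)) *
          ((Real.sqrt 3 / 2) ^ (2 * (j * ⌈4 * Real.log n⌉₊)) +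
            bb j j n ⌈(n : ℝ) ^ φ⌉₊ ^ j) ^ q *
          ((Real.sqrt 3 / 2) ^ (2 * (j * ⌈4 * Real.log n⌉₊)) * (n : ℝ) ^ j +
            (⌈(n : ℝ) ^ φ⌉₊ : ℝ) ^ j)) ≤ e := by
  have hq1 : (1 : ℝ) ≤ q := by exact_mod_cast hq
  rw [lt_div_iff₀ (by positivity)] at h1 h2
  obtain ⟨s, hs0, hs1, hs2, hs3⟩ : ∃ s : ℝ, 0 < s ∧ s ≤ 1 ∧ (q + 3) * κ + s ≤ q / 2 ∧
      3 * (q + 1) * κ + s ≤ q := by
    refine ⟨min 1 (min (q / 2 - (q + 3) * κ) (q - 3 * (q + 1) * κ)), ?_, min_le_left _ _, ?_, ?_⟩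
    · refine lt_min one_pos (lt_min ?_ ?_)
      · nlinarith
      · nlinarith
    · have := (min_le_right 1 (min (q / 2 - (q + 3) * κ) (q - 3 * (q + 1) * κ))).trans
        (min_le_left _ _)
      linarith
    · have := (min_le_right 1 (min (q / 2 - (q + 3) * κ) (q - 3 * (q + 1) * κ))).trans
        (min_le_right _ _)
      linarith
  set d : ℝ := s / (20 * (q + 1)) with hd
  have hq2 : (0 : ℝ) < q + 1 := by linarith
  have hd0 : 0 < d := by positivity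
  have hds : d * (20 * (q + 1)) = s := by rw [hd]; field_simp
  set φ : ℝ := 3 * κ + 4 * d with hφ
  set β : ℝ := max (κ - 1 / 2) (φ - 1) with hβ
  have hκ1 : 3 * κ + 4 * d ≤ 1 := by
    nlinarith
  have hexp : d + q * β + φ ≤ -d := by
    rw [hβ]
    rcases max_cases (κ - 1 / 2) (φ - 1) with h | h
    · rw [h.1, hφ]; nlinarith
    · rw [h.1, hφ]; nlinarith
  refine ⟨Real.exp (-(d / (40 * (q + 1)))), κ + d, φ, Real.exp_pos _, ?_, by positivity, ?_, hκ1,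
    ?_⟩
  · rw [Real.exp_lt_one_iff]
    have : 0 < d / (40 * (q + 1)) := by positivity
    linarith
  · rw [hφ]; linarith
  intro e he
  have hκ2 : κ < 1 := by linarith
  -- eventual facts
  have t1 : Tendsto (fun n : ℕ => (n : ℝ)) atTop atTop := tendsto_natCast_atTop_atTop
  have f1 : ∀ᶠ n : ℕ in atTop, 2 * (n : ℝ) ^ κ + 2 ≤ n := by
    have hneg : 0 < 1 - κ := by linarith
    have h := (tendsto_rpow_neg_atTop hneg).comp t1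
    have h' := h.eventually_le_const (by norm_num : (0 : ℝ) < 1 / 4)
    filter_upwards [h', eventually_ge_atTop 4] with n hn hn4
    have h4 : (4 : ℝ) ≤ n := by exact_mod_cast hn4
    have hn0 : (0 : ℝ) < n := by linarith
    simp only [Function.comp] at hn
    have e1 : (n : ℝ) ^ κ = (n : ℝ) ^ (-(1 - κ)) * n := by
      rw [show -(1 - κ) = κ - 1 by ring, Real.rpow_sub_one hn0.ne']
      field_simp
    rw [e1]
    nlinarith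
  have f2 : ∀ᶠ n : ℕ in atTop, 10 * Real.log n ≤ (n : ℝ) ^ d := by
    have h := (isLittleO_log_rpow_atTop hd0)
    have h' := (h.comp_tendsto t1).def (by norm_num : (0 : ℝ) < 1 / 10)
    filter_upwards [h', eventually_ge_atTop 1] with n hn hn4
    have h4 : (1 : ℝ) ≤ n := by exact_mod_cast hn4
    simp only [Function.comp] at hn
    rw [Real.norm_of_nonneg (Real.log_nonneg h4), Real.norm_of_nonneg (by positivity)] at hn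
    linarith
  have f3 : ∀ᶠ n : ℕ in atTop, 1 ≤ Real.log n :=
    (Real.tendsto_log_atTop.comp t1).eventually_ge_atTop 1
  have f4 : ∀ᶠ n : ℕ in atTop, 16 * Real.exp 3 * 20 ^ q * (n : ℝ) ^ (d + q * β + φ) ≤
      min (1 / 2) (e / 2) := by
    have hneg : 0 < -(d + q * β + φ) := by linarith
    have h := (tendsto_rpow_neg_atTop hneg).comp t1
    rw [neg_neg] at h
    have h5 := h.const_mul (16 * Real.exp 3 * 20 ^ q)
    rw [mul_zero] at h5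
    exact h5.eventually_le_const (by positivity)
  filter_upwards [f1, f2, f3, f4, eventually_ge_atTop 1] with n g1 g2 g3 g4 g5
  have hn' : (1 : ℝ) ≤ n := by exact_mod_cast g5
  have hn0 : (0 : ℝ) < n := by linarith
  have hfl : (⌊(n : ℝ) ^ κ⌋₊ : ℝ) ≤ (n : ℝ) ^ κ := Nat.floor_le (by positivity)
  have c1 : 2 * ⌊(n : ℝ) ^ κ⌋₊ + 2 ≤ n := by
    have : (2 : ℝ) * ⌊(n : ℝ) ^ κ⌋₊ + 2 ≤ n := by linarith
    exact_mod_cast this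
  refine ⟨c1, ?_, ?_⟩
  · apply Nat.le_floor
    push_cast
    have hm : (⌈4 * Real.log n⌉₊ : ℝ) ≤ 5 * Real.log n := by
      have := (Nat.ceil_lt_add_one (by linarith : (0 : ℝ) ≤ 4 * Real.log n)).le
      linarith
    rw [Real.rpow_add hn0]
    calc 2 * ((⌊(n : ℝ) ^ κ⌋₊ : ℝ) * (⌈4 * Real.log n⌉₊ : ℝ)) ≤
        2 * ((n : ℝ) ^ κ * (5 * Real.log n)) := by gcongr
      _ = (n : ℝ) ^ κ * (10 * Real.log n) := by ring
      _ ≤ (n : ℝ) ^ κ * (n : ℝ) ^ d := by gcongr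
  · set y : ℝ := 16 * Real.exp 3 * 20 ^ q * (n : ℝ) ^ (d + q * β + φ) with hy
    have hy0 : 0 ≤ y := by positivity
    have hy1 : y ≤ 1 / 2 := g4.trans (min_le_left _ _)
    have hy2 : y ≤ e / 2 := g4.trans (min_le_right _ _)
    have hterm : ∀ j ∈ Finset.Icc 1 ⌊(n : ℝ) ^ κ⌋₊, Real.exp (3 * Real.sqrt j) *
        (4 * (1 / Real.exp (-(d / (40 * (q + 1))))) ^ (2 * (j * ⌈4 * Real.log n⌉₊) * (q + 1)) *
          ((Real.sqrt 3 / 2) ^ (2 * (j * ⌈4 * Real.log n⌉₊)) +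
            bb j j n ⌈(n : ℝ) ^ φ⌉₊ ^ j) ^ q *
          ((Real.sqrt 3 / 2) ^ (2 * (j * ⌈4 * Real.log n⌉₊)) * (n : ℝ) ^ j +
            (⌈(n : ℝ) ^ φ⌉₊ : ℝ) ^ j)) ≤ y * (1 / 2) ^ (j - 1) := by
      intro j hj
      rw [Finset.mem_Icc] at hj
      have hjr : (j : ℝ) ≤ (n : ℝ) ^ κ := (by exact_mod_cast hj.2 : (j : ℝ) ≤ ⌊(n : ℝ) ^ κ⌋₊).trans hfl
      refine (NUQ_term_le n j q κ β φ d g3 hj.1 hjr (by omega) (by positivity) (le_max_left _ _)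
        (le_max_right _ _) hκ hd0).trans ?_
      rw [← hy]
      have e1 : y ^ j = y * y ^ (j - 1) := by
        rw [← pow_succ']
        congr 1
        omega
      rw [e1]
      gcongr
    refine (Finset.sum_le_sum hterm).trans ?_
    rw [← Finset.mul_sum]
    have hgeo : ∑ j ∈ Finset.Icc 1 ⌊(n : ℝ) ^ κ⌋₊, ((1 : ℝ) / 2) ^ (j - 1) ≤ 2 := by
      have : ∑ j ∈ Finset.Icc 1 ⌊(n : ℝ) ^ κ⌋₊, ((1 : ℝ) / 2) ^ (j - 1) =
          ∑ i ∈ Finset.range ⌊(n : ℝ) ^ κ⌋₊, ((1 : ℝ) / 2) ^ i := by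
        have e1 : Finset.Icc 1 ⌊(n : ℝ) ^ κ⌋₊ = Finset.Ico 1 (⌊(n : ℝ) ^ κ⌋₊ + 1) := by
          ext a
          simp
        rw [e1, Finset.sum_Ico_eq_sum_range]
        simp
      rw [this]
      exact (Summable.sum_le_tsum _ (fun i _ => by positivity) summable_geometric_two).trans
        (le_of_eq tsum_geometric_two)
    nlinarith


theorem t_NUQ : S_NUQ := fun q κ hq hκ h1 h2 => NUQ_main q κ hq hκ h1 h2

end R3516
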