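import Pool.Agent.U516.R3.Spec

set_option autoImplicit false

/-!
Project R3, package PR: a random pair of even permutations has few exceptional eigenvalues in every
nontrivial irreducible representation.
-/

namespace R3516
open RC14 RD516 Finset Filter Topology
open Pool.Agent.R236.Den Pool.Agent.R236.Exc
open scoped InnerProductSpace

noncomputable section

/-- the deterministic density bound -/
theorem dens_detP (n k : ℕ) (hk : 1 ≤ k) (ℓ N F J0 : ℕ) (x : Fin k → Alt n)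
    (hx : FewFixK n ℓ F (fun i => (x i : Equiv.Perm (Fin n))))
    (θ a b c : ℝ) (hθ : Real.sqrt (2 * k - 1) / k < θ) (ha : 0 < a)
    (hb : 0 < b) (hab : 8 * a * max 0 (Real.log (1 / θ)) ≤ b)
    (hc : 0 < c) (hc1 : c ≤ Real.log (θ / (Real.sqrt (2 * k - 1) / k)) * a) (hc2 : c ≤ b / 4)
    (h2 : 2 ≤ (n : ℝ) ^ c) (halg : 1 ≤ a * Real.log n)
    (hℓ : 4 * (a * J0 * Real.log n) ≤ ℓ)
    (hN : 100 ≤ N) (hNn : 2 * (12096 * N) ≤ n)
    (hn : 1000 ≤ n) (hF : 2 * F ≤ n) (hJ : 1 ≤ J0)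
    (hbb : ∀ j j1, N * j ≤ n → j1 ≤ J0 → bb j j1 n F ≤ (n : ℝ) ^ (-b))
    (hhigh : Real.exp (-(1 / (2 * 336 * 12096 * (N : ℝ) ^ 2) * n)) ≤ ((n : ℝ) ^ (-b)) ^ J0)
    {V : Type} [NormedAddCommGroup V] [InnerProductSpace ℂ V] [FiniteDimensional ℂ V]
    (ρ : Alt n →* (V ≃ₗᵢ[ℂ] V)) (hirr : Irr ρ ⊤) (hnt : ∃ g v, ρ g v ≠ v) :
    ((Finset.univ.filter fun i => θ ≤ |(PX_symm ρ x).eigenvalues rfl i|).card : ℝ) ≤
      (n : ℝ) ^ (-c) * Module.finrank ℂ V := by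
  have hk' : (1 : ℝ) ≤ k := by exact_mod_cast hk
  have hs0 : 0 < Real.sqrt (2 * k - 1) / k := by
    have : 0 < Real.sqrt (2 * k - 1) := Real.sqrt_pos.2 (by linarith)
    positivity
  have hθ0 : 0 < θ := hs0.trans hθ
  have hnr : (1000 : ℝ) ≤ n := by exact_mod_cast hn
  have hn0 : (0 : ℝ) < n := by linarith
  have hlg : 0 < Real.log n := Real.log_pos (by linarith)
  obtain ⟨j, hj1, hjJ, hdim, hch⟩ := char_det n N F J0 ((n : ℝ) ^ (-b)) (by positivity) hN hNn hn hF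
    hJ hbb hhigh ρ hirr hnt
  have hj' : (1 : ℝ) ≤ j := by exact_mod_cast hj1
  have hjJ' : (j : ℝ) ≤ J0 := by exact_mod_cast hjJ
  set L : ℕ := ⌈a * j * Real.log n⌉₊ with hL
  have hL1 : a * j * Real.log n ≤ L := Nat.le_ceil _
  have hp : 1 ≤ a * j * Real.log n := by nlinarith
  have hL2 : (L : ℝ) ≤ 2 * (a * j * Real.log n) := by
    have := Nat.ceil_lt_add_one (show 0 ≤ a * j * Real.log n by positivity)
    linarith
  have hLℓ : 2 * L ≤ ℓ := by
    have h3 : a * j * Real.log n ≤ a * J0 * Real.log n := by gcongr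
    have : ((2 * L : ℕ) : ℝ) ≤ ℓ := by
      push_cast
      linarith
    exact_mod_cast this
  have hd1 : 0 < Module.finrank ℂ V := by
    have : Nontrivial V := by
      obtain ⟨g, v, hv⟩ := hnt
      exact ⟨⟨_, _, hv⟩⟩
    exact Module.finrank_pos
  have hd0 : (0 : ℝ) < Module.finrank ℂ V := by exact_mod_cast hd1
  have htr := trace_le ρ hk x (2 * L) (((n : ℝ) ^ (-b)) ^ j) (by positivity) (by
    intro u hu hul
    have h1 := hx u hu (hul.trans hLℓ)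
    have e : ((FreeGroup.lift x u : Alt n) : Equiv.Perm (Fin n)) =
        FreeGroup.lift (fun i => (x i : Equiv.Perm (Fin n))) u := by
      have : (Subgroup.subtype (alternatingGroup (Fin n))).comp (FreeGroup.lift x) =
          FreeGroup.lift (fun i => (x i : Equiv.Perm (Fin n))) := by
        ext i
        simp
      exact DFunLike.congr_fun this u
    exact hch _ (by rw [e]; exact h1.le))
  have hcnt := count_le (PX ρ x) (PX_symm ρ x) θ hθ0 L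
  have hnum := num1 n j L (Real.sqrt (2 * k - 1) / k) θ a b c hs0 hθ hb hab hc hc1 hc2 (by omega)
    hj1 hL1 hL2 h2
  have hmain : ((Finset.univ.filter fun i => θ ≤ |(PX_symm ρ x).eigenvalues rfl i|).card : ℝ) ≤
      (n : ℝ) ^ (-(c * j)) * Module.finrank ℂ V := by
    refine hcnt.trans ?_
    calc _ ≤ (1 / θ) ^ (2 * L) * (((Real.sqrt (2 * k - 1) / k) ^ (2 * L) +
          ((n : ℝ) ^ (-b)) ^ j) * Module.finrank ℂ V) := by gcongr
      _ = ((1 / θ) ^ (2 * L) * ((Real.sqrt (2 * k - 1) / k) ^ (2 * L) +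
          ((n : ℝ) ^ (-b)) ^ j)) * Module.finrank ℂ V := by ring
      _ ≤ _ := by gcongr
  refine hmain.trans ?_
  refine mul_le_mul_of_nonneg_right ?_ hd0.le
  apply Real.rpow_le_rpow_of_exponent_le (by linarith)
  nlinarith

theorem dens_nP (n k : ℕ) (hk : 1 ≤ k) (δ δ' θ a b c : ℝ) (hδ'0 : 0 < δ') (hδ'1 : δ' ≤ 1 / 4)
    (hδ'2 : δ' ≤ δ) (hbdef : b = δ' / 4) (hθ : Real.sqrt (2 * k - 1) / k < θ) (ha : 0 < a)
    (hb : 0 < b) (hab : 8 * a * max 0 (Real.log (1 / θ)) ≤ b) (ha1 : 4 * a ≤ 1)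
    (hc : 0 < c) (hc1 : c ≤ Real.log (θ / (Real.sqrt (2 * k - 1) / k)) * a) (hc2 : c ≤ b / 4)
    (h1 : 2 ≤ (n : ℝ) ^ c) (h2 : 1 / a ≤ Real.log n) (h3 : 2 / c ≤ Real.log n)
    (h4 : 2 * (n : ℝ) ^ (1 / 3 - δ) * Real.log n ≤ (n : ℝ) ^ (1 / 3 - δ' / 2))
    (h5 : 2 ≤ (n : ℝ) ^ (1 / 3 - δ' / 2)) (h6 : 2 ≤ (n : ℝ) ^ (1 / 3 - δ))
    (h7 : 100 ≤ (n : ℝ) ^ (δ' / 2)) (h8 : 48384 * (n : ℝ) ^ (δ' / 2) ≤ (n : ℝ) ^ (1 : ℝ))
    (h9 : 4 * (n : ℝ) ^ (1 - δ' / 2) ≤ (n : ℝ) ^ (1 : ℝ))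
    (h10 : 10 * (n : ℝ) ^ (-(δ' / 2)) ≤ (n : ℝ) ^ (-(δ' / 2 / 2)))
    (h11 : 32514048 * (n : ℝ) ^ (1 / 3 - δ) * Real.log n ≤ (n : ℝ) ^ (1 - δ'))
    (h12 : 1000 ≤ n) (x : Fin k → Alt n)
    (hx : FewFixK n ⌊(n : ℝ) ^ (1 / 3 - δ' / 2)⌋₊ ⌈(n : ℝ) ^ (1 - δ' / 2)⌉₊
        (fun i => (x i : Equiv.Perm (Fin n))))
    {V : Type} [NormedAddCommGroup V] [InnerProductSpace ℂ V] [FiniteDimensional ℂ V]
    (ρ : Alt n →* (V ≃ₗᵢ[ℂ] V)) (hirr : Irr ρ ⊤) (hnt : ∃ g v, ρ g v ≠ v) :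
    ((Finset.univ.filter fun i => θ ≤ |(PX_symm ρ x).eigenvalues rfl i|).card : ℝ) ≤
      (n : ℝ) ^ (-c) * Module.finrank ℂ V := by
  rw [Real.rpow_one] at h8 h9
  have hnr : (1000 : ℝ) ≤ n := by exact_mod_cast h12
  have hn0 : (0 : ℝ) < n := by linarith only [hnr]
  have hlg : 0 < Real.log n := Real.log_pos (by linarith only [hnr])
  set s : ℝ := (n : ℝ) ^ (1 / 3 - δ) with hs
  set ℓ : ℕ := ⌊(n : ℝ) ^ (1 / 3 - δ' / 2)⌋₊ with hℓ
  set F : ℕ := ⌈(n : ℝ) ^ (1 - δ' / 2)⌉₊ with hF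
  set N : ℕ := ⌈(n : ℝ) ^ (δ' / 2)⌉₊ with hN
  set J0 : ℕ := ⌊s⌋₊ with hJ0
  have hJ1 : (J0 : ℝ) ≤ s := Nat.floor_le (by positivity)
  have hJ2 : s / 2 ≤ J0 := by
    have : s < J0 + 1 := Nat.lt_floor_add_one s
    linarith
  have hJ3 : 1 ≤ J0 := by
    have : (0 : ℝ) < J0 := by linarith
    exact_mod_cast this
  have hs3 : s ≤ (n : ℝ) ^ ((1 : ℝ) / 3) := by
    rw [hs]
    apply Real.rpow_le_rpow_of_exponent_le (by linarith)
    linarith
  have hN1 : (n : ℝ) ^ (δ' / 2) ≤ N := Nat.le_ceil _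
  have hN2 : (N : ℝ) ≤ 2 * (n : ℝ) ^ (δ' / 2) := by
    have : (N : ℝ) < (n : ℝ) ^ (δ' / 2) + 1 := Nat.ceil_lt_add_one (by positivity)
    linarith
  have hN100 : 100 ≤ N := by
    have : (100 : ℝ) ≤ N := h7.trans hN1
    exact_mod_cast this
  have hpF : 1 ≤ (n : ℝ) ^ (1 - δ' / 2) := Real.one_le_rpow (by linarith) (by linarith)
  have hF2 : (F : ℝ) ≤ 2 * (n : ℝ) ^ (1 - δ' / 2) := by
    have : (F : ℝ) < (n : ℝ) ^ (1 - δ' / 2) + 1 := Nat.ceil_lt_add_one (by positivity)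
    linarith
  refine dens_detP n k hk ℓ N F J0 x hx θ a b c hθ ha hb hab hc hc1 hc2 h1 ?_ ?_ hN100 ?_ h12 ?_ hJ3 ?_ ?_ ρ hirr hnt
  · rw [div_le_iff₀ ha] at h2
    linarith
  · have hℓ2 : (n : ℝ) ^ (1 / 3 - δ' / 2) / 2 ≤ ℓ := by
      have : (n : ℝ) ^ (1 / 3 - δ' / 2) < ℓ + 1 := Nat.lt_floor_add_one _
      linarith
    have h13 : 4 * (a * J0 * Real.log n) ≤ s * Real.log n := by
      have : (4 * a) * (J0 * Real.log n) ≤ 1 * (s * Real.log n) := by gcongr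
      linarith
    linarith
  · have : ((2 * (12096 * N) : ℕ) : ℝ) ≤ n := by
      push_cast
      linarith
    exact_mod_cast this
  · have : ((2 * F : ℕ) : ℝ) ≤ n := by
      push_cast
      linarith
    exact_mod_cast this
  · intro j j1 hj hj1
    have := bb_le n N F J0 (δ' / 2) (by linarith) (by linarith) h12 hN100 hN1 hF2
      (hJ1.trans hs3) h10 j j1 hj hj1
    have e : b = δ' / 2 / 2 := by rw [hbdef]; ring
    rw [e]
    exact this
  · have e0 : ((n : ℝ) ^ (-b)) ^ J0 = Real.exp (-(b * (J0 * Real.log n))) := by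
      rw [← Real.rpow_natCast, ← Real.rpow_mul hn0.le, Real.rpow_def_of_pos hn0]
      congr 1
      ring
    rw [e0]
    apply Real.exp_le_exp.mpr
    have hNpos : (0 : ℝ) < N := by
      have : (100 : ℝ) ≤ N := by exact_mod_cast hN100
      linarith
    have hNsq : (N : ℝ) ^ 2 ≤ 4 * (n : ℝ) ^ δ' := by
      have e : (n : ℝ) ^ δ' = ((n : ℝ) ^ (δ' / 2)) ^ 2 := by
        rw [← Real.rpow_natCast, ← Real.rpow_mul hn0.le]
        congr 1
        push_cast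
        ring
      rw [e]
      have := pow_le_pow_left₀ hNpos.le hN2 2
      linarith
    have e2 : (n : ℝ) = (n : ℝ) ^ (1 - δ') * (n : ℝ) ^ δ' := by
      rw [← Real.rpow_add hn0]
      norm_num
    have hP : 0 < (n : ℝ) ^ (1 - δ') := by positivity
    have h13 : b * (J0 * Real.log n) ≤ (n : ℝ) ^ (1 - δ') / 32514048 := by
      rw [le_div_iff₀ (by norm_num)]
      have h14 : b * (J0 * Real.log n) ≤ 1 * (s * Real.log n) := by
        have : b ≤ 1 := by linarith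
        gcongr
      linarith
    have h15 : (n : ℝ) ^ (1 - δ') / 32514048 ≤
        1 / (2 * 336 * 12096 * (N : ℝ) ^ 2) * n := by
      rw [div_mul_eq_mul_div, one_mul, div_le_div_iff₀ (by norm_num) (by positivity)]
      have h16 : (n : ℝ) ^ (1 - δ') * (2 * 336 * 12096 * (N : ℝ) ^ 2) ≤
          (n : ℝ) ^ (1 - δ') * (2 * 336 * 12096 * (4 * (n : ℝ) ^ δ')) := by gcongr
      refine h16.trans (le_of_eq ?_)
      conv_rhs => rw [e2]
      ring
    nlinarith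


theorem dens_evP (k : ℕ) (hk : 1 ≤ k) (ε δ : ℝ) (hε : 0 < ε) (hδ : 0 < δ) (hδ3 : δ < 1 / 3) :
    ∃ c : ℝ, 0 < c ∧ ∃ δ' : ℝ, 0 < δ' ∧ δ' ≤ 1 / 4 ∧ ∀ᶠ n : ℕ in atTop, ∀ x : Fin k → Alt n,
      FewFixK n ⌊(n : ℝ) ^ (1 / 3 - δ' / 2)⌋₊ ⌈(n : ℝ) ^ (1 - δ' / 2)⌉₊
        (fun i => (x i : Equiv.Perm (Fin n))) →
      ∀ (V : Type) [NormedAddCommGroup V] [InnerProductSpace ℂ V] [FiniteDimensional ℂ V]
        (ρ : Alt n →* (V ≃ₗᵢ[ℂ] V)), Irr ρ ⊤ → (∃ g v, ρ g v ≠ v) →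
        ((Finset.univ.filter fun i => Real.sqrt (2 * k - 1) / k + ε ≤
          |(PX_symm ρ x).eigenvalues rfl i|).card : ℝ) ≤
        (n : ℝ) ^ (-c) * Module.finrank ℂ V := by
  have hk' : (1 : ℝ) ≤ k := by exact_mod_cast hk
  set s0 : ℝ := Real.sqrt (2 * k - 1) / k with hs0def
  have hs0 : 0 < s0 := by
    have : 0 < Real.sqrt (2 * k - 1) := Real.sqrt_pos.2 (by linarith)
    positivity
  set θ : ℝ := s0 + ε with hθdef
  have hθ : s0 < θ := by linarith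
  set δ' : ℝ := min δ (1 / 4) with hδ'def
  have hδ'0 : 0 < δ' := lt_min hδ (by norm_num)
  have hδ'1 : δ' ≤ 1 / 4 := min_le_right _ _
  have hδ'2 : δ' ≤ δ := min_le_left _ _
  set b : ℝ := δ' / 4 with hbdef
  have hb : 0 < b := by positivity
  set Λ : ℝ := max 0 (Real.log (1 / θ)) with hΛ
  have hΛ0 : 0 ≤ Λ := le_max_left _ _
  set a : ℝ := b / (8 * (Λ + 1)) with hadef
  have ha : 0 < a := by positivity
  have hab : 8 * a * Λ ≤ b := by
    have : 8 * a * Λ = b * (Λ / (Λ + 1)) := by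
      rw [hadef]; field_simp
    rw [this]
    have h1 : Λ / (Λ + 1) ≤ 1 := by
      rw [div_le_one (by positivity)]
      linarith
    nlinarith
  have ha1 : 4 * a ≤ 1 := by
    have : a ≤ b / 8 := by
      rw [hadef]
      apply div_le_div_of_nonneg_left hb.le (by norm_num)
      linarith
    linarith
  set γ : ℝ := Real.log (θ / s0) with hγ
  have hγ0 : 0 < γ := Real.log_pos (by rw [lt_div_iff₀ hs0]; linarith)
  set c : ℝ := min (γ * a) (b / 4) with hcdef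
  have hc : 0 < c := lt_min (by positivity) (by positivity)
  refine ⟨c, hc, δ', hδ'0, hδ'1, ?_⟩
  filter_upwards [ev_const c 2 hc, ev_loggt (1 / a), ev_loggt (2 / c),
    ev_log (1 / 3 - δ) (1 / 3 - δ' / 2) 2 (by linarith),
    ev_const (1 / 3 - δ' / 2) 2 (by linarith), ev_const (1 / 3 - δ) 2 (by linarith),
    ev_const (δ' / 2) 100 (by linarith), ev_le (δ' / 2) 1 48384 (by linarith),
    ev_le (1 - δ' / 2) 1 4 (by linarith), ev_le (-(δ' / 2)) (-(δ' / 2 / 2)) 10 (by linarith),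
    ev_log (1 / 3 - δ) (1 - δ') 32514048 (by linarith), eventually_ge_atTop 1000]
    with n h1 h2 h3 h4 h5 h6 h7 h8 h9 h10 h11 h12
  intro x hx V _ _ _ ρ hirr hnt
  exact dens_nP n k hk δ δ' θ a b c hδ'0 hδ'1 hδ'2 rfl hθ ha hb hab ha1 hc (min_le_left _ _)
    (min_le_right _ _) h1 h2 h3 h4 h5 h6 h7 h8 h9 h10 h11 h12 x hx ρ hirr hnt


/-- from the number of eigenvalues to the dimension of the exceptional subspaces -/
theorem few_of_count {G : Type} [Group G] [Fintype G] {V : Type} [NormedAddCommGroup V]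
    [InnerProductSpace ℂ V] [FiniteDimensional ℂ V] (ρ : G →* (V ≃ₗᵢ[ℂ] V)) {k : ℕ}
    (x : Fin k → G) (ε η : ℝ)
    (h : ((Finset.univ.filter fun i => 1 - ε ≤ |(PX_symm ρ x).eigenvalues rfl i|).card : ℝ) ≤
      η * Module.finrank ℂ V) : Pool.Agent.R236.Exc.FewAbove ε η ρ x := by
  classical
  intro U hU
  set T := PX ρ x with hT
  have hTs : T.IsSymmetric := PX_symm ρ x
  set b := hTs.eigenvectorBasis rfl with hb
  set μ := hTs.eigenvalues rfl with hμ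
  have hw : ∀ v, wop ρ x v = T v := by
    intro v
    rw [hT]
    simp only [wop, PX, LinearMap.smul_apply, LinearMap.sum_apply, LinearMap.add_apply, op_apply]
  let π : U →ₗ[ℂ] ({i // 1 - ε ≤ μ i} → ℂ) :=
    LinearMap.pi fun i => (innerₛₗ ℂ (b i)).comp U.subtype
  have hπ : ∀ (u : U) i, π u i = ⟪b i, (u : V)⟫_ℂ := fun u i => rfl
  have hinj : Function.Injective π := by
    rw [← LinearMap.ker_eq_bot, LinearMap.ker_eq_bot']
    intro u hu
    have h1 : ∀ i, 1 - ε ≤ μ i → ⟪b i, (u : V)⟫_ℂ = 0 := fun i hi => by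
      have := congrFun hu ⟨i, hi⟩
      rw [hπ] at this
      exact this
    have h2 := hU u u.2
    rw [hw, quad_eigen T hTs rfl, ← (b.sum_sq_norm_inner_right (u : V)), Finset.mul_sum] at h2
    have h3 : ∑ i, ((1 - ε) - μ i) * ‖⟪b i, (u : V)⟫_ℂ‖ ^ 2 ≤ 0 := by
      simp only [sub_mul, Finset.sum_sub_distrib]
      simp only [sub_mul, Finset.sum_sub_distrib] at h2
      linarith
    have h4 : ∀ i ∈ (univ : Finset (Fin (Module.finrank ℂ V))),
        0 ≤ ((1 - ε) - μ i) * ‖⟪b i, (u : V)⟫_ℂ‖ ^ 2 := by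
      intro i _
      by_cases hi : 1 - ε ≤ μ i
      · rw [h1 i hi]
        simp
      · push Not at hi
        exact mul_nonneg (by linarith) (by positivity)
    have h5 := (Finset.sum_eq_zero_iff_of_nonneg h4).1 (le_antisymm h3 (Finset.sum_nonneg h4))
    have h6 : ∀ i, ⟪b i, (u : V)⟫_ℂ = 0 := by
      intro i
      by_cases hi : 1 - ε ≤ μ i
      · exact h1 i hi
      · push Not at hi
        have h7 := h5 i (Finset.mem_univ i)
        rcases mul_eq_zero.1 h7 with h8 | h8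
        · linarith
        · exact norm_eq_zero.1 (pow_eq_zero_iff two_ne_zero |>.1 h8)
    have h7 := b.sum_sq_norm_inner_right (u : V)
    simp only [h6, norm_zero] at h7
    have h8 : ‖(u : V)‖ = 0 := by
      have : ‖(u : V)‖ ^ 2 = 0 := by
        rw [← h7]
        simp
      exact pow_eq_zero_iff two_ne_zero |>.1 this
    exact Subtype.ext (norm_eq_zero.1 h8)
  have h1 := LinearMap.finrank_le_finrank_of_injective hinj
  rw [Module.finrank_fintype_fun_eq_card, Fintype.card_subtype] at h1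
  have h2 : #(univ.filter fun i => 1 - ε ≤ μ i) ≤ #(univ.filter fun i => 1 - ε ≤ |μ i|) := by
    refine Finset.card_le_card fun i hi => ?_
    rw [mem_filter] at hi ⊢
    exact ⟨hi.1, hi.2.trans (le_abs_self _)⟩
  have h3 : (Module.finrank ℂ U : ℝ) ≤ (#(univ.filter fun i => 1 - ε ≤ |μ i|) : ℝ) := by
    exact_mod_cast h1.trans h2
  exact h3.trans h

theorem t_PR : S_PR := by
  have hs3 : Real.sqrt (2 * (2 : ℕ) - 1) / (2 : ℕ) < 19 / 20 := by
    push_cast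
    have h1 : Real.sqrt (2 * 2 - 1) < 19 / 10 := by
      rw [Real.sqrt_lt' (by norm_num)]
      norm_num
    linarith
  obtain ⟨c, hc, δ', hδ'0, hδ'1, hev⟩ :=
    dens_evP 2 (by omega) (19 / 20 - Real.sqrt (2 * (2 : ℕ) - 1) / (2 : ℕ)) (1 / 6)
      (by linarith) (by norm_num) (by norm_num)
  refine ⟨1 / 20, by norm_num, by norm_num, c, hc, fun e he => ?_⟩
  have hE := EXPO3 (gk := 2) δ' hδ'0 hδ'1 1
  have hlim : ∀ᶠ n : ℕ in atTop, 1 / e ≤ (n : ℝ) ^ (1 : ℝ) := ev_const 1 _ (by norm_num)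
  filter_upwards [hE, hev, hlim, eventually_ge_atTop 1] with n h1 h2 h3 h4
  have hn : (0 : ℝ) < n := by exact_mod_cast h4
  rw [Real.rpow_one, div_le_iff₀ he] at h3
  have h5 := RC14.card_mono (fun y : Fin 2 → Alt n => ¬ IrrFew (1 / 20) ((n : ℝ) ^ (-c)) y)
    (fun y => ¬ FewFixK n ⌊(n : ℝ) ^ (1 / 3 - δ' / 2)⌋₊
      ⌈(n : ℝ) ^ (1 - δ' / 2)⌉₊ (fun i => (y i : Equiv.Perm (Fin n))))
    (fun y hy h => hy fun W _ _ _ ρ h6 h7 => by
      refine few_of_count ρ y (1 / 20) _ ?_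
      have h8 := h2 y h W ρ h6 h7
      rw [add_sub_cancel] at h8
      have h9 : (1 : ℝ) - 1 / 20 = 19 / 20 := by norm_num
      rw [h9]
      exact h8)
  rw [pow_one] at h1
  have h8 : (Nat.card {y : Fin 2 → Alt n // ¬ IrrFew (1 / 20) ((n : ℝ) ^ (-c)) y} : ℝ) * n ≤
      (Fintype.card (Alt n) : ℝ) ^ 2 := by
    refine le_trans ?_ h1
    gcongr
  have hA : (0 : ℝ) ≤ (Fintype.card (Alt n) : ℝ) ^ 2 := by positivity
  have hC : (0 : ℝ) ≤ (Nat.card {y : Fin 2 → Alt n //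
      ¬ IrrFew (1 / 20) ((n : ℝ) ^ (-c)) y} : ℝ) := Nat.cast_nonneg _
  nlinarith [mul_le_mul_of_nonneg_left h3 hC, mul_le_mul_of_nonneg_left h8 he.le]

end

end R3516
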