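import Pool.Agent.U516.R3.Spec

/-!
Project R3, package ST: a conjugation invariant set of positive density in `A_n` whose elements
have a power of support in `[n / 32, n / 8]` (by helper750).
-/

namespace R3516
namespace STpf
open Finset MulAction Function

/-- in a transitive action the number of `g` with `g • a = b` -/
lemma cnt_eq {G X : Type*} [Group G] [Fintype G] [Fintype X] [DecidableEq X]
    [MulAction G X] [IsPretransitive G X] (a b : X) :
    Fintype.card X * #{g : G | g • a = b} = Fintype.card G := by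
  have h1 : ∀ b', #{g : G | g • a = b'} = #{g : G | g • a = b} := by
    intro b'
    obtain ⟨h, hh⟩ := exists_smul_eq G b b'
    symm
    refine Finset.card_bij (fun g _ => h * g) ?_ ?_ ?_
    · intro g hg
      rw [mem_filter] at hg ⊢
      exact ⟨mem_univ _, by rw [mul_smul, hg.2, hh]⟩
    · intro g _ g' _ e
      exact mul_left_cancel e
    · intro g hg
      rw [mem_filter] at hg
      refine ⟨h⁻¹ * g, ?_, by simp⟩
      rw [mem_filter]
      exact ⟨mem_univ _, by rw [mul_smul, hg.2, ← hh, inv_smul_smul]⟩
  have h2 : #(univ : Finset G) = ∑ b' ∈ (univ : Finset X), #{g ∈ (univ : Finset G) | g • a = b'} :=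
    Finset.card_eq_sum_card_fiberwise (fun _ _ => mem_univ _)
  rw [← Finset.card_univ (α := G), h2, Finset.sum_congr rfl (fun b' _ => h1 b'), sum_const,
    smul_eq_mul, card_univ]

lemma cnt_pairs {G X : Type*} [Group G] [Fintype G] [Fintype X] [DecidableEq X]
    [MulAction G X] [IsPretransitive G X] [Nonempty X] (φ : X → X) :
    #{p : X × G | p.2 • p.1 = φ p.1} = Fintype.card G := by
  have h2 : #{p : X × G | p.2 • p.1 = φ p.1} = ∑ a : X, #{g : G | g • a = φ a} := by
    have h3 : #{p : X × G | p.2 • p.1 = φ p.1} = ∑ a ∈ (univ : Finset X),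
        #{p ∈ (univ.filter fun p : X × G => p.2 • p.1 = φ p.1) | p.1 = a} :=
      Finset.card_eq_sum_card_fiberwise (fun _ _ => mem_univ _)
    rw [h3]
    refine Finset.sum_congr rfl fun a _ => ?_
    refine Finset.card_bij (fun p _ => p.2) ?_ ?_ ?_
    · rintro ⟨b, g⟩ hp
      simp only [mem_filter, mem_univ, true_and] at hp ⊢
      obtain ⟨h4, rfl⟩ := hp
      exact h4
    · rintro ⟨b, g⟩ hp ⟨b', g'⟩ hp' e
      simp only [mem_filter, mem_univ, true_and] at hp hp' e
      rw [hp.2, hp'.2, e]
    · intro g hg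
      refine ⟨(a, g), ?_, rfl⟩
      simp only [mem_filter, mem_univ, true_and] at hg ⊢
      exact ⟨hg, trivial⟩
  have h4 : Fintype.card X * #{p : X × G | p.2 • p.1 = φ p.1} =
      Fintype.card X * Fintype.card G := by
    rw [h2, mul_sum, Finset.sum_congr rfl (fun a _ => cnt_eq a (φ a)), sum_const, smul_eq_mul,
      card_univ]
  exact Nat.eq_of_mul_eq_mul_left Fintype.card_pos h4

open scoped Fin.CommRing in
lemma iter_eq {α : Type*} {l : ℕ} [NeZero l] (g : α → α) (a : Fin l → α)
    (h : ∀ i, g (a i) = a (i + 1)) (k : ℕ) : g^[k] (a 0) = a (k : Fin l) := by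
  induction k with
  | zero => simp
  | succ k ih => rw [Function.iterate_succ_apply', ih, h]; push_cast; rfl

open scoped Fin.CommRing in
lemma minp_eq {α : Type*} {l : ℕ} [NeZero l] (g : α → α) (a : Fin l → α)
    (ha : Function.Injective a) (h : ∀ i, g (a i) = a (i + 1)) :
    minimalPeriod g (a 0) = l := by
  have h1 : ∀ k, minimalPeriod g (a 0) ∣ k ↔ l ∣ k := by
    intro k
    rw [← isPeriodicPt_iff_minimalPeriod_dvd, ← Fin.natCast_eq_zero (n := l)]
    unfold IsPeriodicPt IsFixedPt
    rw [iter_eq g a h]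
    exact ha.eq_iff
  exact Nat.dvd_antisymm ((h1 l).2 dvd_rfl) ((h1 _).1 dvd_rfl)

/-- number of elements with points of prescribed periods -/
lemma cnt_min {n l r : ℕ} (hl : 1 ≤ l) (hr : 1 ≤ r) (hlr : l + r ≤ n - 2) :
    Fintype.card (alternatingGroup (Fin n)) ≤
      #{p : alternatingGroup (Fin n) × Fin n × Fin n |
        (minimalPeriod (p.1 : Equiv.Perm (Fin n)) p.2.1,
          minimalPeriod (p.1 : Equiv.Perm (Fin n)) p.2.2) = (l, r)} := by
  classical
  have : NeZero l := ⟨by omega⟩
  have : NeZero r := ⟨by omega⟩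
  have i0 : IsMultiplyPretransitive (alternatingGroup (Fin n)) (Fin n) (n - 2) := by
    have := alternatingGroup.isMultiplyPretransitive (Fin n)
    rwa [Nat.card_fin] at this
  have i1 : IsMultiplyPretransitive (alternatingGroup (Fin n)) (Fin n) (l + r) :=
    isMultiplyPretransitive_of_le hlr (by rw [Nat.card_fin]; omega)
  have i2 : IsPretransitive (alternatingGroup (Fin n)) (Fin (l + r) ↪ Fin n) := i1
  have ne : Nonempty (Fin (l + r) ↪ Fin n) := ⟨Fin.castLEEmb (by omega)⟩
  let s : Equiv.Perm (Fin (l + r)) := finSumFinEquiv.symm.trans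
    ((Equiv.sumCongr (Equiv.addRight (1 : Fin l)) (Equiv.addRight (1 : Fin r))).trans
      finSumFinEquiv)
  have hs1 : ∀ i : Fin l, s (Fin.castAdd r i) = Fin.castAdd r (i + 1) := by
    intro i
    simp [s]
  have hs2 : ∀ i : Fin r, s (Fin.natAdd l i) = Fin.natAdd l (i + 1) := by
    intro i
    simp [s]
  let φ : (Fin (l + r) ↪ Fin n) → (Fin (l + r) ↪ Fin n) := fun a => s.toEmbedding.trans a
  have h1 := @cnt_pairs (alternatingGroup (Fin n)) (Fin (l + r) ↪ Fin n) _ _ _ _ _ i2 _ φ
  rw [← h1]
  have key : ∀ (a : Fin (l + r) ↪ Fin n) (g : alternatingGroup (Fin n)), g • a = φ a →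
      ∀ i, (g : Equiv.Perm (Fin n)) (a i) = a (s i) := by
    intro a g h i
    have := DFunLike.congr_fun h i
    exact this
  refine Finset.card_le_card_of_injOn
    (fun p => (p.2, p.1 (Fin.castAdd r 0), p.1 (Fin.natAdd l 0))) ?_ ?_
  · rintro ⟨a, g⟩ hp
    simp only [coe_filter, mem_univ, true_and, Set.mem_ofPred_eq] at hp ⊢
    have h2 := key a g hp
    rw [Prod.mk.injEq]
    constructor
    · refine minp_eq (⇑(g : Equiv.Perm (Fin n))) (fun i => a (Fin.castAdd r i)) ?_ ?_
      · exact a.injective.comp (Fin.castAdd_injective l r)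
      · intro i
        rw [h2, hs1]
    · refine minp_eq (⇑(g : Equiv.Perm (Fin n))) (fun i => a (Fin.natAdd l i)) ?_ ?_
      · exact a.injective.comp (Fin.natAdd_injective r l)
      · intro i
        rw [h2, hs2]
  · rintro ⟨a, g⟩ hp ⟨b, g'⟩ hq e
    simp only [coe_filter, mem_univ, true_and, Set.mem_ofPred_eq] at hp hq
    simp only [Prod.mk.injEq] at e
    obtain ⟨rfl, e1, e2⟩ := e
    have h2 := key a g hp
    have h3 := key b g hq
    have h4 : a = b := by
      ext i
      congr 1
      refine Fin.addCases (fun i => ?_) (fun i => ?_) i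
      · have h5 := iter_eq (⇑(g : Equiv.Perm (Fin n))) (fun i => a (Fin.castAdd r i))
          (fun i => by rw [h2, hs1]) i.val
        have h6 := iter_eq (⇑(g : Equiv.Perm (Fin n))) (fun i => b (Fin.castAdd r i))
          (fun i => by rw [h3, hs1]) i.val
        rw [Fin.cast_val_eq_self] at h5 h6
        rw [← h5, ← h6, e1]
      · have h5 := iter_eq (⇑(g : Equiv.Perm (Fin n))) (fun i => a (Fin.natAdd l i))
          (fun i => by rw [h2, hs2]) i.val
        have h6 := iter_eq (⇑(g : Equiv.Perm (Fin n))) (fun i => b (Fin.natAdd l i))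
          (fun i => by rw [h3, hs2]) i.val
        rw [Fin.cast_val_eq_self] at h5 h6
        rw [← h5, ← h6, e2]
    rw [h4]

/-- support of `g ^ l` -/
lemma supp_bounds {n l r : ℕ} (g : Equiv.Perm (Fin n)) (x y : Fin n)
    (hx : minimalPeriod g x = l) (hy : minimalPeriod g y = r) (hr : ¬ r ∣ l) :
    r ≤ #(g ^ l).support ∧ #(g ^ l).support + l ≤ n := by
  have it : ∀ (k : ℕ) (z : Fin n), (g ^ k) z = g^[k] z := by
    intro k z
    rw [Equiv.Perm.iterate_eq_pow]
  constructor
  · have h1 : (range r).card ≤ #(g ^ l).support := by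
      refine Finset.card_le_card_of_injOn (fun k => g^[k] y) ?_ ?_
      · intro k hk
        rw [mem_coe, Equiv.Perm.mem_support]
        intro h
        apply hr
        rw [← hy]
        rw [← isPeriodicPt_iff_minimalPeriod_dvd]
        have h2 : IsPeriodicPt g l (g^[k] y) := by
          unfold IsPeriodicPt IsFixedPt
          rw [← it]
          exact h
        have h3 : g^[k] (g^[l] y) = g^[k] y := by
          have h4 : g^[l] (g^[k] y) = g^[k] y := h2
          rw [← Function.iterate_add_apply, Nat.add_comm k l, Function.iterate_add_apply]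
          exact h4
        exact (g.injective.iterate k) h3
      · intro a ha b hb e
        rw [coe_range, Set.mem_Iio] at ha hb
        exact Function.iterate_injOn_Iio_minimalPeriod (f := g) (x := y)
          (by rw [hy]; exact ha) (by rw [hy]; exact hb) e
    rwa [card_range] at h1
  · have h1 : (range l).card ≤ #((g ^ l).support)ᶜ := by
      refine Finset.card_le_card_of_injOn (fun k => g^[k] x) ?_ ?_
      · intro k hk
        rw [mem_coe, mem_compl, Equiv.Perm.notMem_support, it]
        show g^[l] (g^[k] x) = g^[k] x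
        rw [← Function.iterate_add_apply, Nat.add_comm l k, Function.iterate_add_apply]
        congr 1
        rw [← hx]
        exact isPeriodicPt_minimalPeriod g x
      · intro a ha b hb e
        rw [coe_range, Set.mem_Iio] at ha hb
        exact Function.iterate_injOn_Iio_minimalPeriod (f := g) (x := x)
          (by rw [hx]; exact ha) (by rw [hx]; exact hb) e
    rw [card_range, card_compl, Fintype.card_fin] at h1
    have h2 : #(g ^ l).support ≤ n := by
      have := card_le_univ (g ^ l).support
      rwa [Fintype.card_fin] at this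
    omega

lemma cyc_comm {n : ℕ} (g h : alternatingGroup (Fin n)) :
    ((h * g : alternatingGroup (Fin n)) : Equiv.Perm (Fin n)) =
      (h : Equiv.Perm (Fin n)) * ((g * h : alternatingGroup (Fin n)) : Equiv.Perm (Fin n)) *
        (h : Equiv.Perm (Fin n))⁻¹ := by
  rw [Subgroup.coe_mul, Subgroup.coe_mul]
  group

lemma supp_pow_conj {n : ℕ} (g h : Equiv.Perm (Fin n)) (m : ℕ) :
    #((h * g * h⁻¹) ^ m).support = #(g ^ m).support := by
  rw [conj_pow, Equiv.Perm.card_support_conj]

/-- the main statement -/
theorem main : ∃ c : ℝ, 0 < c ∧ ∃ N : ℕ, ∀ n ≥ N, ∃ E : Finset (alternatingGroup (Fin n)),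
    (∀ g h : alternatingGroup (Fin n), g * h ∈ E ↔ h * g ∈ E) ∧
    c * Fintype.card (alternatingGroup (Fin n)) ≤ (#E : ℝ) ∧
    ∀ g ∈ E, ∃ m ≤ n, n ≤ 32 * #((g : Equiv.Perm (Fin n)) ^ m).support ∧
      8 * #((g : Equiv.Perm (Fin n)) ^ m).support ≤ n := by
  classical
  refine ⟨1 / 65536, by norm_num, 2000, fun n hn => ?_⟩
  refine ⟨univ.filter fun g : alternatingGroup (Fin n) =>
    ∃ m ≤ n, n ≤ 32 * #((g : Equiv.Perm (Fin n)) ^ m).support ∧
      8 * #((g : Equiv.Perm (Fin n)) ^ m).support ≤ n, ?_, ?_, ?_⟩
  · intro g h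
    simp only [mem_filter, mem_univ, true_and]
    rw [cyc_comm g h]
    simp only [supp_pow_conj]
  · set E := univ.filter fun g : alternatingGroup (Fin n) =>
      ∃ m ≤ n, n ≤ 32 * #((g : Equiv.Perm (Fin n)) ^ m).support ∧
        8 * #((g : Equiv.Perm (Fin n)) ^ m).support ≤ n with hE
    set q := n / 128 with hq
    have hq1 : 128 * q ≤ n := by omega
    have hq2 : n < 128 * q + 128 := by omega
    have hq3 : 15 ≤ q := by omega
    let I : Finset (ℕ × ℕ) := (range q ×ˢ range q).image fun p =>
      (2 * (56 * q + 56 + p.1) + 1, 2 * (2 * q + 2 + p.2))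
    have hI : #I = q * q := by
      rw [card_image_of_injective, card_product, card_range]
      rintro ⟨a, b⟩ ⟨a', b'⟩ e
      simp only [Prod.mk.injEq] at e ⊢
      omega
    let T : Finset (alternatingGroup (Fin n) × Fin n × Fin n) := univ.filter fun p =>
      (minimalPeriod (p.1 : Equiv.Perm (Fin n)) p.2.1,
        minimalPeriod (p.1 : Equiv.Perm (Fin n)) p.2.2) ∈ I
    have h1 : Fintype.card (alternatingGroup (Fin n)) * #I ≤ #T := by
      refine Finset.mul_card_image_le_card_of_maps_to (s := T) (t := I)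
        (f := fun p => (minimalPeriod (p.1 : Equiv.Perm (Fin n)) p.2.1,
          minimalPeriod (p.1 : Equiv.Perm (Fin n)) p.2.2)) ?_ _ ?_
      · intro p hp
        exact (mem_filter.1 hp).2
      · rintro ⟨l, r⟩ hlr
        have h2 := hlr
        rw [mem_image] at h2
        obtain ⟨⟨u, v⟩, huv, e⟩ := h2
        rw [mem_product, mem_range, mem_range] at huv
        simp only [Prod.mk.injEq] at e huv
        refine (cnt_min (n := n) (l := l) (r := r) (by omega) (by omega) (by omega)).trans ?_
        refine card_le_card ?_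
        intro p hp
        rw [mem_filter] at hp ⊢
        refine ⟨mem_filter.2 ⟨mem_univ _, ?_⟩, hp.2⟩
        rw [hp.2]
        exact hlr
    have h2 : T ⊆ E ×ˢ (univ : Finset (Fin n × Fin n)) := by
      intro p hp
      rw [mem_filter] at hp
      obtain ⟨-, hp⟩ := hp
      rw [mem_image] at hp
      obtain ⟨⟨u, v⟩, huv, e⟩ := hp
      rw [mem_product, mem_range, mem_range] at huv
      simp only [Prod.mk.injEq] at e huv
      have h3 := supp_bounds (p.1 : Equiv.Perm (Fin n)) p.2.1 p.2.2 e.1.symm e.2.symm (by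
        intro h
        have h4 : 2 ∣ 2 * (56 * q + 56 + u) + 1 := (Dvd.intro _ rfl).trans h
        omega)
      rw [mem_product]
      refine ⟨?_, mem_univ _⟩
      rw [hE, mem_filter]
      refine ⟨mem_univ _, 2 * (56 * q + 56 + u) + 1, by omega, by omega, by omega⟩
    have h3 := h1.trans (card_le_card h2)
    rw [hI, card_product, card_univ, Fintype.card_prod, Fintype.card_fin] at h3
    have h4 : n ≤ 256 * q := by omega
    have h5 : n * n * Fintype.card (alternatingGroup (Fin n)) ≤ n * n * (65536 * #E) := by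
      calc n * n * Fintype.card (alternatingGroup (Fin n))
          ≤ (256 * q) * (256 * q) * Fintype.card (alternatingGroup (Fin n)) :=
            Nat.mul_le_mul_right _ (Nat.mul_le_mul h4 h4)
        _ = 65536 * (Fintype.card (alternatingGroup (Fin n)) * (q * q)) := by ring
        _ ≤ 65536 * (#E * (n * n)) := Nat.mul_le_mul_left _ h3
        _ = n * n * (65536 * #E) := by ring
    have h6 := Nat.le_of_mul_le_mul_left h5 (by positivity)
    have h7 : (Fintype.card (alternatingGroup (Fin n)) : ℝ) ≤ 65536 * (#E : ℝ) := by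
      exact_mod_cast h6
    linarith
  · intro g hg
    exact (mem_filter.1 hg).2

end STpf

theorem t_ST : S_ST := STpf.main

end R3516
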