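import Pool.Agent.U516.R3.Spec

/-!
Project R3 (helper516), MP_75608d_al: package TR, two bounds for the trace of an even power of the
walk operator in an irreducible invariant subspace of `Lvl j n`.
-/

namespace R3516
open RC14 RD516 Finset Filter Topology
open Pool.Agent.R236.Den
open scoped InnerProductSpace

namespace TR408

section
variable {G : Type*} [Group G]
variable {V : Type*} [NormedAddCommGroup V] [InnerProductSpace ℂ V]

lemma PX_res (ρ : G →* (V ≃ₗᵢ[ℂ] V)) (W : Submodule ℂ V) (hW : Inv ρ W) {k : ℕ} (x : Fin k → G)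
    (w : W) : ((PX (res ρ W hW) x w : W) : V) = PX ρ x (w : V) := by
  simp only [PX, LinearMap.smul_apply, LinearMap.sum_apply, LinearMap.add_apply, op_apply]
  push_cast
  rfl

lemma PX_res_pow (ρ : G →* (V ≃ₗᵢ[ℂ] V)) (W : Submodule ℂ V) (hW : Inv ρ W) {k : ℕ}
    (x : Fin k → G) (m : ℕ) (w : W) :
    (((PX (res ρ W hW) x ^ m) w : W) : V) = (PX ρ x ^ m) (w : V) := by
  induction m generalizing w with
  | zero => simp
  | succ m ih =>
    rw [pow_succ, pow_succ, Module.End.mul_apply, Module.End.mul_apply, ih, PX_res]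

variable [FiniteDimensional ℂ V]

omit [FiniteDimensional ℂ V] in
lemma pow_symm (T : Module.End ℂ V) (hT : T.IsSymmetric) (L : ℕ) (v : V) :
    ⟪v, (T ^ (2 * L)) v⟫_ℂ = ((‖(T ^ L) v‖ ^ 2 : ℝ) : ℂ) := by
  have h1 : (T ^ L).IsSymmetric := hT.pow L
  rw [two_mul, pow_add, Module.End.mul_apply, ← h1 v ((T ^ L) v), inner_self_eq_norm_sq_to_K]
  push_cast
  rfl

omit [FiniteDimensional ℂ V] in
lemma rtr_eq {ι : Type*} [Fintype ι] (b : OrthonormalBasis ι ℂ V) (T : Module.End ℂ V)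
    (hT : T.IsSymmetric) (L : ℕ) : rtr (T ^ (2 * L)) = ∑ i, ‖(T ^ L) (b i)‖ ^ 2 := by
  rw [rtr, LinearMap.trace_eq_sum_inner _ b, Complex.re_sum]
  refine Finset.sum_congr rfl fun i _ => ?_
  rw [pow_symm T hT L (b i)]
  exact Complex.ofReal_re _

/-- the trace of an even power of the walk operator on an invariant subspace is at most the trace
on the whole space -/
theorem rtr_res_le (ρ : G →* (V ≃ₗᵢ[ℂ] V)) (W : Submodule ℂ V) (hW : Inv ρ W) {k : ℕ}
    (x : Fin k → G) (L : ℕ) :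
    rtr (PX (V := ↥W) (res ρ W hW) x ^ (2 * L)) ≤ rtr (PX ρ x ^ (2 * L)) := by
  classical
  set c := stdOrthonormalBasis ℂ W with hc
  have hco : Orthonormal ℂ (fun i => (c i : V)) := by
    have := c.orthonormal.comp_linearIsometry W.subtypeₗᵢ
    exact this
  have hinj : Function.Injective (fun i => (c i : V)) := hco.linearIndependent.injective
  obtain ⟨u, b, hvu, hb⟩ := Orthonormal.exists_orthonormalBasis_extension hco.toSubtypeRange
  rw [rtr_eq c _ (PX_symm _ x) L, rtr_eq b _ (PX_symm _ x) L]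
  have h1 : ∀ i, ‖(PX (V := ↥W) (res ρ W hW) x ^ L) (c i)‖ ^ 2 =
      ‖(PX ρ x ^ L) (c i : V)‖ ^ 2 := by
    intro i
    have h0 := PX_res_pow ρ W hW x L (c i)
    rw [← h0]
    rfl
  rw [Finset.sum_congr rfl fun i _ => h1 i]
  have h2 : ∑ i, ‖(PX ρ x ^ L) (b i)‖ ^ 2 = ∑ v ∈ u, ‖(PX ρ x ^ L) v‖ ^ 2 := by
    rw [hb]
    exact Finset.sum_coe_sort u (fun v => ‖(PX ρ x ^ L) v‖ ^ 2)
  rw [h2]
  have h3 : ∑ i, ‖(PX ρ x ^ L) (c i : V)‖ ^ 2 =
      ∑ v ∈ Finset.univ.image (fun i => (c i : V)), ‖(PX ρ x ^ L) v‖ ^ 2 := by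
    rw [Finset.sum_image fun i _ i' _ h => hinj h]
  rw [h3]
  refine Finset.sum_le_sum_of_subset_of_nonneg ?_ fun v _ _ => by positivity
  intro v hv
  obtain ⟨i, -, rfl⟩ := Finset.mem_image.1 hv
  exact_mod_cast hvu ⟨i, rfl⟩

/-- the trace method in an invariant subspace -/
theorem trace_sub (ρ : G →* (V ≃ₗᵢ[ℂ] V)) (W : Submodule ℂ V) (hW : Inv ρ W) {k : ℕ} (hk : 1 ≤ k)
    (x : Fin k → G) (t : ℕ) (β : ℝ) (hβ : 0 ≤ β)
    (h : ∀ u : FreeGroup (Fin k), u ≠ 1 → u.norm ≤ t →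
      ‖rchr ρ W hW (FreeGroup.lift x u)‖ ≤ β * Module.finrank ℂ W) :
    rtr (PX (V := ↥W) (res ρ W hW) x ^ t) ≤
      ((Real.sqrt (2 * k - 1) / k) ^ t + β) * Module.finrank ℂ W :=
  trace_le (res ρ W hW) hk x t β hβ h

/-- the second bound, abstract form -/
theorem trace_top (ρ : G →* (V ≃ₗᵢ[ℂ] V)) (W : Submodule ℂ V) (hW : Inv ρ W) {k : ℕ} (hk : 1 ≤ k)
    (x : Fin k → G) (L : ℕ) (B N : ℝ) (hB : 0 ≤ B) (hpos : 0 < Module.finrank ℂ V)
    (hN : (Module.finrank ℂ V : ℝ) ≤ N)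
    (h : ∀ u : FreeGroup (Fin k), u ≠ 1 → u.norm ≤ 2 * L → ‖chr ρ (FreeGroup.lift x u)‖ ≤ B) :
    rtr (PX (V := ↥W) (res ρ W hW) x ^ (2 * L)) ≤
      (Real.sqrt (2 * k - 1) / k) ^ (2 * L) * N + B := by
  have hk' : (1 : ℝ) ≤ k := by exact_mod_cast hk
  have hpos' : (0 : ℝ) < (Module.finrank ℂ V : ℝ) := by exact_mod_cast hpos
  refine (rtr_res_le ρ W hW x L).trans ?_
  have h1 := trace_le ρ hk x (2 * L) (B / Module.finrank ℂ V) (by positivity) (by
    intro u hu hul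
    rw [div_mul_cancel₀ _ hpos'.ne']
    exact h u hu hul)
  refine h1.trans ?_
  rw [add_mul, div_mul_cancel₀ _ hpos'.ne']
  gcongr

end

/-- the number of fixed tuples -/
lemma card_fixed (j n : ℕ) (g : Equiv.Perm (Fin n)) :
    #{a : Tup j n | mv g⁻¹ a = a} ≤ nfix g ^ j := by
  classical
  have h0 : #{a : Tup j n | mv g⁻¹ a = a} ≤
      Fintype.card (Fin j → {y : Fin n // g y = y}) := by
    rw [← Fintype.card_subtype]
    refine Fintype.card_le_of_injective (fun a l => ⟨a.1 l, ?_⟩) ?_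
    · have h1 := congrArg (fun b : Tup j n => b l) a.2
      have h2 : g⁻¹ (a.1 l) = a.1 l := h1
      exact (Equiv.Perm.inv_eq_iff_eq.1 h2).symm
    · intro a b hab
      apply Subtype.ext
      ext l
      have h1 := congrFun hab l
      exact congrArg (fun z : {y : Fin n // g y = y} => ((z : Fin n) : ℕ)) h1
  refine h0.trans ?_
  rw [Fintype.card_fun, Fintype.card_fin, Fintype.card_subtype]
  exact le_of_eq rfl

lemma norm_chr_le (j n : ℕ) (g : Alt n) :
    ‖chr (repA j n) g‖ ≤ (nfix (g : Equiv.Perm (Fin n)) : ℝ) ^ j := by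
  classical
  have h1 : chr (repA j n) g = ∑ a : Tup j n, if mv (g : Equiv.Perm (Fin n))⁻¹ a = a then (1 : ℂ)
      else 0 := by
    rw [chr, LinearMap.trace_eq_sum_inner _ (EuclideanSpace.basisFun (Tup j n) ℂ)]
    refine Finset.sum_congr rfl fun a _ => ?_
    rw [EuclideanSpace.basisFun_apply, EuclideanSpace.inner_single_left, op_apply, repA_apply,
      map_one, one_mul, PiLp.single_apply]
  rw [h1, Finset.sum_boole, Complex.norm_natCast]
  exact_mod_cast card_fixed j n _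

lemma nfix_le_of_few {n ℓ F k : ℕ} {x : Fin k → Alt n}
    (hx : FewFixK n ℓ F (fun i => (x i : Equiv.Perm (Fin n)))) (u : FreeGroup (Fin k)) (hu : u ≠ 1)
    (hul : u.norm ≤ ℓ) : nfix ((FreeGroup.lift x u : Alt n) : Equiv.Perm (Fin n)) ≤ F := by
  have h1 := hx u hu hul
  have e : ((FreeGroup.lift x u : Alt n) : Equiv.Perm (Fin n)) =
      FreeGroup.lift (fun i => (x i : Equiv.Perm (Fin n))) u := by
    have : (Subgroup.subtype (alternatingGroup (Fin n))).comp (FreeGroup.lift x) =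
        FreeGroup.lift (fun i => (x i : Equiv.Perm (Fin n))) := by
      ext i
      simp
    exact DFunLike.congr_fun this u
  rw [e]
  exact h1.le

end TR408

theorem TR408.first (n j ℓ F k L : ℕ) (x : Fin k → Alt n) (W : Submodule ℂ (V j n))
    (hW : Irr (repA j n) W) (hk : 1 ≤ k) (hj : 2 * j + 2 ≤ n) (hL : 2 * L ≤ ℓ)
    (hx : FewFixK n ℓ F (fun i => (x i : Equiv.Perm (Fin n)))) (hWL : W ≤ Lvl j n) :
    rtr (PX (V := ↥W) (res (repA j n) W hW.2.1) x ^ (2 * L)) ≤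
      ((Real.sqrt (2 * k - 1) / k) ^ (2 * L) + bb j j n F ^ j) * Module.finrank ℂ W := by
  refine TR408.trace_sub (repA j n) W hW.2.1 hk x (2 * L) (bb j j n F ^ j)
    (pow_nonneg (bb_nonneg j j n F) _) ?_
  intro u hu hul
  exact CHARB j j n F hj le_rfl W hW.2.1 hWL _ (TR408.nfix_le_of_few hx u hu (hul.trans hL))

theorem TR408.second (n j ℓ F k L : ℕ) (x : Fin k → Alt n) (W : Submodule ℂ (V j n))
    (hW : Irr (repA j n) W) (hk : 1 ≤ k) (hj : 2 * j + 2 ≤ n) (hL : 2 * L ≤ ℓ)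
    (hx : FewFixK n ℓ F (fun i => (x i : Equiv.Perm (Fin n)))) :
    rtr (PX (V := ↥W) (res (repA j n) W hW.2.1) x ^ (2 * L)) ≤
      (Real.sqrt (2 * k - 1) / k) ^ (2 * L) * (n : ℝ) ^ j + (F : ℝ) ^ j := by
  refine TR408.trace_top (repA j n) W hW.2.1 hk x L ((F : ℝ) ^ j) ((n : ℝ) ^ j) (by positivity)
    ?_ ?_ ?_
  · rw [finrank_V]
    exact card_Tup_pos (j := j) (n := n) (by omega)
  · rw [finrank_V]
    exact_mod_cast card_Tup_le j n
  · intro u hu hul
    refine (TR408.norm_chr_le j n _).trans ?_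
    have h2 := TR408.nfix_le_of_few hx u hu (hul.trans hL)
    gcongr

theorem t_TR : S_TR := fun n j ℓ F k L x W hW hk hj _ hL hx hWL =>
  ⟨TR408.first n j ℓ F k L x W hW hk hj hL hx hWL, TR408.second n j ℓ F k L x W hW hk hj hL hx⟩

end R3516
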