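import Pool.Agent.U516.R3.Spec

/-!
The gap on tuples for three random generators.
-/

namespace R3516
open RC14 RD516 Finset Filter Topology
open Pool.Agent.R236.Den

noncomputable section

/-- one level -/
theorem lvl (hAM : S_AM) (hTR : S_TR) {n j ℓ F k L : ℕ} (hk : 1 ≤ k) (hj2 : 2 * j + 2 ≤ n)
    (hj : 1 ≤ j) (hL : 2 * L ≤ ℓ) (x : Fin k → Alt n)
    (hx : FewFixK n ℓ F (fun i => (x i : Equiv.Perm (Fin n)))) (θ : ℝ) (hθ0 : 0 < θ)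
    (hθ1 : θ < 1) :
    (Nat.card {z : Alt n // ¬ ∀ v ∈ Lvl j n, (1 - θ) / 36 * ‖v‖ ^ 2 ≤
      En (repA j n) x v + ‖repA j n z v - v‖ ^ 2} : ℝ) ≤
      Real.exp (3 * Real.sqrt j) * (4 * (1 / θ) ^ (4 * L) *
        ((Real.sqrt (2 * k - 1) / k) ^ (2 * L) + bb j j n F ^ j) *
        ((Real.sqrt (2 * k - 1) / k) ^ (2 * L) * (n : ℝ) ^ j + (F : ℝ) ^ j) *
        Fintype.card (Alt n)) := by
  have hbb := bb_nonneg j j n F
  have hs0 : (0 : ℝ) ≤ Real.sqrt (2 * k - 1) / k := by positivity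
  set B : ℝ := 4 * (1 / θ) ^ (4 * L) *
        ((Real.sqrt (2 * k - 1) / k) ^ (2 * L) + bb j j n F ^ j) *
        ((Real.sqrt (2 * k - 1) / k) ^ (2 * L) * (n : ℝ) ^ j + (F : ℝ) ^ j) *
        Fintype.card (Alt n) with hB
  have hB0 : 0 ≤ B := by rw [hB]; positivity
  have h := UBG (repA j n) (Lvl j n) _ (TYPESLVL j n hj2) (Z := Alt n)
    (fun z v => En (repA j n) x v + ‖repA j n z v - v‖ ^ 2)
    (fun z => (IsEn.en (repA j n) x).add (IsEn.single (repA j n) z)) ((1 - θ) / 36) B hB0 ?_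
  · refine h.trans ?_
    exact mul_le_mul_of_nonneg_right (CONJS j) hB0
  · intro W hW hWL
    obtain ⟨t1, t2⟩ := hTR n j ℓ F k L x W hW hk hj2 hj hL hx hWL
    exact hAM (Alt n) (V j n) (repA j n) W hW k x θ _ _ L hk hθ0 hθ1 (by positivity) t1 t2

/-- all levels -/
theorem levels (hAM : S_AM) (hTR : S_TR) {n m ℓ F k L1 : ℕ} (hk : 1 ≤ k) (hm2 : 2 * m + 2 ≤ n)
    (hL : 2 * (m * L1) ≤ ℓ) (x : Fin k → Alt n)
    (hx : FewFixK n ℓ F (fun i => (x i : Equiv.Perm (Fin n)))) (θ : ℝ) (hθ0 : 0 < θ)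
    (hθ1 : θ < 1) :
    (Nat.card {z : Alt n // ¬ ∀ j ∈ Finset.Icc 1 m, ∀ v ∈ Lvl j n, (1 - θ) / 36 * ‖v‖ ^ 2 ≤
      En (repA j n) x v + ‖repA j n z v - v‖ ^ 2} : ℝ) ≤
      (∑ j ∈ Finset.Icc 1 m, Real.exp (3 * Real.sqrt j) * (4 * (1 / θ) ^ (4 * (j * L1)) *
        ((Real.sqrt (2 * k - 1) / k) ^ (2 * (j * L1)) + bb j j n F ^ j) *
        ((Real.sqrt (2 * k - 1) / k) ^ (2 * (j * L1)) * (n : ℝ) ^ j + (F : ℝ) ^ j))) *
        Fintype.card (Alt n) := by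
  have step : Nat.card {z : Alt n // ¬ ∀ j ∈ Finset.Icc 1 m, ∀ v ∈ Lvl j n,
      (1 - θ) / 36 * ‖v‖ ^ 2 ≤ En (repA j n) x v + ‖repA j n z v - v‖ ^ 2} ≤
      ∑ j ∈ Finset.Icc 1 m, Nat.card {z : Alt n // ¬ ∀ v ∈ Lvl j n,
      (1 - θ) / 36 * ‖v‖ ^ 2 ≤ En (repA j n) x v + ‖repA j n z v - v‖ ^ 2} := by
    apply card_union_fin
    intro z hz
    by_contra hcon
    push Not at hcon
    exact hz fun j hj => hcon j hj
  calc (Nat.card {z : Alt n // ¬ ∀ j ∈ Finset.Icc 1 m, ∀ v ∈ Lvl j n,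
      (1 - θ) / 36 * ‖v‖ ^ 2 ≤ En (repA j n) x v + ‖repA j n z v - v‖ ^ 2} : ℝ) ≤
      ∑ j ∈ Finset.Icc 1 m, (Nat.card {z : Alt n // ¬ ∀ v ∈ Lvl j n,
      (1 - θ) / 36 * ‖v‖ ^ 2 ≤ En (repA j n) x v + ‖repA j n z v - v‖ ^ 2} : ℝ) := by
        exact_mod_cast step
    _ ≤ ∑ j ∈ Finset.Icc 1 m, Real.exp (3 * Real.sqrt j) * (4 * (1 / θ) ^ (4 * (j * L1)) *
        ((Real.sqrt (2 * k - 1) / k) ^ (2 * (j * L1)) + bb j j n F ^ j) *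
        ((Real.sqrt (2 * k - 1) / k) ^ (2 * (j * L1)) * (n : ℝ) ^ j + (F : ℝ) ^ j) *
        Fintype.card (Alt n)) := by
        refine Finset.sum_le_sum fun j hj => ?_
        rw [Finset.mem_Icc] at hj
        exact lvl hAM hTR hk (by omega) hj.1 (le_trans (by gcongr; exact hj.2) hL) x hx θ hθ0 hθ1
    _ = _ := by
        rw [Finset.sum_mul]
        refine Finset.sum_congr rfl fun j _ => ?_
        ring

/-- the good event for the amplifying element -/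
def QZ (n m : ℕ) (c : ℝ) {k : ℕ} (z : Alt n) (y : Fin k → Alt n) : Prop :=
  ∀ j ∈ Finset.Icc 1 m, ∀ v ∈ Lvl j n, c * ‖v‖ ^ 2 ≤ En (repA j n) y v + ‖repA j n z v - v‖ ^ 2

lemma good_of_QZ {n m : ℕ} {c : ℝ} {k : ℕ} {x : Fin (k + 1) → Alt n}
    (h : QZ n m c (x 0) (Fin.tail x)) : Good1 n m c x := by
  intro j hj1 hj2 v hv
  have h4 := h j (Finset.mem_Icc.2 ⟨hj1, hj2⟩) v hv
  have h5 : En (repA j n) x v = ‖repA j n (x 0) v - v‖ ^ 2 +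
      En (repA j n) (Fin.tail x) v := by
    unfold En
    rw [Fin.sum_univ_succ]
    rfl
  rw [h5]
  linarith

/-- three random generators: gap on all `r`-tuples, `r ≤ n ^ κ`, `κ < 1 / 8` -/
theorem gap3 (hAM : S_AM) (hTR : S_TR) (hFF : S_FF) (hNU : S_NU) (κ : ℝ) (h0 : 0 < κ)
    (h1 : κ < 1 / 8) : ∃ c : ℝ, 0 < c ∧ c ≤ 1 ∧ ∀ e : ℝ, 0 < e → ∀ᶠ n : ℕ in atTop,
      (Nat.card {y : Fin 3 → Alt n // ¬ Good1 n ⌊(n : ℝ) ^ κ⌋₊ c y} : ℝ) ≤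
        e * (Fintype.card (Alt n) : ℝ) ^ 3 := by
  obtain ⟨θ, α, φ, hθ0, hθ1, hα, hαφ, hφ, hev⟩ := hNU κ h0 h1
  refine ⟨(1 - θ) / 36, by linarith, by linarith, fun e he => ?_⟩
  filter_upwards [hev (e / 2) (by linarith), hFF 2 α φ (by norm_num) hα hαφ hφ (e / 2)
    (by linarith)] with n hn hF
  obtain ⟨hn1, hn2, hn3⟩ := hn
  set A : ℝ := (Fintype.card (Alt n) : ℝ) with hA
  have hA0 : 0 < A := by rw [hA]; exact_mod_cast Fintype.card_pos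
  set m := ⌊(n : ℝ) ^ κ⌋₊ with hm
  have hb : ∀ y : Fin 2 → Alt n, FewFixK n ⌊(n : ℝ) ^ α⌋₊ ⌈(n : ℝ) ^ φ⌉₊
      (fun i => (y i : Equiv.Perm (Fin n))) →
      (Nat.card {z : Alt n // ¬ QZ n m ((1 - θ) / 36) z y} : ℝ) ≤ e / 2 * A := by
    intro y hy
    refine (levels hAM hTR (by norm_num) hn1 hn2 y hy θ hθ0 hθ1).trans ?_
    refine mul_le_mul_of_nonneg_right ?_ hA0.le
    have h3 : Real.sqrt (2 * ((2 : ℕ) : ℝ) - 1) / ((2 : ℕ) : ℝ) = Real.sqrt 3 / 2 := by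
      norm_num
    rw [h3]
    exact hn3
  have h2 := count_two 2 (fun y : Fin 2 → Alt n => FewFixK n ⌊(n : ℝ) ^ α⌋₊ ⌈(n : ℝ) ^ φ⌉₊
      (fun i => (y i : Equiv.Perm (Fin n))))
    (fun z y => QZ n m ((1 - θ) / 36) z y) (e / 2 * A) (by positivity) hb
  have h3 : (Nat.card {y : Fin 3 → Alt n // ¬ Good1 n m ((1 - θ) / 36) y} : ℝ) ≤
      (Nat.card {x : Fin (2 + 1) → Alt n // ¬ (FewFixK n ⌊(n : ℝ) ^ α⌋₊ ⌈(n : ℝ) ^ φ⌉₊
      (fun i => (Fin.tail x i : Equiv.Perm (Fin n))) ∧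
        QZ n m ((1 - θ) / 36) (x 0) (Fin.tail x))} : ℝ) := by
    exact_mod_cast RC14.card_mono (fun x : Fin (2 + 1) → Alt n => ¬ Good1 n m ((1 - θ) / 36) x)
      (fun x => ¬ (FewFixK n ⌊(n : ℝ) ^ α⌋₊ ⌈(n : ℝ) ^ φ⌉₊
      (fun i => (Fin.tail x i : Equiv.Perm (Fin n))) ∧
        QZ n m ((1 - θ) / 36) (x 0) (Fin.tail x)))
      (fun x hx hcon => hx (good_of_QZ hcon.2))
  refine h3.trans (h2.trans ?_)
  calc (Fintype.card (Alt n) : ℝ) * Nat.card {y : Fin 2 → Alt n // ¬ FewFixK n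
        ⌊(n : ℝ) ^ α⌋₊ ⌈(n : ℝ) ^ φ⌉₊ (fun i => (y i : Equiv.Perm (Fin n)))} +
        (Fintype.card (Alt n) : ℝ) ^ 2 * (e / 2 * A)
      ≤ A * (e / 2 * A ^ 2) + A ^ 2 * (e / 2 * A) := by gcongr
    _ = e * A ^ 3 := by ring

/-- the same for the Schreier graphs -/
theorem tgap3 (hAM : S_AM) (hTR : S_TR) (hFF : S_FF) (hNU : S_NU) (κ : ℝ) (h0 : 0 < κ)
    (h1 : κ < 1 / 8) : ∃ ε : ℝ, 0 < ε ∧ ε ≤ 1 ∧ ∀ e : ℝ, 0 < e → ∀ᶠ n : ℕ in atTop,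
      (Nat.card {y : Fin 3 → Alt n // ¬ ∀ r ≤ ⌊(n : ℝ) ^ κ⌋₊, TGap y ε r} : ℝ) ≤
        e * (Fintype.card (Alt n) : ℝ) ^ 3 := by
  obtain ⟨c, hc0, hc1, hev⟩ := gap3 hAM hTR hFF hNU κ h0 h1
  refine ⟨c / (2 * (3 : ℕ)), by positivity, ?_, fun e he => ?_⟩
  · rw [div_le_one (by positivity)]
    push_cast
    linarith
  · filter_upwards [hev e he, ev_le κ 1 2 (by linarith), eventually_ge_atTop 4] with n hn hn2 hn4
    refine le_trans ?_ hn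
    have hm2 : ⌊(n : ℝ) ^ κ⌋₊ + 2 ≤ n := by
      have h3 : (⌊(n : ℝ) ^ κ⌋₊ : ℝ) ≤ (n : ℝ) ^ κ := Nat.floor_le (by positivity)
      rw [Real.rpow_one] at hn2
      have h4 : (4 : ℝ) ≤ n := by exact_mod_cast hn4
      have h5 : (⌊(n : ℝ) ^ κ⌋₊ : ℝ) + 2 ≤ n := by linarith
      exact_mod_cast h5
    exact_mod_cast RC14.card_mono (fun y : Fin 3 → Alt n =>
      ¬ ∀ r ≤ ⌊(n : ℝ) ^ κ⌋₊, TGap y (c / (2 * (3 : ℕ))) r)
      (fun y => ¬ Good1 n ⌊(n : ℝ) ^ κ⌋₊ c y) (by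
        intro y hy hcon
        apply hy
        intro r hr
        have h6 := Pool.Agent.Results.MP_75608d_al.GapAllTuples.gap_of_good n _ 3 hm2
          (by norm_num) c y hcon
        exact tgap_mono le_rfl (h6.2 r hr))

end

end R3516
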