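import Pool.Agent.U516.R3.SpecQ
import Pool.Agent.U516.R3.Gap3

/-!
The gap on tuples for `2 + q` random generators.
-/

namespace R3516
open RC14 RD516 Finset Filter Topology
open Pool.Agent.R236.Den

noncomputable section

/-- one level -/
theorem lvlQ (hAM : S_AMQ) (hTR : S_TR) {n j ℓ F k q L : ℕ} (hk : 1 ≤ k) (hq : 1 ≤ q)
    (hj2 : 2 * j + 2 ≤ n) (hj : 1 ≤ j) (hL : 2 * L ≤ ℓ) (x : Fin k → Alt n)
    (hx : FewFixK n ℓ F (fun i => (x i : Equiv.Perm (Fin n)))) (θ : ℝ) (hθ0 : 0 < θ)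
    (hθ1 : θ < 1) :
    (Nat.card {z : Fin q → Alt n // ¬ ∀ v ∈ Lvl j n, (1 - θ) / (64 * (q : ℝ) ^ 2) * ‖v‖ ^ 2 ≤
      En (repA j n) x v + En (repA j n) z v} : ℝ) ≤
      Real.exp (3 * Real.sqrt j) * (4 * (1 / θ) ^ (2 * L * (q + 1)) *
        ((Real.sqrt (2 * k - 1) / k) ^ (2 * L) + bb j j n F ^ j) ^ q *
        ((Real.sqrt (2 * k - 1) / k) ^ (2 * L) * (n : ℝ) ^ j + (F : ℝ) ^ j) *
        (Fintype.card (Alt n) : ℝ) ^ q) := by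
  have hbb := bb_nonneg j j n F
  have hs0 : (0 : ℝ) ≤ Real.sqrt (2 * k - 1) / k := by positivity
  set B : ℝ := 4 * (1 / θ) ^ (2 * L * (q + 1)) *
        ((Real.sqrt (2 * k - 1) / k) ^ (2 * L) + bb j j n F ^ j) ^ q *
        ((Real.sqrt (2 * k - 1) / k) ^ (2 * L) * (n : ℝ) ^ j + (F : ℝ) ^ j) *
        (Fintype.card (Alt n) : ℝ) ^ q with hB
  have hB0 : 0 ≤ B := by rw [hB]; positivity
  have h := UBG (repA j n) (Lvl j n) _ (TYPESLVL j n hj2) (Z := Fin q → Alt n)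
    (fun z v => En (repA j n) x v + En (repA j n) z v)
    (fun z => (IsEn.en (repA j n) x).add (IsEn.en (repA j n) z))
    ((1 - θ) / (64 * (q : ℝ) ^ 2)) B hB0 ?_
  · refine h.trans ?_
    exact mul_le_mul_of_nonneg_right (CONJS j) hB0
  · intro W hW hWL
    obtain ⟨t1, t2⟩ := hTR n j ℓ F k L x W hW hk hj2 hj hL hx hWL
    exact hAM (Alt n) (V j n) (repA j n) W hW k q x θ _ _ L hk hq hθ0 hθ1 (by positivity) t1 t2

/-- all levels -/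
theorem levelsQ (hAM : S_AMQ) (hTR : S_TR) {n m ℓ F k q L1 : ℕ} (hk : 1 ≤ k) (hq : 1 ≤ q)
    (hm2 : 2 * m + 2 ≤ n) (hL : 2 * (m * L1) ≤ ℓ) (x : Fin k → Alt n)
    (hx : FewFixK n ℓ F (fun i => (x i : Equiv.Perm (Fin n)))) (θ : ℝ) (hθ0 : 0 < θ)
    (hθ1 : θ < 1) :
    (Nat.card {z : Fin q → Alt n // ¬ ∀ j ∈ Finset.Icc 1 m, ∀ v ∈ Lvl j n,
      (1 - θ) / (64 * (q : ℝ) ^ 2) * ‖v‖ ^ 2 ≤
      En (repA j n) x v + En (repA j n) z v} : ℝ) ≤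
      (∑ j ∈ Finset.Icc 1 m, Real.exp (3 * Real.sqrt j) *
        (4 * (1 / θ) ^ (2 * (j * L1) * (q + 1)) *
        ((Real.sqrt (2 * k - 1) / k) ^ (2 * (j * L1)) + bb j j n F ^ j) ^ q *
        ((Real.sqrt (2 * k - 1) / k) ^ (2 * (j * L1)) * (n : ℝ) ^ j + (F : ℝ) ^ j))) *
        (Fintype.card (Alt n) : ℝ) ^ q := by
  have step : Nat.card {z : Fin q → Alt n // ¬ ∀ j ∈ Finset.Icc 1 m, ∀ v ∈ Lvl j n,
      (1 - θ) / (64 * (q : ℝ) ^ 2) * ‖v‖ ^ 2 ≤ En (repA j n) x v + En (repA j n) z v} ≤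
      ∑ j ∈ Finset.Icc 1 m, Nat.card {z : Fin q → Alt n // ¬ ∀ v ∈ Lvl j n,
      (1 - θ) / (64 * (q : ℝ) ^ 2) * ‖v‖ ^ 2 ≤ En (repA j n) x v + En (repA j n) z v} := by
    apply card_union_fin
    intro z hz
    by_contra hcon
    push Not at hcon
    exact hz fun j hj => hcon j hj
  calc (Nat.card {z : Fin q → Alt n // ¬ ∀ j ∈ Finset.Icc 1 m, ∀ v ∈ Lvl j n,
      (1 - θ) / (64 * (q : ℝ) ^ 2) * ‖v‖ ^ 2 ≤ En (repA j n) x v + En (repA j n) z v} : ℝ) ≤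
      ∑ j ∈ Finset.Icc 1 m, (Nat.card {z : Fin q → Alt n // ¬ ∀ v ∈ Lvl j n,
      (1 - θ) / (64 * (q : ℝ) ^ 2) * ‖v‖ ^ 2 ≤ En (repA j n) x v + En (repA j n) z v} : ℝ) := by
        exact_mod_cast step
    _ ≤ ∑ j ∈ Finset.Icc 1 m, Real.exp (3 * Real.sqrt j) *
        (4 * (1 / θ) ^ (2 * (j * L1) * (q + 1)) *
        ((Real.sqrt (2 * k - 1) / k) ^ (2 * (j * L1)) + bb j j n F ^ j) ^ q *
        ((Real.sqrt (2 * k - 1) / k) ^ (2 * (j * L1)) * (n : ℝ) ^ j + (F : ℝ) ^ j) *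
        (Fintype.card (Alt n) : ℝ) ^ q) := by
        refine Finset.sum_le_sum fun j hj => ?_
        rw [Finset.mem_Icc] at hj
        exact lvlQ hAM hTR hk hq (by omega) hj.1 (le_trans (by gcongr; exact hj.2) hL) x hx θ
          hθ0 hθ1
    _ = _ := by
        rw [Finset.sum_mul]
        refine Finset.sum_congr rfl fun j _ => ?_
        ring

/-- `k ≥ 3` random generators: gap on all levels `≤ n ^ κ` -/
theorem gapK (hAM : S_AMQ) (hTR : S_TR) (hFF : S_FF) (hNU : S_NUQ) (k : ℕ) (hk : 3 ≤ k) (κ : ℝ)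
    (h0 : 0 < κ) (h1 : κ < ((k : ℝ) - 2) / (2 * (k + 1))) (h2 : κ < ((k : ℝ) - 2) / (3 * (k - 1))) :
    ∃ c : ℝ, 0 < c ∧ c ≤ 1 ∧ ∀ e : ℝ, 0 < e → ∀ᶠ n : ℕ in atTop,
      (Nat.card {y : Fin k → Alt n // ¬ Good1 n ⌊(n : ℝ) ^ κ⌋₊ c y} : ℝ) ≤
        e * (Fintype.card (Alt n) : ℝ) ^ k := by
  obtain ⟨q, rfl⟩ : ∃ q, k = 2 + q := ⟨k - 2, by omega⟩
  have hq : 1 ≤ q := by omega
  have hq' : (1 : ℝ) ≤ q := by exact_mod_cast hq
  push_cast at h1 h2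
  have h1' : κ < q / (2 * (q + 3)) := by
    have e : ((2 : ℝ) + q - 2) / (2 * (2 + q + 1)) = q / (2 * (q + 3)) := by ring
    rwa [e] at h1
  have h2' : κ < q / (3 * (q + 1)) := by
    have e : ((2 : ℝ) + q - 2) / (3 * (2 + q - 1)) = q / (3 * (q + 1)) := by ring
    rwa [e] at h2
  obtain ⟨θ, α, φ, hθ0, hθ1, hα, hαφ, hφ, hev⟩ := hNU q κ hq h0 h1' h2'
  have hθ' : 0 < 1 - θ := by linarith
  refine ⟨(1 - θ) / (64 * (q : ℝ) ^ 2), by positivity, ?_, fun e he => ?_⟩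
  · rw [div_le_one (by positivity)]
    have : (1 : ℝ) ≤ (q : ℝ) ^ 2 := one_le_pow₀ hq'
    linarith
  filter_upwards [hev (e / 2) (by linarith), hFF 2 α φ (by norm_num) hα hαφ hφ (e / 2)
    (by linarith)] with n hn hF
  obtain ⟨hn1, hn2, hn3⟩ := hn
  set A : ℝ := (Fintype.card (Alt n) : ℝ) with hA
  have hA0 : 0 < A := by rw [hA]; exact_mod_cast Fintype.card_pos
  set m := ⌊(n : ℝ) ^ κ⌋₊ with hm
  have hcount : (Nat.card {y : Fin (2 + q) → Alt n //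
        ¬ Good1 n m ((1 - θ) / (64 * (q : ℝ) ^ 2)) y} : ℝ) =
      (Nat.card {p : (Fin 2 → Alt n) × (Fin q → Alt n) //
        ¬ Good1 n m ((1 - θ) / (64 * (q : ℝ) ^ 2)) (Fin.append p.1 p.2)} : ℝ) := by
    norm_cast
    exact (card_equiv (Fin.appendEquiv 2 q) _ _ fun z => Iff.rfl).symm
  rw [hcount]
  refine (card_prod_bound (fun x : Fin 2 → Alt n =>
    FewFixK n ⌊(n : ℝ) ^ α⌋₊ ⌈(n : ℝ) ^ φ⌉₊ (fun i => (x i : Equiv.Perm (Fin n))))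
    (fun x z => ¬ Good1 n m ((1 - θ) / (64 * (q : ℝ) ^ 2)) (Fin.append x z)) (e / 2)
    (by positivity) ?_).trans ?_
  · intro x hx
    have h3 := levelsQ hAM hTR (by norm_num) hq hn1 hn2 x hx θ hθ0 hθ1
    have h4 : (Nat.card {z : Fin q → Alt n //
        ¬ Good1 n m ((1 - θ) / (64 * (q : ℝ) ^ 2)) (Fin.append x z)} : ℝ) ≤
        (Nat.card {z : Fin q → Alt n // ¬ ∀ j ∈ Finset.Icc 1 m, ∀ v ∈ Lvl j n,
        (1 - θ) / (64 * (q : ℝ) ^ 2) * ‖v‖ ^ 2 ≤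
        En (repA j n) x v + En (repA j n) z v} : ℝ) := by
      refine Nat.cast_le.mpr (RC14.card_mono _ _ fun z hz hcon => hz ?_)
      intro j hj1 hj2 v hv
      rw [En_append]
      exact hcon j (Finset.mem_Icc.2 ⟨hj1, hj2⟩) v hv
    refine h4.trans (h3.trans ?_)
    rw [Fintype.card_fun, Fintype.card_fin]
    push_cast
    refine mul_le_mul_of_nonneg_right ?_ (by positivity)
    have h5 : Real.sqrt (2 * (2 : ℝ) - 1) / (2 : ℝ) = Real.sqrt 3 / 2 := by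
      norm_num
    rw [h5]
    exact hn3
  · rw [Fintype.card_fun, Fintype.card_fun, Fintype.card_fin, Fintype.card_fin]
    push_cast
    calc _ ≤ (e / 2 * A ^ 2) * A ^ q + e / 2 * A ^ 2 * A ^ q := by gcongr
      _ = e * A ^ (2 + q) := by rw [pow_add]; ring

/-- the gaps -/
theorem tgapK (hAM : S_AMQ) (hTR : S_TR) (hFF : S_FF) (hNU : S_NUQ) (k : ℕ) (hk : 3 ≤ k) (κ : ℝ)
    (h0 : 0 < κ) (h1 : κ < ((k : ℝ) - 2) / (2 * (k + 1))) (h2 : κ < ((k : ℝ) - 2) / (3 * (k - 1))) :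
    ∃ ε : ℝ, 0 < ε ∧ ε ≤ 1 ∧ ∀ e : ℝ, 0 < e → ∀ᶠ n : ℕ in atTop,
      (Nat.card {y : Fin k → Alt n //
        ¬ Pool.Agent.Results.MP_75608d_al.GapAllTuples.GapUpTo n ⌊(n : ℝ) ^ κ⌋₊ ε y} : ℝ) ≤
        e * (Fintype.card (Alt n) : ℝ) ^ k := by
  have hk3 : (3 : ℝ) ≤ k := by exact_mod_cast hk
  obtain ⟨c, hc0, hc1, hev⟩ := gapK hAM hTR hFF hNU k hk κ h0 h1 h2
  have hκ : κ < 1 := by
    refine h1.trans_le ?_
    rw [div_le_one (by positivity)]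
    linarith
  refine ⟨c / (2 * k), by positivity, ?_, fun e he => ?_⟩
  · rw [div_le_one (by positivity)]
    linarith
  · filter_upwards [hev e he, ev_le κ 1 2 hκ, eventually_ge_atTop 4] with n hn hn2 hn4
    refine le_trans ?_ hn
    have hm2 : ⌊(n : ℝ) ^ κ⌋₊ + 2 ≤ n := by
      have h3 : (⌊(n : ℝ) ^ κ⌋₊ : ℝ) ≤ (n : ℝ) ^ κ := Nat.floor_le (by positivity)
      rw [Real.rpow_one] at hn2
      have h4 : (4 : ℝ) ≤ n := by exact_mod_cast hn4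
      have h5 : (⌊(n : ℝ) ^ κ⌋₊ : ℝ) + 2 ≤ n := by linarith
      exact_mod_cast h5
    exact_mod_cast RC14.card_mono (fun y : Fin k → Alt n =>
      ¬ Pool.Agent.Results.MP_75608d_al.GapAllTuples.GapUpTo n ⌊(n : ℝ) ^ κ⌋₊ (c / (2 * k)) y)
      (fun y => ¬ Good1 n ⌊(n : ℝ) ^ κ⌋₊ c y) (by
        intro y hy hcon
        apply hy
        exact Pool.Agent.Results.MP_75608d_al.GapAllTuples.gap_of_good n _ k hm2
          (by omega) c y hcon)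

end

end R3516
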