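import Pool.Agent.U516.R3.Red2
import Pool.Agent.U516.R3.GapQ

/-!
The assembly for every `k ≥ 3`.
-/

namespace R3516
open RC14 RD516 Finset Filter Topology
open Pool.Agent.R236.Den

noncomputable section

/-- every even permutation is a word of length at most `B` -/
def Short {n k : ℕ} (B : ℝ) (x : Fin k → Alt n) : Prop :=
  ∀ σ : Equiv.Perm (Fin n), Equiv.Perm.sign σ = 1 → ∃ D : ℕ, (D : ℝ) ≤ B ∧ σ ∈ PB x D

lemma card_first {G : Type} [Fintype G] (k r : ℕ) (P : (Fin k → G) → Prop) :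
    Nat.card {x : Fin (k + r) → G // P (fun i => x (Fin.castAdd r i))} =
      Nat.card {y : Fin k → G // P y} * Fintype.card G ^ r := by
  have e : {x : Fin (k + r) → G // P (fun i => x (Fin.castAdd r i))} ≃
      {y : Fin k → G // P y} × (Fin r → G) :=
    { toFun := fun x => (⟨fun i => x.1 (Fin.castAdd r i), x.2⟩, fun i => x.1 (Fin.natAdd k i))
      invFun := fun p => ⟨Fin.append p.1.1 p.2, by
        have : (fun i => Fin.append p.1.1 p.2 (Fin.castAdd r i)) = p.1.1 := by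
          funext i
          rw [Fin.append_left]
        rw [this]
        exact p.1.2⟩
      left_inv := fun x => by
        apply Subtype.ext
        funext i
        induction i using Fin.addCases with
        | left i => simp
        | right i => simp
      right_inv := fun p => by
        obtain ⟨⟨y, hy⟩, z⟩ := p
        simp }
  rw [Nat.card_congr e, Nat.card_prod]
  congr 1
  rw [Nat.card_eq_fintype_card, Fintype.card_fun, Fintype.card_fin]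

/-- the whole probabilistic argument for one `n` -/
theorem one_nK (hCM : S_CM) {n r : ℕ} {ε ε₂ η X Y c₀ : ℝ} (hε : ε ≤ 2) (hε2 : ε₂ ≤ 1)
    (hη : 0 ≤ η) (hc0 : 0 < c₀) {L M : ℕ} (hn : 400 ≤ n)
    (hE : ∃ E : Finset (alternatingGroup (Fin n)),
      (∀ g h : alternatingGroup (Fin n), g * h ∈ E ↔ h * g ∈ E) ∧
      c₀ * Fintype.card (alternatingGroup (Fin n)) ≤ (#E : ℝ) ∧
      ∀ g ∈ E, ∃ m ≤ n, n ≤ 32 * #((g : Equiv.Perm (Fin n)) ^ m).support ∧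
        8 * #((g : Equiv.Perm (Fin n)) ^ m).support ≤ n)
    (hM : 1600 ≤ M) (hL : (1 - ε / 2) ^ L * (n : ℝ) ^ 2 ≤ 1 / (16 * (n : ℝ) ^ 2))
    (hT : (1 - ε / 2) ^ n * ((n : ℝ) ^ M) ^ 2 ≤ 1 / 64) (h2M : 2 * M ≤ n)
    (hX1 : 12700000 ≤ X) (hLX : (L : ℝ) ≤ X) (hlog : Real.log n ^ 2 ≤ X) (hY0 : 0 < Y)
    (hYM : Y ≤ 2 * M) :
    (Nat.card {x : Fin (3 + r) → Alt n // ¬ Short (n * (n / Y) * X ^ 3) x} : ℝ) ≤
      Nat.card {x : Fin (3 + r) → Alt n // ¬ ∀ r ≤ M, TGap x ε r} +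
      (Fintype.card (Alt n) * Nat.card {y : Fin 2 → Alt n // ¬ IrrFew ε₂ η y} +
      (Fintype.card (Alt n) : ℝ) ^ 2 *
        ((η + (1 - ε₂ / 2) ^ (2 * L)) / c₀ * Fintype.card (Alt n))) *
        (Fintype.card (Alt n) : ℝ) ^ r := by
  classical
  obtain ⟨E, hE1, hE2, hE3⟩ := hE
  have hN : (0 : ℝ) < Fintype.card (Alt n) := by exact_mod_cast Fintype.card_pos
  have he : (0 : ℝ) < #E := lt_of_lt_of_le (by positivity) hE2
  have hE0 : 0 < #E := by exact_mod_cast he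
  set c : ℝ := η + (1 - ε₂ / 2) ^ (2 * L) with hc
  have hcc : 0 ≤ c := add_nonneg hη (pow_nonneg (by linarith) _)
  have hb : ∀ y : Fin 2 → Alt n, IrrFew ε₂ η y →
      (Nat.card {g : Alt n // ¬ ∃ w : Fin L → Fin 2 × Fin 4, g * wd y w ∈ E} : ℝ) ≤
        c / c₀ * Fintype.card (Alt n) := by
    intro y hy
    have h1 := cover (by norm_num) hη hε2 y hy L E hE1 hE0
    have h2 : (Nat.card {g : Alt n // ¬ ∃ w : Fin L → Fin 2 × Fin 4, g * wd y w ∈ E} : ℝ) =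
        #(univ.filter fun g : Alt n => ∀ w : Fin L → Fin 2 × Fin 4, g * wd y w ∉ E) := by
      rw [Nat.card_eq_fintype_card, Fintype.card_subtype]
      congr 2
      ext g
      simp
    rw [h2]
    refine h1.trans ?_
    rw [div_mul_eq_mul_div, div_le_div_iff₀ he hc0]
    have h3 : c * Fintype.card (Alt n) * (c₀ * (Fintype.card (Alt n) : ℝ)) ≤
        c * Fintype.card (Alt n) * (#E : ℝ) :=
      mul_le_mul_of_nonneg_left hE2 (by positivity)
    calc _ = c * Fintype.card (Alt n) * (c₀ * (Fintype.card (Alt n) : ℝ)) := by ring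
      _ ≤ _ := h3
  have h2 := count_two 2 (fun y : Fin 2 → Alt n => IrrFew ε₂ η y)
    (fun g y => ∃ w : Fin L → Fin 2 × Fin 4, g * wd y w ∈ E) _ (by positivity) hb
  have h5 := card_first (G := Alt n) 3 r (fun x : Fin (2 + 1) → Alt n =>
    ¬ (IrrFew ε₂ η (Fin.tail x) ∧ ∃ w : Fin L → Fin 2 × Fin 4, x 0 * wd (Fin.tail x) w ∈ E))
  have h3 : (Nat.card {x : Fin (3 + r) → Alt n // ¬ Short (n * (n / Y) * X ^ 3) x} : ℝ) ≤
      Nat.card {x : Fin (3 + r) → Alt n // ¬ ∀ r ≤ M, TGap x ε r} +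
      Nat.card {x : Fin (3 + r) → Alt n // (fun x : Fin (2 + 1) → Alt n =>
        ¬ (IrrFew ε₂ η (Fin.tail x) ∧ ∃ w : Fin L → Fin 2 × Fin 4,
          x 0 * wd (Fin.tail x) w ∈ E)) (fun i => x (Fin.castAdd r i))} := by
    rw [Nat.card_eq_fintype_card, Nat.card_eq_fintype_card, Nat.card_eq_fintype_card,
      Fintype.card_subtype, Fintype.card_subtype, Fintype.card_subtype]
    have h4 : (univ.filter fun x : Fin (3 + r) → Alt n => ¬ Short (n * (n / Y) * X ^ 3) x) ⊆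
        (univ.filter fun x : Fin (3 + r) → Alt n => ¬ ∀ r ≤ M, TGap x ε r) ∪
        (univ.filter fun x : Fin (3 + r) → Alt n => (fun x : Fin (2 + 1) → Alt n =>
        ¬ (IrrFew ε₂ η (Fin.tail x) ∧ ∃ w : Fin L → Fin 2 × Fin 4,
          x 0 * wd (Fin.tail x) w ∈ E)) (fun i => x (Fin.castAdd r i))) := by
      intro x hx
      rw [mem_filter] at hx
      rw [mem_union, mem_filter, mem_filter]
      by_contra hcon
      push Not at hcon
      apply hx.2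
      obtain ⟨hA, hB⟩ := hcon
      have hA' := hA (mem_univ _)
      obtain ⟨-, w, hw⟩ := hB (mem_univ _)
      set x' : Fin (2 + 1) → Alt n := fun i => x (Fin.castAdd r i) with hx'
      have hgw : ((x' 0 * wd (Fin.tail x') w : Alt n) : Equiv.Perm (Fin n)) ∈
          PB x (1 + L) := by
        have h6 : ((x' 0 * wd (Fin.tail x') w : Alt n) : Equiv.Perm (Fin n)) ∈
            PB x' (1 + L) := by
          rw [Subgroup.coe_mul]
          exact PB.mul (PB.gen 0) (PB_tail (k := 2) (PB_wd (Fin.tail x') w))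
        exact PB.extend (fun i => ⟨Fin.castAdd r i, rfl⟩) h6
      obtain ⟨ℓ, s, g1, g2, g3, g4⟩ := det2 hCM (by omega) hε hn hA' hM hL hT h2M hgw
        (hE3 _ hw)
      intro σ hσ
      exact ⟨_, num2 hX1 (by omega) hLX hlog hY0 hYM (by omega) g1 g2 g3, g4 σ hσ⟩
    exact_mod_cast (card_le_card h4).trans (card_union_le _ _)
  rw [h5] at h3
  push_cast at h3
  have hN' : (0 : ℝ) ≤ (Fintype.card (Alt n) : ℝ) ^ r := by positivity
  have h6 := mul_le_mul_of_nonneg_right h2 hN'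
  linarith

lemma paramsK (κ δ : ℝ) (hκ : 0 < κ) (hκ1 : κ < 1) (hδ : 0 < δ) (ε : ℝ) (hε : 0 < ε) (hε1 : ε ≤ 1)
    (ε₂ : ℝ) (hε2 : 0 < ε₂) (hε21 : ε₂ ≤ 1) (c c₀ : ℝ) (hc : 0 < c) (hc0 : 0 < c₀) (e : ℝ)
    (he : 0 < e) :
    ∀ᶠ n : ℕ in atTop, 400 ≤ n ∧ 1600 ≤ ⌊(n : ℝ) ^ κ⌋₊ ∧
      (1 - ε / 2) ^ ⌊(n : ℝ) ^ δ⌋₊ * (n : ℝ) ^ 2 ≤ 1 / (16 * (n : ℝ) ^ 2) ∧
      (1 - ε / 2) ^ n * ((n : ℝ) ^ ⌊(n : ℝ) ^ κ⌋₊) ^ 2 ≤ 1 / 64 ∧
      2 * ⌊(n : ℝ) ^ κ⌋₊ ≤ n ∧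
      12700000 ≤ (n : ℝ) ^ δ ∧ (⌊(n : ℝ) ^ δ⌋₊ : ℝ) ≤ (n : ℝ) ^ δ ∧
      Real.log n ^ 2 ≤ (n : ℝ) ^ δ ∧
      (n : ℝ) ^ κ ≤ 2 * ⌊(n : ℝ) ^ κ⌋₊ ∧
      ((n : ℝ) ^ (-c) + (1 - ε₂ / 2) ^ (2 * ⌊(n : ℝ) ^ δ⌋₊)) / c₀ ≤ e := by
  filter_upwards [eventually_ge_atTop 400, ev_const (κ) 3200 (by linarith),
    ev_const δ 12700000 hδ, ev_le (κ) 1 2 (by linarith),
    ev_log 0 δ (20 / ε) hδ, ev_log (κ) 1 (8 / ε) (by linarith),
    ev_log 0 (δ / 2) 1 (by linarith),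
    ev_log 0 δ (2 * c / ε₂) hδ, ev_const c (2 / (e * c₀)) hc, ev_const 1 (20 / ε) one_pos]
    with n h400 hM4 hX hM2 hlog1 hlog2 hlog3 hlog5 hne hnε
  have hn : (400 : ℝ) ≤ n := by exact_mod_cast h400
  have hn0 : (0 : ℝ) < n := lt_of_lt_of_le (by norm_num) hn
  have hlogn : 0 < Real.log n := Real.log_pos (lt_of_lt_of_le (by norm_num) hn)
  rw [Real.rpow_one] at hM2 hlog2 hnε
  rw [Real.rpow_zero, mul_one] at hlog1 hlog3 hlog5
  set Y : ℝ := (n : ℝ) ^ κ with hY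
  set X : ℝ := (n : ℝ) ^ δ with hXdef
  set M := ⌊Y⌋₊ with hMdef
  set L := ⌊X⌋₊ with hLdef
  have hY0 : 0 ≤ Y := by positivity
  have hX0 : 0 ≤ X := by positivity
  have hMle : (M : ℝ) ≤ Y := Nat.floor_le hY0
  have hMge : Y / 2 ≤ M := by
    have := Nat.lt_floor_add_one Y
    linarith
  have hLle : (L : ℝ) ≤ X := Nat.floor_le hX0
  have hLge : X / 2 ≤ L := by
    have := Nat.lt_floor_add_one X
    linarith
  have hexpn : Real.exp (Real.log n) = n := Real.exp_log hn0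
  refine ⟨h400, ?_, ?_, ?_, ?_, hX, hLle, ?_, by linarith, ?_⟩
  · have : (1600 : ℝ) ≤ M := by linarith
    exact_mod_cast this
  · -- the mixing on pairs
    have h1 := pow_le_exp hε1 L
    have h2 : 5 * Real.log n ≤ ε / 2 * L := by
      have h3 : ε / 4 * (20 / ε * Real.log n) ≤ ε / 4 * X :=
        mul_le_mul_of_nonneg_left hlog1 (by positivity)
      have h4 : ε / 4 * (20 / ε * Real.log n) = 5 * Real.log n := by
        field_simp
        ring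
      have h5 : ε / 2 * (X / 2) ≤ ε / 2 * L := mul_le_mul_of_nonneg_left hLge (by positivity)
      linarith
    have h3 : (1 - ε / 2) ^ L ≤ 1 / (n : ℝ) ^ 5 := by
      refine h1.trans ?_
      calc Real.exp (-(ε / 2 * L)) ≤ Real.exp (-(5 * Real.log n)) :=
            Real.exp_le_exp.2 (by linarith)
        _ = 1 / (n : ℝ) ^ 5 := by
            rw [Real.exp_neg, one_div]
            congr 1
            have : (5 : ℝ) * Real.log n = ((5 : ℕ) : ℝ) * Real.log n := by norm_num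
            rw [this, Real.exp_nat_mul, hexpn]
    calc (1 - ε / 2) ^ L * (n : ℝ) ^ 2 ≤ 1 / (n : ℝ) ^ 5 * (n : ℝ) ^ 2 := by gcongr
      _ ≤ 1 / (16 * (n : ℝ) ^ 2) := by
          rw [div_mul_eq_mul_div, one_mul, div_le_div_iff₀ (by positivity) (by positivity)]
          have : (16 : ℝ) * ((n : ℝ) ^ 2 * (n : ℝ) ^ 2) ≤ n * ((n : ℝ) ^ 2 * (n : ℝ) ^ 2) := by
            gcongr
            linarith
          nlinarith
  · -- transitivity
    have h1 := pow_le_exp hε1 n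
    have h2 : ((n : ℝ) ^ M) ^ 2 ≤ Real.exp (2 * Y * Real.log n) := by
      rw [← pow_mul]
      have h3 : (n : ℝ) ^ (M * 2) = Real.exp (((M * 2 : ℕ) : ℝ) * Real.log n) := by
        rw [Real.exp_nat_mul, hexpn]
      rw [h3]
      apply Real.exp_le_exp.2
      push_cast
      have : (M : ℝ) * Real.log n ≤ Y * Real.log n := by gcongr
      linarith
    have h3 : 2 * Y * Real.log n ≤ ε / 4 * n := by
      have h4 : ε / 4 * (8 / ε * Y * Real.log n) ≤ ε / 4 * n :=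
        mul_le_mul_of_nonneg_left hlog2 (by positivity)
      have h5 : ε / 4 * (8 / ε * Y * Real.log n) = 2 * Y * Real.log n := by
        field_simp
        ring
      linarith
    have h5n : 5 ≤ ε / 4 * n := by
      have h4 : ε / 4 * (20 / ε) ≤ ε / 4 * n := mul_le_mul_of_nonneg_left hnε (by positivity)
      have h5 : ε / 4 * (20 / ε) = 5 := by
        field_simp
        ring
      linarith
    have h64 : Real.exp (-5 : ℝ) ≤ 1 / 64 := by
      rw [Real.exp_neg, ← one_div, div_le_div_iff₀ (Real.exp_pos _) (by norm_num)]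
      have h6 : (2.7 : ℝ) ≤ Real.exp 1 := by linarith [Real.exp_one_gt_d9]
      have h7 : Real.exp (5 : ℝ) = Real.exp 1 ^ 5 := by
        rw [← Real.exp_nat_mul]
        norm_num
      rw [h7]
      have h8 : (2.7 : ℝ) ^ 5 ≤ Real.exp 1 ^ 5 := pow_le_pow_left₀ (by norm_num) h6 5
      norm_num at h8 ⊢
      linarith
    calc (1 - ε / 2) ^ n * ((n : ℝ) ^ M) ^ 2
        ≤ Real.exp (-(ε / 2 * n)) * Real.exp (2 * Y * Real.log n) := by gcongr
      _ = Real.exp (-(ε / 2 * n) + 2 * Y * Real.log n) := by rw [Real.exp_add]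
      _ ≤ Real.exp (-5) := Real.exp_le_exp.2 (by linarith)
      _ ≤ 1 / 64 := h64
  · have h1 : 2 * (M : ℝ) ≤ n := by linarith
    exact_mod_cast h1
  · have h1 : Real.log n ^ 2 ≤ ((n : ℝ) ^ (δ / 2)) ^ 2 :=
      pow_le_pow_left₀ hlogn.le (by linarith) 2
    have h2 : ((n : ℝ) ^ (δ / 2)) ^ 2 = X := by
      rw [hXdef, ← Real.rpow_natCast, ← Real.rpow_mul hn0.le]
      congr 1
      push_cast
      ring
    linarith
  · have hnc : 2 * (n : ℝ) ^ (-c) ≤ e * c₀ := by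
      rw [Real.rpow_neg hn0.le, ← div_eq_mul_inv, div_le_iff₀ (by positivity)]
      have := mul_le_mul_of_nonneg_left hne (show 0 ≤ e * c₀ by positivity)
      have h1 : e * c₀ * (2 / (e * c₀)) = 2 := by field_simp
      linarith
    have h2 : (1 - ε₂ / 2) ^ (2 * L) ≤ (n : ℝ) ^ (-c) := by
      refine (pow_le_exp hε21 (2 * L)).trans ?_
      rw [Real.rpow_def_of_pos hn0]
      apply Real.exp_le_exp.2
      have h5 : ε₂ / 2 * (2 * c / ε₂ * Real.log n) ≤ ε₂ / 2 * X :=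
        mul_le_mul_of_nonneg_left hlog5 (by positivity)
      have h6 : ε₂ / 2 * (2 * c / ε₂ * Real.log n) = c * Real.log n := by
        field_simp
      have h7 : ε₂ / 2 * (2 * (X / 2)) ≤ ε₂ / 2 * (2 * L) := by gcongr
      push_cast
      linarith
    rw [div_le_iff₀ hc0]
    linarith

/-- every `k ≥ 3` -/
theorem mainAll (hST : S_ST) (hCM : S_CM) (hAM : S_AMQ) (hTR : S_TR) (hFF : S_FF) (hNU : S_NUQ)
    (hPR : S_PR) (k : ℕ) (hk : 3 ≤ k) (δ : ℝ) (hδ : 0 < δ) : ∀ e : ℝ, 0 < e →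
    ∀ᶠ n : ℕ in atTop, (Nat.card {x : Fin k → Alt n //
      ¬ Short ((n : ℝ) ^ (2 - min (((k : ℝ) - 2) / (2 * (k + 1))) (((k : ℝ) - 2) / (3 * (k - 1))) +
        δ)) x} : ℝ) ≤ e * (Fintype.card (Alt n) : ℝ) ^ k := by
  intro e he
  have hk3 : (3 : ℝ) ≤ k := by exact_mod_cast hk
  set κ₀ : ℝ := min (((k : ℝ) - 2) / (2 * (k + 1))) (((k : ℝ) - 2) / (3 * (k - 1))) with hκ₀
  have hκ0 : 0 < κ₀ := lt_min (div_pos (by linarith) (by linarith))
    (div_pos (by linarith) (by linarith))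
  have hκ1 : κ₀ < 1 := by
    refine (min_le_left _ _).trans_lt ?_
    rw [div_lt_one (by positivity)]
    linarith
  obtain ⟨δ₁, hd0, hd1, hd2⟩ : ∃ δ₁ : ℝ, 0 < δ₁ ∧ δ₁ < κ₀ ∧ 4 * δ₁ ≤ δ := by
    refine ⟨min (δ / 4) (κ₀ / 2), lt_min (by linarith) (by linarith), ?_, ?_⟩
    · exact (min_le_right _ _).trans_lt (by linarith)
    · have := min_le_left (δ / 4) (κ₀ / 2 : ℝ)
      linarith
  obtain ⟨ε, h1, h2, hgap⟩ := tgapK hAM hTR hFF hNU k hk (κ₀ - δ₁) (by linarith)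
    (lt_of_lt_of_le (by linarith) (min_le_left _ _))
    (lt_of_lt_of_le (by linarith) (min_le_right _ _))
  obtain ⟨ε₂, h3, h4, c, hc, hpair⟩ := hPR
  obtain ⟨c₀, hc0, N, hE⟩ := hST
  filter_upwards [hgap (e / 3) (by linarith), hpair (e / 3) (by linarith),
    paramsK (κ₀ - δ₁) δ₁ (by linarith) (by linarith) hd0 ε h1 h2 ε₂ h3 h4 c c₀ hc hc0 (e / 3)
      (by linarith), eventually_ge_atTop N] with n hna hnb hp hnN
  obtain ⟨p1, p2, p3, p4, p5, p6, p7, p8, p9, p10⟩ := hp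
  have hn : (400 : ℝ) ≤ n := by exact_mod_cast p1
  have hn0 : (0 : ℝ) < n := by linarith
  have hA0 : (0 : ℝ) < Fintype.card (Alt n) := by exact_mod_cast Fintype.card_pos
  obtain ⟨r, hr⟩ : ∃ r, k = 3 + r := ⟨k - 3, by omega⟩
  subst hr
  have key := one_nK hCM (n := n) (r := r) (ε := ε) (ε₂ := ε₂) (η := (n : ℝ) ^ (-c)) (c₀ := c₀)
    (by linarith) h4 (by positivity) hc0 p1 (hE n hnN) p2 p3 p4 p5 p6 p7 p8
    (by positivity) p9
  have hexp : (n : ℝ) * (n / (n : ℝ) ^ (κ₀ - δ₁)) * ((n : ℝ) ^ δ₁) ^ 3 ≤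
      (n : ℝ) ^ (2 - κ₀ + δ) := by
    have e1 : ((n : ℝ) ^ δ₁) ^ 3 = (n : ℝ) ^ (δ₁ * 3) := by
      rw [← Real.rpow_natCast, ← Real.rpow_mul hn0.le]
      norm_num
    have e2 : (n : ℝ) / (n : ℝ) ^ (κ₀ - δ₁) = (n : ℝ) ^ (1 - (κ₀ - δ₁)) := by
      rw [Real.rpow_sub hn0 1 (κ₀ - δ₁), Real.rpow_one]
    rw [e1, e2]
    calc (n : ℝ) * (n : ℝ) ^ (1 - (κ₀ - δ₁)) * (n : ℝ) ^ (δ₁ * 3) =
        (n : ℝ) ^ (1 + (1 - (κ₀ - δ₁)) + δ₁ * 3) := by
          rw [Real.rpow_add hn0, Real.rpow_add hn0, Real.rpow_one]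
      _ ≤ (n : ℝ) ^ (2 - κ₀ + δ) := by
          apply Real.rpow_le_rpow_of_exponent_le (by linarith)
          linarith
  have hmono : (Nat.card {x : Fin (3 + r) → Alt n // ¬ Short ((n : ℝ) ^ (2 - κ₀ + δ)) x} : ℝ) ≤
      Nat.card {x : Fin (3 + r) → Alt n //
        ¬ Short ((n : ℝ) * (n / (n : ℝ) ^ (κ₀ - δ₁)) * ((n : ℝ) ^ δ₁) ^ 3) x} := by
    refine Nat.cast_le.mpr (RC14.card_mono _ _ fun x hx hcon => hx ?_)
    intro σ hσ
    obtain ⟨D, hD, hσD⟩ := hcon σ hσ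
    exact ⟨D, hD.trans hexp, hσD⟩
  have hgg : (Nat.card {x : Fin (3 + r) → Alt n //
      ¬ ∀ s ≤ ⌊(n : ℝ) ^ (κ₀ - δ₁)⌋₊, TGap x ε s} : ℝ) ≤
      e / 3 * (Fintype.card (Alt n) : ℝ) ^ (3 + r) := by
    refine le_trans ?_ hna
    refine Nat.cast_le.mpr (RC14.card_mono _ _ fun x hx hcon => hx ?_)
    intro s hs
    exact tgap_mono le_rfl (hcon.2 s hs)
  refine hmono.trans (key.trans ?_)
  have e1 : (Fintype.card (Alt n) : ℝ) * Nat.card {y : Fin 2 → Alt n //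
      ¬ IrrFew ε₂ ((n : ℝ) ^ (-c)) y} ≤ e / 3 * (Fintype.card (Alt n) : ℝ) ^ 3 := by
    calc _ ≤ (Fintype.card (Alt n) : ℝ) * (e / 3 * (Fintype.card (Alt n) : ℝ) ^ 2) := by gcongr
      _ = e / 3 * (Fintype.card (Alt n) : ℝ) ^ 3 := by ring
  have e2 : (Fintype.card (Alt n) : ℝ) ^ 2 * (((n : ℝ) ^ (-c) +
      (1 - ε₂ / 2) ^ (2 * ⌊(n : ℝ) ^ δ₁⌋₊)) / c₀ * Fintype.card (Alt n)) ≤
      e / 3 * (Fintype.card (Alt n) : ℝ) ^ 3 := by
    calc _ ≤ (Fintype.card (Alt n) : ℝ) ^ 2 * (e / 3 * Fintype.card (Alt n)) := by gcongr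
      _ = e / 3 * (Fintype.card (Alt n) : ℝ) ^ 3 := by ring
  have e3 := mul_le_mul_of_nonneg_right (add_le_add e1 e2)
    (show (0 : ℝ) ≤ (Fintype.card (Alt n) : ℝ) ^ r by positivity)
  have e4 : (e / 3 * (Fintype.card (Alt n) : ℝ) ^ 3 + e / 3 * (Fintype.card (Alt n) : ℝ) ^ 3) *
      (Fintype.card (Alt n) : ℝ) ^ r = 2 * (e / 3) * (Fintype.card (Alt n) : ℝ) ^ (3 + r) := by
    rw [pow_add]; ring
  rw [e4] at e3
  linarith

end

end R3516
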