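import Pool.Agent.U516.R3.Spec

/-! Package NU of project R3 (helper448): the sum over the levels is small. -/

namespace R3516
namespace PkgNU
open RC14 Finset Filter Topology

noncomputable section

lemma bb_bound (κ φ : ℝ) (h0 : 0 < κ) (hφ : 0 < φ) (h1 : κ < 1 / 8) (h2 : φ - 1 ≤ κ - 1 / 2) :
    ∀ᶠ n : ℕ in atTop, ∀ j, 1 ≤ j → j ≤ ⌊(n : ℝ) ^ κ⌋₊ →
      bb j j n ⌈(n : ℝ) ^ φ⌉₊ ≤ 10 * (n : ℝ) ^ (κ - 1 / 2) := by
  filter_upwards [ev_le κ 1 4 (by linarith), eventually_ge_atTop 1] with n ha hn1 j hj1 hj2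
  have hn : (0 : ℝ) < n := by exact_mod_cast hn1
  have hn1' : (1 : ℝ) ≤ n := by exact_mod_cast hn1
  have hj : (j : ℝ) ≤ (n : ℝ) ^ κ :=
    (Nat.cast_le.2 hj2).trans (Nat.floor_le (by positivity))
  rw [Real.rpow_one] at ha
  have hjn' : (j : ℝ) ≤ n := by
    have : (0 : ℝ) ≤ (n : ℝ) ^ κ := by positivity
    linarith
  have hjn : j ≤ n := by exact_mod_cast hjn'
  have hN : (n : ℝ) / 2 ≤ ((n - j : ℕ) : ℝ) := by
    rw [Nat.cast_sub hjn]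
    have : (0 : ℝ) ≤ (n : ℝ) ^ κ := by positivity
    linarith
  have hN0 : (0 : ℝ) < ((n - j : ℕ) : ℝ) := by linarith
  set y : ℝ := (n : ℝ) ^ (κ - 1 / 2) with hy
  have hy0 : 0 < y := Real.rpow_pos_of_pos hn _
  have hk1 : (n : ℝ) ^ κ ≤ y * n := by
    rw [hy, ← Real.rpow_add_one hn.ne']
    exact Real.rpow_le_rpow_of_exponent_le hn1' (by linarith)
  have t1 : 2 * (j : ℝ) / ((n - j : ℕ) : ℝ) ≤ 4 * y := by
    rw [div_le_iff₀ hN0]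
    calc 2 * (j : ℝ) ≤ 2 * (y * n) := by linarith
      _ = 4 * y * (n / 2) := by ring
      _ ≤ 4 * y * ((n - j : ℕ) : ℝ) := by gcongr
  have t2 : (⌈(n : ℝ) ^ φ⌉₊ : ℝ) / ((n - j : ℕ) : ℝ) ≤ 4 * y := by
    rw [div_le_iff₀ hN0]
    have hF : (⌈(n : ℝ) ^ φ⌉₊ : ℝ) < (n : ℝ) ^ φ + 1 := Nat.ceil_lt_add_one (by positivity)
    have h3 : (1 : ℝ) ≤ (n : ℝ) ^ φ := Real.one_le_rpow hn1' hφ.le
    have h4 : (n : ℝ) ^ φ ≤ y * n := by
      rw [hy, ← Real.rpow_add_one hn.ne']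
      exact Real.rpow_le_rpow_of_exponent_le hn1' (by linarith)
    calc (⌈(n : ℝ) ^ φ⌉₊ : ℝ) ≤ 2 * (y * n) := by linarith
      _ = 4 * y * (n / 2) := by ring
      _ ≤ 4 * y * ((n - j : ℕ) : ℝ) := by gcongr
  have t3 : (j : ℝ) / Real.sqrt ((n - j : ℕ) : ℝ) ≤ 2 * y := by
    have hs : (n : ℝ) ^ (1 / 2 : ℝ) / 2 ≤ Real.sqrt ((n - j : ℕ) : ℝ) := by
      apply Real.le_sqrt_of_sq_le
      rw [div_pow, ← Real.rpow_natCast, ← Real.rpow_mul hn.le]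
      norm_num
      linarith
    have hp : (0 : ℝ) < (n : ℝ) ^ (1 / 2 : ℝ) := Real.rpow_pos_of_pos hn _
    rw [div_le_iff₀ (by linarith)]
    calc (j : ℝ) ≤ (n : ℝ) ^ κ := hj
      _ = y * (n : ℝ) ^ (1 / 2 : ℝ) := by
          rw [hy, ← Real.rpow_add hn]; congr 1; ring
      _ = 2 * y * ((n : ℝ) ^ (1 / 2 : ℝ) / 2) := by ring
      _ ≤ 2 * y * Real.sqrt ((n - j : ℕ) : ℝ) := by gcongr
  unfold bb
  linarith

lemma geo (y : ℝ) (h0 : 0 ≤ y) (h1 : y ≤ 1 / 2) (m : ℕ) : ∑ j ∈ Finset.Icc 1 m, y ^ j ≤ 2 * y := by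
  have h : ∀ m : ℕ, (1 - y) * ∑ j ∈ Finset.Icc 1 m, y ^ j = y - y ^ (m + 1) := by
    intro m
    induction m with
    | zero => simp
    | succ m ih =>
      rw [Finset.sum_Icc_succ_top (by omega), mul_add, ih]
      ring
  have h2 := h m
  have h3 : 0 ≤ y ^ (m + 1) := by positivity
  have h4 : 0 ≤ ∑ j ∈ Finset.Icc 1 m, y ^ j := Finset.sum_nonneg fun j _ => by positivity
  nlinarith

theorem main (κ : ℝ) (h0 : 0 < κ) (h1 : κ < 1 / 8) : ∃ θ α φ : ℝ, 0 < θ ∧ θ < 1 ∧ 0 < α ∧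
    3 * α < φ ∧ φ ≤ 1 ∧ ∀ e : ℝ, 0 < e → ∀ᶠ n : ℕ in atTop,
      2 * ⌊(n : ℝ) ^ κ⌋₊ + 2 ≤ n ∧
      2 * (⌊(n : ℝ) ^ κ⌋₊ * ⌈4 * Real.log n⌉₊) ≤ ⌊(n : ℝ) ^ α⌋₊ ∧
      ∑ j ∈ Finset.Icc 1 ⌊(n : ℝ) ^ κ⌋₊, Real.exp (3 * Real.sqrt j) *
        (4 * (1 / θ) ^ (4 * (j * ⌈4 * Real.log n⌉₊)) *
          ((Real.sqrt 3 / 2) ^ (2 * (j * ⌈4 * Real.log n⌉₊)) +
            bb j j n ⌈(n : ℝ) ^ φ⌉₊ ^ j) *
          ((Real.sqrt 3 / 2) ^ (2 * (j * ⌈4 * Real.log n⌉₊)) * (n : ℝ) ^ j +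
            (⌈(n : ℝ) ^ φ⌉₊ : ℝ) ^ j)) ≤ e := by
  set d : ℝ := (1 / 8 - κ) / 20 with hd
  have hd0 : 0 < d := by rw [hd]; linarith
  have hκd : κ = 1 / 8 - 20 * d := by rw [hd]; ring
  refine ⟨Real.exp (-(d / 20)), κ + d, 3 * κ + 4 * d, Real.exp_pos _, ?_, by linarith,
    by linarith, by linarith, fun e he => ?_⟩
  · rw [Real.exp_lt_one_iff]; linarith
  filter_upwards [ev_le κ 1 4 (by linarith), ev_log κ (κ + d) 20 (by linarith), ev_loggt 1,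
    eventually_ge_atTop 1, bb_bound κ (3 * κ + 4 * d) h0 (by linarith) h1 (by linarith),
    ev_le (-(75 * d)) 0 (40 * Real.exp 3) (by linarith),
    ev_le (-(75 * d)) 0 (640 * Real.exp 3 / e) (by linarith)]
    with n a1 a2 a3 a4 a5 a6 a7
  have hn : (0 : ℝ) < n := by exact_mod_cast a4
  have hn1 : (1 : ℝ) ≤ n := by exact_mod_cast a4
  have hk1 : (1 : ℝ) ≤ (n : ℝ) ^ κ := Real.one_le_rpow hn1 h0.le
  have hm : (⌊(n : ℝ) ^ κ⌋₊ : ℝ) ≤ (n : ℝ) ^ κ := Nat.floor_le (by positivity)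
  set R : ℕ := ⌈4 * Real.log n⌉₊ with hR
  have hR1 : (R : ℝ) ≤ 5 * Real.log n := by
    have : (R : ℝ) < 4 * Real.log n + 1 := Nat.ceil_lt_add_one (by linarith)
    linarith
  have hR2 : 4 * Real.log n ≤ R := Nat.le_ceil _
  rw [Real.rpow_one] at a1
  refine ⟨?_, ?_, ?_⟩
  · have : (2 : ℝ) * ⌊(n : ℝ) ^ κ⌋₊ + 2 ≤ n := by linarith
    exact_mod_cast this
  · have h5 : (n : ℝ) ^ (κ + d) < (⌊(n : ℝ) ^ (κ + d)⌋₊ : ℝ) + 1 := Nat.lt_floor_add_one _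
    have h6 : (⌊(n : ℝ) ^ κ⌋₊ : ℝ) * R ≤ (n : ℝ) ^ κ * (5 * Real.log n) := by gcongr
    have h8 : 1 ≤ (n : ℝ) ^ κ * Real.log n := by nlinarith
    have h7 : (2 : ℝ) * (⌊(n : ℝ) ^ κ⌋₊ * R) < ⌊(n : ℝ) ^ (κ + d)⌋₊ := by
      nlinarith
    exact_mod_cast h7.le
  · set y : ℝ := 20 * Real.exp 3 * (n : ℝ) ^ (-(75 * d)) with hy
    have hy0 : 0 ≤ y := by positivity
    rw [Real.rpow_zero] at a6 a7
    have hy1 : y ≤ 1 / 2 := by rw [hy]; linarith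
    have hy2 : 32 * y ≤ e := by
      rw [div_mul_eq_mul_div, div_le_one he] at a7
      rw [hy]; linarith
    have key : ∀ j ∈ Finset.Icc 1 ⌊(n : ℝ) ^ κ⌋₊, Real.exp (3 * Real.sqrt j) *
        (4 * (1 / Real.exp (-(d / 20))) ^ (4 * (j * R)) *
          ((Real.sqrt 3 / 2) ^ (2 * (j * R)) +
            bb j j n ⌈(n : ℝ) ^ (3 * κ + 4 * d)⌉₊ ^ j) *
          ((Real.sqrt 3 / 2) ^ (2 * (j * R)) * (n : ℝ) ^ j +
            (⌈(n : ℝ) ^ (3 * κ + 4 * d)⌉₊ : ℝ) ^ j)) ≤ 16 * y ^ j := by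
      intro j hj
      rw [Finset.mem_Icc] at hj
      have hj1 : (1 : ℝ) ≤ j := by exact_mod_cast hj.1
      -- exp (3 sqrt j)
      have e1 : Real.exp (3 * Real.sqrt j) ≤ Real.exp 3 ^ j := by
        rw [← Real.exp_nat_mul]
        apply Real.exp_le_exp.2
        have : Real.sqrt j ≤ j := by
          rw [Real.sqrt_le_left (by linarith)]
          nlinarith
        linarith
      -- theta
      have e2 : (1 / Real.exp (-(d / 20))) ^ (4 * (j * R)) ≤ ((n : ℝ) ^ d) ^ j := by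
        rw [one_div, ← Real.exp_neg, neg_neg, ← Real.exp_nat_mul, ← Real.rpow_natCast,
          ← Real.rpow_mul hn.le, Real.rpow_def_of_pos hn]
        apply Real.exp_le_exp.2
        push_cast
        have : (j : ℝ) * R ≤ j * (5 * Real.log n) := by gcongr
        nlinarith
      -- walk
      have e3 : (Real.sqrt 3 / 2) ^ (2 * (j * R)) ≤ ((n : ℝ)⁻¹) ^ j := by
        have s1 : (Real.sqrt 3 / 2) ^ 2 = 3 / 4 := by
          rw [div_pow, Real.sq_sqrt (by norm_num)]; norm_num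
        rw [pow_mul, s1, mul_comm j R, pow_mul]
        apply pow_le_pow_left₀ (by positivity)
        have l1 : Real.log (3 / 4) ≤ -(1 / 4) := by
          have := Real.log_le_sub_one_of_pos (show (0 : ℝ) < 3 / 4 by norm_num)
          linarith
        rw [← Real.exp_log (show (0 : ℝ) < 3 / 4 by norm_num), ← Real.exp_nat_mul,
          ← Real.exp_log hn, ← Real.exp_neg]
        apply Real.exp_le_exp.2
        nlinarith
      have hb := a5 j hj.1 hj.2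
      have hb0 := bb_nonneg j j n ⌈(n : ℝ) ^ (3 * κ + 4 * d)⌉₊
      set z : ℝ := 10 * (n : ℝ) ^ (κ - 1 / 2) with hz
      have hz0 : 0 ≤ z := by positivity
      have hz1 : (n : ℝ)⁻¹ ≤ z := by
        have : (n : ℝ) ^ (-1 : ℝ) ≤ (n : ℝ) ^ (κ - 1 / 2) :=
          Real.rpow_le_rpow_of_exponent_le hn1 (by linarith)
        rw [Real.rpow_neg_one] at this
        have h9 : 0 ≤ (n : ℝ) ^ (κ - 1 / 2) := by positivity
        rw [hz]; linarith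
      have e4 : (Real.sqrt 3 / 2) ^ (2 * (j * R)) +
            bb j j n ⌈(n : ℝ) ^ (3 * κ + 4 * d)⌉₊ ^ j ≤ 2 * z ^ j := by
        have f1 : ((n : ℝ)⁻¹) ^ j ≤ z ^ j := pow_le_pow_left₀ (by positivity) hz1 j
        have f2 : bb j j n ⌈(n : ℝ) ^ (3 * κ + 4 * d)⌉₊ ^ j ≤ z ^ j := pow_le_pow_left₀ hb0 hb j
        linarith
      set w : ℝ := 2 * (n : ℝ) ^ (3 * κ + 4 * d) with hw
      have hF : (⌈(n : ℝ) ^ (3 * κ + 4 * d)⌉₊ : ℝ) ≤ w := by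
        have g1 : (⌈(n : ℝ) ^ (3 * κ + 4 * d)⌉₊ : ℝ) < (n : ℝ) ^ (3 * κ + 4 * d) + 1 :=
          Nat.ceil_lt_add_one (by positivity)
        have g2 : (1 : ℝ) ≤ (n : ℝ) ^ (3 * κ + 4 * d) := Real.one_le_rpow hn1 (by linarith)
        rw [hw]; linarith
      have hw1 : 1 ≤ w := by
        have g2 : (1 : ℝ) ≤ (n : ℝ) ^ (3 * κ + 4 * d) := Real.one_le_rpow hn1 (by linarith)
        rw [hw]; linarith
      have e5 : (Real.sqrt 3 / 2) ^ (2 * (j * R)) * (n : ℝ) ^ j +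
            (⌈(n : ℝ) ^ (3 * κ + 4 * d)⌉₊ : ℝ) ^ j ≤ 2 * w ^ j := by
        have f1 : (Real.sqrt 3 / 2) ^ (2 * (j * R)) * (n : ℝ) ^ j ≤ 1 := by
          calc (Real.sqrt 3 / 2) ^ (2 * (j * R)) * (n : ℝ) ^ j ≤ ((n : ℝ)⁻¹) ^ j * (n : ℝ) ^ j := by
                gcongr
            _ = 1 := by rw [← mul_pow, inv_mul_cancel₀ hn.ne', one_pow]
        have f2 : (⌈(n : ℝ) ^ (3 * κ + 4 * d)⌉₊ : ℝ) ^ j ≤ w ^ j :=
          pow_le_pow_left₀ (by positivity) hF j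
        have f3 : 1 ≤ w ^ j := one_le_pow₀ hw1
        linarith
      have hprod : Real.exp 3 * (n : ℝ) ^ d * z * w = y := by
        rw [hz, hw, hy]
        have : (n : ℝ) ^ (-(75 * d)) =
            (n : ℝ) ^ d * (n : ℝ) ^ (κ - 1 / 2) * (n : ℝ) ^ (3 * κ + 4 * d) := by
          rw [← Real.rpow_add hn, ← Real.rpow_add hn]
          congr 1
          rw [hκd]; ring
        rw [this]; ring
      have hA : 0 ≤ bb j j n ⌈(n : ℝ) ^ (3 * κ + 4 * d)⌉₊ ^ j := by positivity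
      calc _ ≤ Real.exp 3 ^ j * (4 * ((n : ℝ) ^ d) ^ j * (2 * z ^ j) * (2 * w ^ j)) := by
            gcongr
        _ = 16 * (Real.exp 3 * (n : ℝ) ^ d * z * w) ^ j := by
            rw [mul_pow, mul_pow, mul_pow]; ring
        _ = 16 * y ^ j := by rw [hprod]
    calc _ ≤ ∑ j ∈ Finset.Icc 1 ⌊(n : ℝ) ^ κ⌋₊, 16 * y ^ j := Finset.sum_le_sum key
      _ = 16 * ∑ j ∈ Finset.Icc 1 ⌊(n : ℝ) ^ κ⌋₊, y ^ j := by rw [Finset.mul_sum]
      _ ≤ 16 * (2 * y) := by gcongr; exact geo y hy0 hy1 _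
      _ ≤ e := by linarith

end

end PkgNU

theorem t_NU : S_NU := fun κ h0 h1 => PkgNU.main κ h0 h1

end R3516
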