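import Pool.Agent.U516.R3.Spec

/-!
The deterministic part: the reduction with squared densities.
-/

namespace R3516
open RC14 RD516 Finset Equiv

noncomputable section

variable {n k : ℕ} {x : Fin k → alternatingGroup (Fin n)}

lemma log_ge {n s : ℕ} (hs : 1 ≤ s) (h8 : 8 * s ≤ n) : 1 / 4 ≤ Real.log (n / (6 * s)) := by
  have hs' : (1 : ℝ) ≤ s := by exact_mod_cast hs
  have h8' : 8 * (s : ℝ) ≤ n := by exact_mod_cast h8
  have h1 : (4 / 3 : ℝ) ≤ n / (6 * s) := by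
    rw [le_div_iff₀ (by positivity)]
    linarith
  have h2 : (1 : ℝ) / 4 ≤ Real.log (4 / 3) := by
    have := Real.one_sub_inv_le_log_of_pos (show (0 : ℝ) < 4 / 3 by norm_num)
    norm_num at this ⊢
    linarith
  exact h2.trans (Real.log_le_log (by norm_num) h1)

/-- from support at most `n / 8` to support at most `R` with polylogarithmic loss -/
theorem reduce2 (hk : 1 ≤ k) {ε : ℝ} (hε : ε ≤ 2) (hg : TGap x ε 2) {L R : ℕ}
    (hL : (1 - ε / 2) ^ L * (n : ℝ) ^ 2 ≤ 1 / (16 * (n : ℝ) ^ 2)) (hn0 : 1 ≤ n)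
    (hR : 8 * n ≤ R ^ 2) (s : ℕ) : ∀ (ℓ : ℕ) (t : Perm (Fin n)), t ∈ PB x ℓ → #t.support = s →
      8 * s ≤ n → R ^ 2 ≤ 4 * n * s →
      ∃ u, ∃ ℓ' : ℕ, u ∈ PB x ℓ' ∧ #u.support ≤ R ∧ R ^ 2 ≤ 4 * n * #u.support ∧
        8 * #u.support ≤ n ∧
        ((ℓ' + 2 * L : ℕ) : ℝ) * Real.log (n / (6 * s)) ^ 2 ≤
          4 * ((ℓ + 2 * L : ℕ) : ℝ) * Real.log n ^ 2 := by
  induction s using Nat.strong_induction_on with
  | _ s ih =>
    intro ℓ t ht hs h8 hlow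
    have hs1 : 1 ≤ s := by
      by_contra hcon
      have : s = 0 := by omega
      rw [this] at hlow
      omega
    have hs' : (1 : ℝ) ≤ s := by exact_mod_cast hs1
    have hn' : (1 : ℝ) ≤ n := by exact_mod_cast hn0
    have hlg := log_ge hs1 h8
    have hlg2 : Real.log (n / (6 * s)) ≤ Real.log n := by
      apply Real.log_le_log (by positivity)
      rw [div_le_iff₀ (by positivity)]
      nlinarith
    by_cases hsM : s ≤ R
    · refine ⟨t, ℓ, ht, by omega, by rw [hs]; exact hlow, by rw [hs]; exact h8, ?_⟩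
      have h1 : Real.log (n / (6 * s)) ^ 2 ≤ Real.log n ^ 2 :=
        pow_le_pow_left₀ (by linarith) hlg2 2
      have h2 : (0 : ℝ) ≤ ((ℓ + 2 * L : ℕ) : ℝ) := Nat.cast_nonneg _
      have h3 : (0 : ℝ) ≤ Real.log n ^ 2 := sq_nonneg _
      nlinarith [mul_le_mul_of_nonneg_left h1 h2, mul_nonneg h2 h3]
    · push Not at hsM
      have hsq : R ^ 2 ≤ s ^ 2 := Nat.pow_le_pow_left hsM.le 2
      obtain ⟨u, hu, hu1, hu2⟩ := step hk hε hg hL ht (by rw [hs]; exact h8)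
        (by rw [hs]; exact hR.trans hsq) hn0
      rw [hs] at hu1 hu2
      have h34 : 4 * #u.support ≤ 3 * s := by
        have h1 : n * (4 * #u.support) ≤ n * (3 * s) := by nlinarith
        exact Nat.le_of_mul_le_mul_left h1 (by omega)
      have hlt : #u.support < s := by omega
      obtain ⟨v, ℓ', hv, hv1, hv2, hv3, hv4⟩ := ih _ hlt (4 * ℓ + 4 * L) u hu rfl (by omega)
        (hsq.trans hu1)
      refine ⟨v, ℓ', hv, hv1, hv2, hv3, ?_⟩
      have hu0 : 1 ≤ #u.support := by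
        by_contra hcon
        have : #u.support = 0 := by omega
        rw [this] at hu1
        have : 0 < s ^ 2 := by positivity
        omega
      set s' : ℝ := (#u.support : ℝ) with hs'def
      have hu0' : (1 : ℝ) ≤ s' := by rw [hs'def]; exact_mod_cast hu0
      have hu2' : (n : ℝ) * s' ≤ 6 * (s : ℝ) ^ 2 := by rw [hs'def]; exact_mod_cast hu2
      -- the logarithm doubles
      have hdbl : 2 * Real.log (n / (6 * s)) ≤ Real.log (n / (6 * s')) := by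
        have h1 : ((n : ℝ) / (6 * s)) ^ 2 ≤ n / (6 * s') := by
          rw [div_pow, div_le_div_iff₀ (by positivity) (by positivity)]
          nlinarith
        have h2 := Real.log_le_log (by positivity) h1
        rw [Real.log_pow] at h2
        push_cast at h2
        exact h2
      have h4 : 4 * Real.log (n / (6 * s)) ^ 2 ≤ Real.log (n / (6 * s')) ^ 2 := by
        calc 4 * Real.log (n / (6 * s)) ^ 2 = (2 * Real.log (n / (6 * s))) ^ 2 := by ring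
          _ ≤ _ := pow_le_pow_left₀ (by linarith) hdbl 2
      have h5 : ((4 * ℓ + 4 * L + 2 * L : ℕ) : ℝ) ≤ 4 * ((ℓ + 2 * L : ℕ) : ℝ) := by
        push_cast
        have : (0 : ℝ) ≤ L := Nat.cast_nonneg _
        linarith
      have h6 : (0 : ℝ) ≤ ((ℓ' + 2 * L : ℕ) : ℝ) := Nat.cast_nonneg _
      have h7 : (0 : ℝ) ≤ Real.log n ^ 2 := sq_nonneg _
      have h8 : ((ℓ' + 2 * L : ℕ) : ℝ) * (4 * Real.log (n / (6 * s)) ^ 2) ≤
          4 * (4 * ((ℓ + 2 * L : ℕ) : ℝ)) * Real.log n ^ 2 := by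
        calc _ ≤ ((ℓ' + 2 * L : ℕ) : ℝ) * Real.log (n / (6 * s')) ^ 2 := by gcongr
          _ ≤ 4 * ((4 * ℓ + 4 * L + 2 * L : ℕ) : ℝ) * Real.log n ^ 2 := hv4
          _ ≤ _ := by gcongr
      linarith

/-- the deterministic part -/
theorem det2 (hCM : S_CM) (hk : 1 ≤ k) {ε : ℝ} (hε : ε ≤ 2)
    {L M : ℕ} (hn : 400 ≤ n) (hg : ∀ r ≤ M, TGap x ε r) (hM : 1600 ≤ M)
    (hL : (1 - ε / 2) ^ L * (n : ℝ) ^ 2 ≤ 1 / (16 * (n : ℝ) ^ 2))
    (hT : (1 - ε / 2) ^ n * ((n : ℝ) ^ M) ^ 2 ≤ 1 / 64) (h2M : 2 * M ≤ n)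
    {g : Perm (Fin n)} (hgw : g ∈ PB x (1 + L))
    (hgp : ∃ m ≤ n, n ≤ 32 * #(g ^ m).support ∧ 8 * #(g ^ m).support ≤ n) :
    ∃ ℓ s : ℕ, (ℓ : ℝ) ≤ 256 * (n * (1 + L) + 2 * L) * Real.log n ^ 2 + 4 * n ∧
      M ≤ 512 * s ∧ 6 ≤ s ∧ ∀ σ : Perm (Fin n), Perm.sign σ = 1 →
        σ ∈ PB x (2 * ((2 * ℓ + 4 * n) * (n / (4 * (s / 6)) + 2))) := by
  obtain ⟨m0, hm0, h1, h2⟩ := hgp
  have hn1 : (1 : ℝ) ≤ n := by
    have : 1 ≤ n := by omega
    exact_mod_cast this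
  have ht : g ^ m0 ∈ PB x (n * (1 + L)) :=
    PB.mono (Nat.mul_le_mul_right _ hm0) (PB.pow hgw m0)
  obtain ⟨m, hm⟩ : ∃ m, m = M / 16 := ⟨_, rfl⟩
  have hm16 : 16 * m ≤ M := by omega
  have hm100 : 100 ≤ m := by omega
  have hMm : M ≤ 32 * m := by omega
  obtain ⟨R, hRdef⟩ : ∃ R, R = Nat.sqrt (m * n) := ⟨_, rfl⟩
  have hR1 : R ^ 2 ≤ m * n := by rw [hRdef]; exact Nat.sqrt_le' _
  have hR2 : m * n < (R + 1) ^ 2 := by rw [hRdef]; exact Nat.lt_succ_sqrt' _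
  have hR3 : m * n ≤ 4 * R ^ 2 := by
    have : 1 ≤ R := by
      by_contra hcon
      have h0 : R = 0 := by omega
      rw [h0] at hR2
      have : 1 ≤ m * n := Nat.mul_pos (by omega) (by omega)
      omega
    nlinarith
  have hR8 : 8 * n ≤ R ^ 2 := by
    have : 100 * n ≤ m * n := Nat.mul_le_mul_right _ hm100
    omega
  have hlow : R ^ 2 ≤ 4 * n * #(g ^ m0).support := by
    have h3 : m * n ≤ 4 * n * #(g ^ m0).support := by
      have h4 : 8 * m ≤ n := by omega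
      have h5 : 8 * (m * n) ≤ n * n := by nlinarith
      have h6 : n * n ≤ n * (32 * #(g ^ m0).support) := Nat.mul_le_mul_left _ h1
      nlinarith
    exact hR1.trans h3
  obtain ⟨u, ℓ, hu, hu1, hu2, hu3, hu4⟩ := reduce2 hk hε (hg 2 (by omega)) hL (by omega) hR8
    #(g ^ m0).support (n * (1 + L)) (g ^ m0) ht rfl h2 hlow
  have hs0 : 1 ≤ #(g ^ m0).support := by omega
  have hlg := log_ge hs0 h2
  -- the length after the reduction
  have hlen : (ℓ : ℝ) ≤ 64 * (n * (1 + L) + 2 * L) * Real.log n ^ 2 := by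
    have h3 : (1 / 16 : ℝ) ≤ Real.log (n / (6 * #(g ^ m0).support)) ^ 2 := by
      have := pow_le_pow_left₀ (by norm_num) hlg 2
      norm_num at this ⊢
      linarith
    have h4 : (0 : ℝ) ≤ ((ℓ + 2 * L : ℕ) : ℝ) := Nat.cast_nonneg _
    have h5 := mul_le_mul_of_nonneg_left h3 h4
    have h6 : (ℓ : ℝ) ≤ ((ℓ + 2 * L : ℕ) : ℝ) := by
      push_cast
      have : (0 : ℝ) ≤ L := Nat.cast_nonneg _
      linarith
    have h7 : ((ℓ + 2 * L : ℕ) : ℝ) * (1 / 16) ≤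
        4 * ((n * (1 + L) + 2 * L : ℕ) : ℝ) * Real.log n ^ 2 := h5.trans hu4
    push_cast at h6 h7
    linarith
  -- the last step
  have hlast : ∃ ℓ₂ : ℕ, ∃ v ∈ PB x ℓ₂, ℓ₂ ≤ 4 * ℓ + 4 * n ∧ m ≤ 16 * #v.support ∧
      #v.support ≤ 15 * m := by
    by_cases h3 : 3 * m ≤ #u.support
    · have hTm : (1 - ε / 2) ^ n * ((n : ℝ) ^ (2 * m + 2)) ^ 2 ≤ 1 / 64 := by
        refine le_trans ?_ hT
        have h4 : (n : ℝ) ^ (2 * m + 2) ≤ (n : ℝ) ^ M := pow_le_pow_right₀ hn1 (by omega)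
        have h5 : (0 : ℝ) ≤ (1 - ε / 2) ^ n := pow_nonneg (by linarith) _
        gcongr
      obtain ⟨v, hv, hv1, hv2⟩ := hCM n k x ε m n ℓ u hk hε (by omega) (hg _ (by omega))
        (hg _ (by omega)) hTm hu h3 ((Nat.pow_le_pow_left hu1 2).trans hR1) hu3
      exact ⟨_, v, hv, le_rfl, by omega, hv2⟩
    · refine ⟨ℓ, u, hu, by omega, ?_, by omega⟩
      have h4 : n * m ≤ n * (16 * #u.support) := by nlinarith
      exact Nat.le_of_mul_le_mul_left h4 (by omega)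
  obtain ⟨ℓ₂, v, hv, hv0, hv1, hv2⟩ := hlast
  have htr : Trans x M n := trans_of_gap hk hε (by omega) hg (by linarith)
  refine ⟨ℓ₂, #v.support, ?_, by omega, by omega, fun σ hσ =>
    all_of_small (by omega) htr hv (by omega) (by omega) hσ⟩
  have hv0' : (ℓ₂ : ℝ) ≤ 4 * ℓ + 4 * n := by exact_mod_cast hv0
  linarith

theorem num2 {n L M ℓ s : ℕ} {X Y : ℝ} (hX1 : 12700000 ≤ X) (hn : 1 ≤ n)
    (hL : (L : ℝ) ≤ X) (hlog : Real.log n ^ 2 ≤ X) (hY0 : 0 < Y) (hM : Y ≤ 2 * M) (hMn : M ≤ n)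
    (h1 : (ℓ : ℝ) ≤ 256 * (n * (1 + L) + 2 * L) * Real.log n ^ 2 + 4 * n)
    (h2 : M ≤ 512 * s) (h3 : 6 ≤ s) :
    ((2 * ((2 * ℓ + 4 * n) * (n / (4 * (s / 6)) + 2)) : ℕ) : ℝ) ≤ n * (n / Y) * X ^ 3 := by
  have hn' : (1 : ℝ) ≤ n := by exact_mod_cast hn
  have hX0 : (0 : ℝ) < X := by linarith
  have hX1' : (1 : ℝ) ≤ X := by linarith
  have hM0 : (0 : ℝ) < M := by linarith
  have hMn' : (M : ℝ) ≤ n := by exact_mod_cast hMn
  -- the length
  have hl : (ℓ : ℝ) ≤ 1028 * n * X ^ 2 := by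
    have e3 : (n : ℝ) * (1 + L) + 2 * L ≤ 4 * n * X := by
      have e4 : (n : ℝ) * L ≤ n * X := by gcongr
      have e5 : (n : ℝ) * 1 ≤ n * X := by gcongr
      have e6 : 1 * (L : ℝ) ≤ n * X := mul_le_mul hn' hL (by positivity) (by linarith)
      nlinarith
    have e7 : 256 * ((n : ℝ) * (1 + L) + 2 * L) * Real.log n ^ 2 ≤ 256 * (4 * n * X) * X := by
      gcongr
    have e8 : 4 * (n : ℝ) ≤ 4 * n * X ^ 2 := by
      have : (1 : ℝ) ≤ X ^ 2 := one_le_pow₀ hX1'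
      nlinarith
    calc (ℓ : ℝ) ≤ _ := h1
      _ ≤ 256 * (4 * n * X) * X + 4 * n * X ^ 2 := add_le_add e7 e8
      _ = 1028 * n * X ^ 2 := by ring
  have hpc : ((n / (4 * (s / 6)) : ℕ) : ℝ) ≤ 1536 * (n / M) := by
    have hs6 : s ≤ 12 * (s / 6) := by omega
    have hs6' : (s : ℝ) ≤ 12 * ((s / 6 : ℕ) : ℝ) := by exact_mod_cast hs6
    have h2' : (M : ℝ) ≤ 512 * s := by exact_mod_cast h2
    have hpos : (0 : ℝ) < ((s / 6 : ℕ) : ℝ) := by
      have : 0 < s / 6 := by omega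
      exact_mod_cast this
    refine Nat.cast_div_le.trans ?_
    push_cast
    rw [← mul_div_assoc, div_le_div_iff₀ (by positivity) hM0]
    nlinarith
  have hnM : (n : ℝ) / M ≤ 2 * (n / Y) := by
    rw [← mul_div_assoc, div_le_div_iff₀ hM0 hY0]
    nlinarith
  have h1M : (1 : ℝ) ≤ n / M := by rw [le_div_iff₀ hM0]; linarith
  have hsum : (2 * (ℓ : ℝ) + 4 * n) ≤ 2060 * n * X ^ 2 := by
    have : (1 : ℝ) ≤ X ^ 2 := one_le_pow₀ hX1'
    nlinarith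
  have hsum2 : ((n / (4 * (s / 6)) : ℕ) : ℝ) + 2 ≤ 3080 * (n / Y) := by linarith
  have e0 : ((2 * ((2 * ℓ + 4 * n) * (n / (4 * (s / 6)) + 2)) : ℕ) : ℝ) =
      2 * ((2 * (ℓ : ℝ) + 4 * n) * (((n / (4 * (s / 6)) : ℕ) : ℝ) + 2)) := by
    push_cast
    ring
  rw [e0]
  have hnY : (0 : ℝ) < n / Y := by positivity
  calc 2 * ((2 * (ℓ : ℝ) + 4 * n) * (((n / (4 * (s / 6)) : ℕ) : ℝ) + 2))
      ≤ 2 * ((2060 * n * X ^ 2) * (3080 * (n / Y))) := by gcongr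
    _ = n * (n / Y) * X ^ 2 * 12689600 := by ring
    _ ≤ n * (n / Y) * X ^ 2 * X := by gcongr; linarith
    _ = n * (n / Y) * X ^ 3 := by ring

end

end R3516
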