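import Pool.Agent.U516.RD.Main
import Pool.Agent.R236.DenE
import Pool.Agent.H14R2.RC.Gen
import Pool.Agent.H14R2.RC.S.TYPESLVL
import Pool.Agent.H14R2.RC.S.CONJS

/-!
Project R3 (helper516), MP_75608d_al: for every `k ≥ 3` the diameter of `A_n` for `k` random
generators is at most `n ^ (15 / 8 + δ)`.  Statements of the packages.
-/

namespace R3516
open RC14 RD516 Finset Filter Topology
open Pool.Agent.R236.Den

noncomputable section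

/-- package ST: a conjugation invariant set of positive density whose elements have a power of
small support -/
def S_ST : Prop := ∃ c : ℝ, 0 < c ∧ ∃ N : ℕ, ∀ n ≥ N, ∃ E : Finset (alternatingGroup (Fin n)),
    (∀ g h : alternatingGroup (Fin n), g * h ∈ E ↔ h * g ∈ E) ∧
    c * Fintype.card (alternatingGroup (Fin n)) ≤ (#E : ℝ) ∧
    ∀ g ∈ E, ∃ m ≤ n, n ≤ 32 * #((g : Equiv.Perm (Fin n)) ^ m).support ∧
      8 * #((g : Equiv.Perm (Fin n)) ^ m).support ≤ n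

/-- package CM: commutator of an element with a conjugate prescribed on `2 m` points -/
def S_CM : Prop := ∀ (n k : ℕ) (x : Fin k → alternatingGroup (Fin n)) (ε : ℝ) (m T ℓ : ℕ)
    (t : Equiv.Perm (Fin n)), 1 ≤ k → ε ≤ 2 → 1 ≤ m → TGap x ε (2 * m) →
    TGap x ε (2 * m + 1) → (1 - ε / 2) ^ T * ((n : ℝ) ^ (2 * m + 2)) ^ 2 ≤ 1 / 64 →
    t ∈ PB x ℓ → 3 * m ≤ #t.support → #t.support ^ 2 ≤ m * n → 8 * #t.support ≤ n →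
    ∃ u ∈ PB x (4 * ℓ + 4 * T), m ≤ #u.support ∧ #u.support ≤ 15 * m

/-- package AM: one amplifying element in an irreducible subspace -/
def S_AM : Prop := ∀ (G : Type) [Group G] [Fintype G] (V : Type) [NormedAddCommGroup V]
    [InnerProductSpace ℂ V] [FiniteDimensional ℂ V] (ρ : G →* (V ≃ₗᵢ[ℂ] V)) (W : Submodule ℂ V)
    (hW : Irr ρ W) (k : ℕ) (x : Fin k → G) (θ η t : ℝ) (L : ℕ), 1 ≤ k → 0 < θ → θ < 1 → 0 ≤ η →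
    rtr (PX (res ρ W hW.2.1) x ^ (2 * L)) ≤ η * Module.finrank ℂ W →
    rtr (PX (res ρ W hW.2.1) x ^ (2 * L)) ≤ t →
    (Nat.card {z : G // ¬ ∀ v ∈ W, (1 - θ) / 36 * ‖v‖ ^ 2 ≤ En ρ x v + ‖ρ z v - v‖ ^ 2} : ℝ) ≤
      4 * (1 / θ) ^ (4 * L) * η * t * Fintype.card G

/-- package TR: traces in the irreducible subspaces of `Lvl j n` -/
def S_TR : Prop := ∀ (n j ℓ F k L : ℕ) (x : Fin k → Alt n) (W : Submodule ℂ (V j n))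
    (hW : Irr (repA j n) W), 1 ≤ k → 2 * j + 2 ≤ n → 1 ≤ j → 2 * L ≤ ℓ →
    FewFixK n ℓ F (fun i => (x i : Equiv.Perm (Fin n))) → W ≤ Lvl j n →
    rtr (PX (V := ↥W) (res (repA j n) W hW.2.1) x ^ (2 * L)) ≤
      ((Real.sqrt (2 * k - 1) / k) ^ (2 * L) + bb j j n F ^ j) * Module.finrank ℂ W ∧
    rtr (PX (V := ↥W) (res (repA j n) W hW.2.1) x ^ (2 * L)) ≤
      (Real.sqrt (2 * k - 1) / k) ^ (2 * L) * (n : ℝ) ^ j + (F : ℝ) ^ j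

/-- package FF: few fixed points, general exponents -/
def S_FF : Prop := ∀ (k : ℕ) (α φ : ℝ), 1 ≤ k → 0 < α → 3 * α < φ → φ ≤ 1 → ∀ e : ℝ, 0 < e →
    ∀ᶠ n : ℕ in atTop, (Nat.card {x : Fin k → Alt n // ¬ FewFixK n ⌊(n : ℝ) ^ α⌋₊
      ⌈(n : ℝ) ^ φ⌉₊ (fun i => (x i : Equiv.Perm (Fin n)))} : ℝ) ≤
      e * (Fintype.card (Alt n) : ℝ) ^ k

/-- package NU: the sum over the levels is small -/
def S_NU : Prop := ∀ κ : ℝ, 0 < κ → κ < 1 / 8 → ∃ θ α φ : ℝ, 0 < θ ∧ θ < 1 ∧ 0 < α ∧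
    3 * α < φ ∧ φ ≤ 1 ∧ ∀ e : ℝ, 0 < e → ∀ᶠ n : ℕ in atTop,
      2 * ⌊(n : ℝ) ^ κ⌋₊ + 2 ≤ n ∧
      2 * (⌊(n : ℝ) ^ κ⌋₊ * ⌈4 * Real.log n⌉₊) ≤ ⌊(n : ℝ) ^ α⌋₊ ∧
      ∑ j ∈ Finset.Icc 1 ⌊(n : ℝ) ^ κ⌋₊, Real.exp (3 * Real.sqrt j) *
        (4 * (1 / θ) ^ (4 * (j * ⌈4 * Real.log n⌉₊)) *
          ((Real.sqrt 3 / 2) ^ (2 * (j * ⌈4 * Real.log n⌉₊)) +
            bb j j n ⌈(n : ℝ) ^ φ⌉₊ ^ j) *
          ((Real.sqrt 3 / 2) ^ (2 * (j * ⌈4 * Real.log n⌉₊)) * (n : ℝ) ^ j +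
            (⌈(n : ℝ) ^ φ⌉₊ : ℝ) ^ j)) ≤ e

/-- package PR: a random pair has few exceptional eigenvalues in every irreducible -/
def S_PR : Prop := ∃ ε : ℝ, 0 < ε ∧ ε ≤ 1 ∧ ∃ c : ℝ, 0 < c ∧ ∀ e : ℝ, 0 < e →
    ∀ᶠ n : ℕ in atTop, (Nat.card {y : Fin 2 → Alt n // ¬ IrrFew ε ((n : ℝ) ^ (-c)) y} : ℝ) ≤
      e * (Fintype.card (Alt n) : ℝ) ^ 2

end

end R3516
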