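import Pool.Agent.U516.R3.Spec

/-!
Project R3 (helper516), MP_75608d_al: the packages for `q` amplifying elements.
-/

namespace R3516
open RC14 RD516 Finset Filter Topology
open Pool.Agent.R236.Den

noncomputable section

/-- package AMQ: `q` amplifying elements in an irreducible subspace -/
def S_AMQ : Prop := ∀ (G : Type) [Group G] [Fintype G] (V : Type) [NormedAddCommGroup V]
    [InnerProductSpace ℂ V] [FiniteDimensional ℂ V] (ρ : G →* (V ≃ₗᵢ[ℂ] V)) (W : Submodule ℂ V)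
    (hW : Irr ρ W) (k q : ℕ) (x : Fin k → G) (θ η t : ℝ) (L : ℕ), 1 ≤ k → 1 ≤ q → 0 < θ →
    θ < 1 → 0 ≤ η →
    rtr (PX (V := ↥W) (res ρ W hW.2.1) x ^ (2 * L)) ≤ η * Module.finrank ℂ W →
    rtr (PX (V := ↥W) (res ρ W hW.2.1) x ^ (2 * L)) ≤ t →
    (Nat.card {z : Fin q → G // ¬ ∀ v ∈ W, (1 - θ) / (64 * (q : ℝ) ^ 2) * ‖v‖ ^ 2 ≤
      En ρ x v + En ρ z v} : ℝ) ≤
      4 * (1 / θ) ^ (2 * L * (q + 1)) * η ^ q * t * (Fintype.card G : ℝ) ^ q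

/-- package NUQ: the sum over the levels is small, `q` amplifying elements -/
def S_NUQ : Prop := ∀ (q : ℕ) (κ : ℝ), 1 ≤ q → 0 < κ → κ < q / (2 * (q + 3)) →
    κ < q / (3 * (q + 1)) → ∃ θ α φ : ℝ, 0 < θ ∧ θ < 1 ∧ 0 < α ∧
    3 * α < φ ∧ φ ≤ 1 ∧ ∀ e : ℝ, 0 < e → ∀ᶠ n : ℕ in atTop,
      2 * ⌊(n : ℝ) ^ κ⌋₊ + 2 ≤ n ∧
      2 * (⌊(n : ℝ) ^ κ⌋₊ * ⌈4 * Real.log n⌉₊) ≤ ⌊(n : ℝ) ^ α⌋₊ ∧
      ∑ j ∈ Finset.Icc 1 ⌊(n : ℝ) ^ κ⌋₊, Real.exp (3 * Real.sqrt j) *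
        (4 * (1 / θ) ^ (2 * (j * ⌈4 * Real.log n⌉₊) * (q + 1)) *
          ((Real.sqrt 3 / 2) ^ (2 * (j * ⌈4 * Real.log n⌉₊)) +
            bb j j n ⌈(n : ℝ) ^ φ⌉₊ ^ j) ^ q *
          ((Real.sqrt 3 / 2) ^ (2 * (j * ⌈4 * Real.log n⌉₊)) * (n : ℝ) ^ j +
            (⌈(n : ℝ) ^ φ⌉₊ : ℝ) ^ j)) ≤ e

end

end R3516
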